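import Pool.Agent.SP.Defs

/-!
Positive definite gases.
-/

set_option autoImplicit false

namespace Pool.Agent.SP

open Finset
open scoped ENNReal
open Pool.Agent.Helper36.LL (conv dlt FF gw tern)

variable {G : Type*} [AddCommGroup G]

/-! ### Convolutions -/

theorem PD.dlt : PD (dlt : G → ℝ≥0∞) := by
  refine ⟨Unit, fun _ => Pool.Agent.Helper36.LL.dlt, fun g => ?_⟩
  rw [tsum_eq_single ()]
  · rw [tsum_eq_single (0 : G)]
    · rw [zero_add]
      simp [Pool.Agent.Helper36.LL.dlt]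
    · intro h hh
      simp [Pool.Agent.Helper36.LL.dlt, hh]
  · intro u hu
    exact absurd rfl hu

theorem PD.conv {w : ℤ → ℝ≥0∞} (hw : PD w) {M : G → ℝ≥0∞} (hM : PD M) (b : G) :
    PD (conv w b M) := by
  obtain ⟨I, φ, hφ⟩ := hw
  obtain ⟨C, F, hF⟩ := hM
  refine ⟨C × I, fun c h => ∑' k : ℤ, φ c.2 k * F c.1 (h - k • b), fun g => ?_⟩
  have e1 : ∀ (c : C) (i : I) (k l : ℤ),
      ∑' h : G, (φ i k * F c (h - k • b)) * (φ i l * F c (h + g - l • b)) =
        φ i k * φ i l * ∑' h : G, F c h * F c (h + (g - (l - k) • b)) := by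
    intro c i k l
    rw [← ENNReal.tsum_mul_left, ← (Equiv.addRight (k • b)).tsum_eq]
    refine tsum_congr fun h => ?_
    have e : h + k • b + g - l • b = h + (g - (l - k) • b) := by
      rw [sub_smul]; abel
    simp only [Equiv.coe_addRight, add_sub_cancel_right]
    rw [e]
    ring
  have e2 : ∀ c : C × I, ∑' h : G, (∑' k : ℤ, φ c.2 k * F c.1 (h - k • b)) *
      (∑' k : ℤ, φ c.2 k * F c.1 (h + g - k • b)) =
      ∑' k : ℤ, ∑' l : ℤ, φ c.2 k * φ c.2 l * ∑' h : G, F c.1 h * F c.1 (h + (g - (l - k) • b)) := by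
    intro c
    simp only [← e1, ← ENNReal.tsum_mul_left, ← ENNReal.tsum_mul_right]
    rw [ENNReal.tsum_comm]
    have h3 : ∀ l : ℤ, ∑' (h : G) (k : ℤ), φ c.2 k * F c.1 (h - k • b) *
        (φ c.2 l * F c.1 (h + g - l • b)) = ∑' (k : ℤ) (h : G), φ c.2 k * F c.1 (h - k • b) *
        (φ c.2 l * F c.1 (h + g - l • b)) := fun l => ENNReal.tsum_comm
    rw [tsum_congr h3, ENNReal.tsum_comm]
  have e3 : ∀ (c : C × I) (k : ℤ), ∑' l : ℤ, φ c.2 k * φ c.2 l *
      ∑' h : G, F c.1 h * F c.1 (h + (g - (l - k) • b)) =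
      ∑' n : ℤ, φ c.2 k * φ c.2 (k + n) * ∑' h : G, F c.1 h * F c.1 (h + (g - n • b)) := by
    intro c k
    rw [← (Equiv.addLeft k).tsum_eq]
    refine tsum_congr fun n => ?_
    simp only [Equiv.coe_addLeft, add_sub_cancel_left]
  have e4 : ∀ n : ℤ, w n * M (g - n • b) = ∑' (c : C) (i : I),
      (∑' k : ℤ, φ i k * φ i (k + n)) * ∑' h : G, F c h * F c (h + (g - n • b)) := by
    intro n
    rw [hφ, hF, ← ENNReal.tsum_mul_left]
    refine tsum_congr fun c => ?_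
    rw [← ENNReal.tsum_mul_right]
  have e5 : ∀ (c : C) (i : I), ∑' n : ℤ, (∑' k : ℤ, φ i k * φ i (k + n)) *
      ∑' h : G, F c h * F c (h + (g - n • b)) = ∑' h : G,
        (∑' k : ℤ, φ i k * F c (h - k • b)) * (∑' k : ℤ, φ i k * F c (h + g - k • b)) := by
    intro c i
    have := e2 (c, i)
    simp only at this
    rw [this]
    have e6 := e3 (c, i)
    simp only at e6
    rw [tsum_congr e6, ENNReal.tsum_comm]
    refine tsum_congr fun n => ?_
    rw [ENNReal.tsum_mul_right]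
  calc Pool.Agent.Helper36.LL.conv w b M g = ∑' n : ℤ, w n * M (g - n • b) := rfl
    _ = ∑' (n : ℤ) (c : C) (i : I),
      (∑' k : ℤ, φ i k * φ i (k + n)) * ∑' h : G, F c h * F c (h + (g - n • b)) :=
        tsum_congr e4
    _ = ∑' (c : C) (i : I) (n : ℤ),
      (∑' k : ℤ, φ i k * φ i (k + n)) * ∑' h : G, F c h * F c (h + (g - n • b)) := by
        rw [ENNReal.tsum_comm]
        exact tsum_congr fun c => ENNReal.tsum_comm
    _ = ∑' (c : C) (i : I), ∑' h : G,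
        (∑' k : ℤ, φ i k * F c (h - k • b)) * (∑' k : ℤ, φ i k * F c (h + g - k • b)) :=
        tsum_congr fun c => tsum_congr fun i => e5 c i
    _ = ∑' (c : C × I), ∑' h : G, (∑' k : ℤ, φ c.2 k * F c.1 (h - k • b)) *
        (∑' k : ℤ, φ c.2 k * F c.1 (h + g - k • b)) :=
        (ENNReal.tsum_prod (f := fun c i => ∑' h : G, (∑' k : ℤ, φ i k * F c (h - k • b)) *
          (∑' k : ℤ, φ i k * F c (h + g - k • b)))).symm

/-! ### Weights -/

theorem pd_sq_rpow_half (c : ℝ≥0∞) : c ^ (1 / 2 : ℝ) * c ^ (1 / 2 : ℝ) = c := by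
  rw [← ENNReal.rpow_add_of_nonneg _ _ (by norm_num) (by norm_num)]
  norm_num

theorem pd_tern {w : ℝ≥0∞} (hw : w ≤ 2⁻¹) : PD (tern w) := by
  refine ⟨Bool, fun e k => if e then w ^ (1 / 2 : ℝ) * (if k = 0 ∨ k = 1 then 1 else 0) else
    (1 - 2 * w) ^ (1 / 2 : ℝ) * (if k = 0 then 1 else 0), fun n => ?_⟩
  rw [tsum_fintype, Fintype.sum_bool]
  have h1 : ∑' k : ℤ, (w ^ (1 / 2 : ℝ) * (if k = 0 ∨ k = 1 then 1 else 0)) *
      (w ^ (1 / 2 : ℝ) * (if k + n = 0 ∨ k + n = 1 then 1 else 0)) =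
      w * ((if n = 0 ∨ n = 1 then 1 else 0) + (if n = -1 ∨ n = 0 then 1 else 0)) := by
    rw [tsum_eq_sum (s := {0, 1})]
    · rw [Finset.sum_pair (by decide)]
      have e1 : (1 + n = 0 ∨ 1 + n = 1) ↔ (n = -1 ∨ n = 0) := by omega
      have e0 : (0 + n = 0 ∨ 0 + n = 1) ↔ (n = 0 ∨ n = 1) := by omega
      rw [if_congr e1 rfl rfl, if_congr e0 rfl rfl]
      simp only [true_or, or_true, if_true, mul_one]
      rw [← mul_assoc, ← mul_assoc, pd_sq_rpow_half, ← mul_add]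
    · intro k hk
      simp only [Finset.mem_insert, Finset.mem_singleton] at hk
      rw [if_neg hk, mul_zero, zero_mul]
  have h2 : ∑' k : ℤ, ((1 - 2 * w) ^ (1 / 2 : ℝ) * (if k = 0 then 1 else 0)) *
      ((1 - 2 * w) ^ (1 / 2 : ℝ) * (if k + n = 0 then 1 else 0)) =
      (1 - 2 * w) * (if n = 0 then 1 else 0) := by
    rw [tsum_eq_single (0 : ℤ)]
    · rw [zero_add]
      simp only [if_true, mul_one]
      rw [← mul_assoc, pd_sq_rpow_half]
    · intro k hk
      rw [if_neg hk, mul_zero, zero_mul]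
  simp only [Bool.false_eq_true, if_true, if_false]
  rw [h1, h2]
  have hw2 : 2 * w ≤ 1 := by
    calc 2 * w ≤ 2 * 2⁻¹ := by gcongr
      _ = 1 := ENNReal.mul_inv_cancel (by norm_num) (by norm_num)
  by_cases hn : n = 0
  · subst hn
    simp only [Pool.Agent.Helper36.LL.tern_zero, true_or, or_true, if_true, mul_one]
    rw [show w * (1 + 1) = 2 * w by ring, add_tsub_cancel_of_le hw2]
  · have e3 : ¬ (n = 0 ∨ n = 1) ∨ ¬ (n = -1 ∨ n = 0) := by omega
    unfold tern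
    rw [if_neg hn, if_neg hn, mul_zero, add_zero]
    by_cases h1 : n = 1
    · subst h1
      simp
    · by_cases h2 : n = -1
      · subst h2
        simp
      · rw [if_neg (by omega), if_neg (by omega), if_neg (by omega)]
        simp

theorem pd_gw_eq_thg {x : ℝ≥0∞} (n : ℤ) (y : ℝ≥0∞) (hy : y ^ 2 = x) :
    thg x * gw x n = ∑' m : ℤ, y ^ (m.natAbs ^ 2) * y ^ ((m + 2 * n).natAbs ^ 2) := by
  have e : ∀ m : ℤ, y ^ (m.natAbs ^ 2) * y ^ ((m + 2 * n).natAbs ^ 2) =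
      gw x (n + m) * gw x n := by
    intro m
    have h1 : m.natAbs ^ 2 + (m + 2 * n).natAbs ^ 2 = 2 * (n + m).natAbs ^ 2 + 2 * n.natAbs ^ 2 := by
      have h2 := Pool.Agent.Helper36.LL.nat_sq (n + m) n
      have h3 : n + m + n = m + 2 * n := by ring
      have h4 : n + m - n = m := by ring
      rw [h3, h4] at h2
      omega
    rw [← pow_add, h1, pow_add, pow_mul, pow_mul, hy]
    rfl
  rw [tsum_congr e, ENNReal.tsum_mul_right]
  congr 1
  exact ((Equiv.addLeft n).tsum_eq (gw x)).symm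

theorem pd_gw_le_pow {x : ℝ≥0∞} (hx : x ≤ 1) (j : ℤ) : gw x j ≤ x ^ j.natAbs := by
  unfold gw
  exact pow_le_pow_right_of_le_one' hx (by nlinarith [Nat.zero_le j.natAbs, sq_nonneg j.natAbs, Nat.le_self_pow (n := 2) (by norm_num) j.natAbs])

theorem thg_ne_top_aux {x : ℝ≥0∞} (hx : x < 1) : thg x ≠ ⊤ := by
  have h0 : thg x ≤ (1 - x)⁻¹ + (1 - x)⁻¹ := by
    unfold thg
    rw [← ENNReal.tsum_geometric]
    have h1 : ∀ j : ℤ, gw x j ≤ (if 0 ≤ j then x ^ j.natAbs else 0) +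
        (if j ≤ 0 then x ^ j.natAbs else 0) := by
      intro j
      rcases le_total 0 j with h | h
      · rw [if_pos h]
        exact (pd_gw_le_pow hx.le j).trans le_self_add
      · rw [if_pos h]
        exact (pd_gw_le_pow hx.le j).trans le_add_self
    refine (ENNReal.tsum_le_tsum h1).trans ?_
    rw [ENNReal.tsum_add]
    have h2 : ∑' j : ℤ, (if 0 ≤ j then x ^ j.natAbs else 0) = ∑' n : ℕ, x ^ n := by
      rw [← Function.Injective.tsum_eq (g := ((↑) : ℕ → ℤ)) Nat.cast_injective]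
      · refine tsum_congr fun n => ?_
        simp
      · intro j hj
        rw [Function.mem_support] at hj
        by_cases h : 0 ≤ j
        · exact ⟨j.toNat, Int.toNat_of_nonneg h⟩
        · rw [if_neg h] at hj
          exact absurd rfl hj
    have h3 : ∑' j : ℤ, (if j ≤ 0 then x ^ j.natAbs else 0) = ∑' n : ℕ, x ^ n := by
      rw [← h2, ← (Equiv.neg ℤ).tsum_eq]
      refine tsum_congr fun j => ?_
      simp
    rw [h2, h3]
  refine ne_top_of_le_ne_top ?_ h0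
  have h2 : (1 - x)⁻¹ ≠ ⊤ := ENNReal.inv_ne_top.2 (tsub_pos_of_lt hx).ne'
  exact ENNReal.add_ne_top.2 ⟨h2, h2⟩

theorem one_le_thg_aux (x : ℝ≥0∞) : 1 ≤ thg x := by
  unfold thg
  refine le_trans ?_ (ENNReal.le_tsum (0 : ℤ))
  simp

theorem pd_gw {x : ℝ≥0∞} (hx : x < 1) : PD (gw x) := by
  have ht := thg_ne_top_aux hx
  have ht0 : thg x ≠ 0 := (zero_lt_one.trans_le (one_le_thg_aux x)).ne'
  obtain ⟨y, hy⟩ : ∃ y : ℝ≥0∞, y ^ 2 = x := ⟨x ^ (1 / 2 : ℝ), by rw [pow_two, pd_sq_rpow_half]⟩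
  refine ⟨Fin 2, fun e k => (thg x)⁻¹ ^ (1 / 2 : ℝ) * y ^ ((k * 2 + (e : ℤ)).natAbs ^ 2),
    fun n => ?_⟩
  have h1 : ∀ (e : Fin 2) (k : ℤ), ((thg x)⁻¹ ^ (1 / 2 : ℝ) * y ^ ((k * 2 + (e : ℤ)).natAbs ^ 2)) *
      ((thg x)⁻¹ ^ (1 / 2 : ℝ) * y ^ (((k + n) * 2 + (e : ℤ)).natAbs ^ 2)) =
      (thg x)⁻¹ * (y ^ ((k * 2 + (e : ℤ)).natAbs ^ 2) *
        y ^ ((k * 2 + (e : ℤ) + 2 * n).natAbs ^ 2)) := by
    intro e k
    have e1 : (k + n) * 2 + (e : ℤ) = k * 2 + (e : ℤ) + 2 * n := by ring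
    rw [e1, mul_mul_mul_comm, pd_sq_rpow_half]
  simp only [h1]
  simp only [ENNReal.tsum_mul_left]
  have h2 : ∑' (e : Fin 2) (k : ℤ), (y ^ ((k * 2 + (e : ℤ)).natAbs ^ 2) *
        y ^ ((k * 2 + (e : ℤ) + 2 * n).natAbs ^ 2)) = thg x * gw x n := by
    rw [pd_gw_eq_thg n y hy, ENNReal.tsum_comm,
      ← ENNReal.tsum_prod (f := fun (k : ℤ) (e : Fin 2) => (y ^ ((k * 2 + (e : ℤ)).natAbs ^ 2) *
        y ^ ((k * 2 + (e : ℤ) + 2 * n).natAbs ^ 2))), ← (Int.divModEquiv 2).symm.tsum_eq]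
    refine tsum_congr fun p => ?_
    simp [Int.divModEquiv]
  rw [h2, ← mul_assoc, ENNReal.inv_mul_cancel ht0 ht, one_mul]

/-! ### Gases -/

theorem PD.conv_tern {M : G → ℝ≥0∞} (h : PD M) {w : ℝ≥0∞} (hw : w ≤ 2⁻¹) (b : G) :
    PD (Pool.Agent.Helper36.LL.conv (tern w) b M) := PD.conv (pd_tern hw) h b

theorem PD.conv_gw {M : G → ℝ≥0∞} (h : PD M) {x : ℝ≥0∞} (hx : x < 1) (b : G) :
    PD (Pool.Agent.Helper36.LL.conv (gw x) b M) := PD.conv (pd_gw hx) h b

theorem PD.FF_tern [DecidableEq G] {M : G → ℝ≥0∞} (h : PD M) {w : ℝ≥0∞} (hw : w ≤ 2⁻¹)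
    (B : Finset G) : PD (FF (fun _ => tern w) B M) := by
  induction B using Finset.induction_on with
  | empty => simpa using h
  | insert b B hb ih =>
    rw [Pool.Agent.Helper36.LL.FF_insert _ hb]
    exact ih.conv_tern hw b

theorem PD.FF_gw [DecidableEq G] {M : G → ℝ≥0∞} (h : PD M) {x : ℝ≥0∞} (hx : x < 1)
    (B : Finset G) : PD (FF (fun _ => gw x) B M) := by
  induction B using Finset.induction_on with
  | empty => simpa using h
  | insert b B hb ih =>
    rw [Pool.Agent.Helper36.LL.FF_insert _ hb]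
    exact ih.conv_gw hx b

theorem PD.VV {y : ℝ≥0∞} (hy : y < 1) (l : List G) : PD (VV y l) := by
  induction l with
  | nil => exact PD.dlt
  | cons a l ih => exact ih.conv_gw hy a

theorem pd_two_mul_le (a b : ℝ≥0∞) : 2 * (a * b) ≤ a * a + b * b := by
  rcases le_total a b with h | h
  · obtain ⟨c, rfl⟩ := exists_add_of_le h
    calc 2 * (a * (a + c)) ≤ 2 * (a * (a + c)) + c * c := le_self_add
      _ = a * a + (a + c) * (a + c) := by ring
  · obtain ⟨c, rfl⟩ := exists_add_of_le h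
    calc 2 * ((b + c) * b) ≤ 2 * ((b + c) * b) + c * c := le_self_add
      _ = (b + c) * (b + c) + b * b := by ring

theorem pd_sq {C : Type} {F : C → G → ℝ≥0∞} (g : G) :
    ∑' (c : C) (h : G), F c (h + g) * F c (h + g) = ∑' (c : C) (h : G), F c h * F c h :=
  tsum_congr fun c => (Equiv.addRight g).tsum_eq fun h => F c h * F c h

theorem pd_zero {C : Type} {F : C → G → ℝ≥0∞} {M : G → ℝ≥0∞}
    (hF : ∀ g, M g = ∑' (c : C) (h : G), F c h * F c (h + g)) :
    ∑' (c : C) (h : G), F c h * F c h = M 0 := by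
  rw [hF]
  simp only [add_zero]

theorem PD.le_zero {M : G → ℝ≥0∞} (h : PD M) (g : G) : M g ≤ M 0 := by
  obtain ⟨C, F, hF⟩ := h
  have h1 : 2 * M g ≤ 2 * M 0 := by
    calc 2 * M g = ∑' (c : C) (h : G), 2 * (F c h * F c (h + g)) := by
          rw [hF]
          simp only [ENNReal.tsum_mul_left]
      _ ≤ ∑' (c : C) (h : G), (F c h * F c h + F c (h + g) * F c (h + g)) :=
          ENNReal.tsum_le_tsum fun c => ENNReal.tsum_le_tsum fun h => pd_two_mul_le _ _
      _ = M 0 + M 0 := by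
          simp only [ENNReal.tsum_add]
          rw [pd_sq g, pd_zero hF]
      _ = 2 * M 0 := (two_mul _).symm
  exact (ENNReal.mul_le_mul_iff_right (by norm_num) (by norm_num)).1 h1

theorem PD.neg {M : G → ℝ≥0∞} (h : PD M) (g : G) : M (-g) = M g := by
  obtain ⟨C, F, hF⟩ := h
  rw [hF, hF]
  refine tsum_congr fun c => ?_
  rw [← (Equiv.addRight g).tsum_eq]
  refine tsum_congr fun h => ?_
  simp only [Equiv.coe_addRight, add_neg_cancel_right]
  exact mul_comm _ _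

/-- Total mass bound. -/
theorem PD.conv_le {M : G → ℝ≥0∞} (h : PD M) (w : ℤ → ℝ≥0∞) (a g : G) :
    Pool.Agent.Helper36.LL.conv w a M g ≤ (∑' j, w j) * M 0 := by
  unfold Pool.Agent.Helper36.LL.conv
  rw [← ENNReal.tsum_mul_right]
  exact ENNReal.tsum_le_tsum fun j => mul_le_mul_right (h.le_zero _) _

theorem pd_zero_le_conv {w : ℤ → ℝ≥0∞} (hw : w 0 = 1) (M : G → ℝ≥0∞) (a g : G) :
    M g ≤ Pool.Agent.Helper36.LL.conv w a M g := by
  unfold Pool.Agent.Helper36.LL.conv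
  refine le_trans ?_ (ENNReal.le_tsum (0 : ℤ))
  simp [hw]

theorem Fin0.conv {M : G → ℝ≥0∞} (h : PD M) (h0 : Fin0 M) {w : ℤ → ℝ≥0∞} (hw : w 0 = 1)
    (hw' : ∑' j, w j ≠ ⊤) (a : G) : Fin0 (Pool.Agent.Helper36.LL.conv w a M) := by
  refine ⟨fun h1 => h0.1 ?_, ne_top_of_le_ne_top (ENNReal.mul_ne_top hw' h0.2) (h.conv_le w a 0)⟩
  exact le_antisymm ((pd_zero_le_conv hw M a 0).trans h1.le) zero_le

theorem pd_tsum_tern_ne_top {w : ℝ≥0∞} (hw : w ≤ 2⁻¹) : ∑' j : ℤ, tern w j ≠ ⊤ := by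
  rw [tsum_eq_sum (s := {0, 1, -1})]
  · refine ENNReal.sum_ne_top.2 fun j _ => ?_
    have hw' : w ≠ ⊤ := ne_top_of_le_ne_top (by norm_num) hw
    unfold tern
    split_ifs
    · exact ENNReal.one_ne_top
    · exact hw'
    · exact ENNReal.zero_ne_top
  · intro j hj
    simp only [Finset.mem_insert, Finset.mem_singleton, not_or] at hj
    simp [tern, hj.1, hj.2.1, hj.2.2]

theorem Fin0.FF_tern [DecidableEq G] {M : G → ℝ≥0∞} (h : PD M) (h0 : Fin0 M) {w : ℝ≥0∞}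
    (hw : w ≤ 2⁻¹) (B : Finset G) : Fin0 (FF (fun _ => tern w) B M) := by
  induction B using Finset.induction_on with
  | empty => simpa using h0
  | insert b B hb ih =>
    rw [Pool.Agent.Helper36.LL.FF_insert _ hb]
    exact Fin0.conv (h.FF_tern hw B) ih (by simp) (pd_tsum_tern_ne_top hw) b

theorem Fin0.FF_gw [DecidableEq G] {M : G → ℝ≥0∞} (h : PD M) (h0 : Fin0 M) {x : ℝ≥0∞}
    (hx : x < 1) (B : Finset G) : Fin0 (FF (fun _ => gw x) B M) := by
  induction B using Finset.induction_on with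
  | empty => simpa using h0
  | insert b B hb ih =>
    rw [Pool.Agent.Helper36.LL.FF_insert _ hb]
    exact Fin0.conv (h.FF_gw hx B) ih (by simp) (thg_ne_top_aux hx) b

theorem Fin0.dlt : Fin0 (Pool.Agent.Helper36.LL.dlt : G → ℝ≥0∞) := by
  constructor <;> simp [Pool.Agent.Helper36.LL.dlt]

theorem Fin0.VV {y : ℝ≥0∞} (hy : y < 1) (l : List G) : Fin0 (VV y l) := by
  induction l with
  | nil => exact Fin0.dlt
  | cons a l ih => exact Fin0.conv (PD.VV hy l) ih (by simp) (thg_ne_top_aux hy) a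

/-! ### The defect -/

theorem PD.kap_nonneg {M : G → ℝ≥0∞} (h : PD M) (h0 : Fin0 M) (x : G) : 0 ≤ kap M x := by
  unfold kap
  rw [sub_nonneg]
  refine div_le_one_of_le₀ (ENNReal.toReal_mono h0.2 (h.le_zero x)) ENNReal.toReal_nonneg

theorem PD.kap_neg {M : G → ℝ≥0∞} (h : PD M) (x : G) : kap M (-x) = kap M x := by
  unfold kap
  rw [h.neg]

theorem kap_zero {M : G → ℝ≥0∞} (h0 : Fin0 M) : kap M 0 = 0 := by
  unfold kap
  rw [div_self (ENNReal.toReal_ne_zero.2 h0), sub_self]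

theorem pd_add_aux (a b c : ℝ≥0∞) {l m : NNReal} (hlm : l * m = 1) :
    a * a + c * c + 2 * (1 + l) * (a * b) + 2 * (1 + m) * (b * c) ≤
      2 * (a * c) + (1 + l) * (a * a + b * b) + (1 + m) * (b * b + c * c) := by
  have hl : (1 + l : ℝ≥0∞) ≠ 0 := by simp
  have hm : (1 + m : ℝ≥0∞) ≠ 0 := by simp
  by_cases ha : a = ⊤
  · have : 2 * (a * c) + (1 + l) * (a * a + b * b) + (1 + m) * (b * b + c * c) = (⊤ : ℝ≥0∞) := by
      rw [ha, ENNReal.top_mul_top, top_add, ENNReal.mul_top hl, add_top, top_add]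
    rw [this]
    exact le_top
  by_cases hb : b = ⊤
  · have : 2 * (a * c) + (1 + l) * (a * a + b * b) + (1 + m) * (b * b + c * c) = (⊤ : ℝ≥0∞) := by
      rw [hb, ENNReal.top_mul_top, add_top, ENNReal.mul_top hl, add_top, top_add]
    rw [this]
    exact le_top
  by_cases hc : c = ⊤
  · have : 2 * (a * c) + (1 + l) * (a * a + b * b) + (1 + m) * (b * b + c * c) = (⊤ : ℝ≥0∞) := by
      rw [hc, ENNReal.top_mul_top, add_top (a := b * b), ENNReal.mul_top hm, add_top]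
    rw [this]
    exact le_top
  lift a to NNReal using ha
  lift b to NNReal using hb
  lift c to NNReal using hc
  norm_cast
  rw [← NNReal.coe_le_coe]
  push_cast
  have hlm' : (l : ℝ) * m = 1 := by exact_mod_cast hlm
  have h1 := mul_nonneg m.coe_nonneg
    (sq_nonneg ((l : ℝ) * ((a : ℝ) - b) - ((b : ℝ) - c)))
  have e1 : (m : ℝ) * ((l : ℝ) * ((a : ℝ) - b) - ((b : ℝ) - c)) ^ 2 =
      (l * m) * l * ((a : ℝ) - b) ^ 2 - 2 * (l * m) * (((a : ℝ) - b) * ((b : ℝ) - c)) +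
        m * ((b : ℝ) - c) ^ 2 := by ring
  rw [e1, hlm'] at h1
  nlinarith [h1]

theorem PD.add_ennreal {M : G → ℝ≥0∞} (h : PD M) (x y : G) {l m : NNReal} (hlm : l * m = 1) :
    2 * M 0 + 2 * (1 + l) * M x + 2 * (1 + m) * M y ≤
      2 * M (x + y) + (1 + l) * (2 * M 0) + (1 + m) * (2 * M 0) := by
  obtain ⟨C, F, hF⟩ := h
  have h1 := fun c : C => ENNReal.tsum_le_tsum fun g : G =>
    pd_add_aux (F c g) (F c (g + x)) (F c (g + (x + y))) hlm
  have h2 := ENNReal.tsum_le_tsum h1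
  simp only [ENNReal.tsum_add, ENNReal.tsum_mul_left] at h2
  have e3 : ∑' (c : C) (g : G), F c (g + x) * F c (g + (x + y)) = M y := by
    rw [hF]
    refine tsum_congr fun c => ?_
    rw [← (Equiv.addRight x).tsum_eq fun g => F c g * F c (g + y)]
    refine tsum_congr fun g => ?_
    simp only [Equiv.coe_addRight, add_assoc]
  rw [pd_sq x, pd_sq (x + y), pd_zero hF, e3, ← hF x, ← hF (x + y)] at h2
  calc 2 * M 0 + 2 * (1 + l) * M x + 2 * (1 + m) * M y =
        M 0 + M 0 + 2 * (1 + l) * M x + 2 * (1 + m) * M y := by rw [two_mul (M 0)]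
    _ ≤ _ := h2
    _ = _ := by rw [two_mul (M 0)]

theorem PD.kap_add_aux {M : G → ℝ≥0∞} (h : PD M) (h0 : Fin0 M) (x y : G) {l m : ℝ} (hl : 0 < l)
    (hm : 0 < m) (hlm : l * m = 1) :
    kap M (x + y) ≤ (1 + l) * kap M x + (1 + m) * kap M y := by
  lift l to NNReal using hl.le
  lift m to NNReal using hm.le
  have hlm' : l * m = 1 := by exact_mod_cast hlm
  have h1 := h.add_ennreal x y hlm'
  have hM : ∀ z, M z ≠ ⊤ := fun z => ne_top_of_le_ne_top h0.2 (h.le_zero z)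
  have hpos : 0 < (M 0).toReal := ENNReal.toReal_pos h0.1 h0.2
  have h2 : 2 * (M 0).toReal + 2 * (1 + l) * (M x).toReal + 2 * (1 + m) * (M y).toReal ≤
      2 * (M (x + y)).toReal + (1 + l) * (2 * (M 0).toReal) + (1 + m) * (2 * (M 0).toReal) := by
    lift M 0 to NNReal using hM 0 with M0
    lift M x to NNReal using hM x with Mx
    lift M y to NNReal using hM y with My
    lift M (x + y) to NNReal using hM (x + y) with Mxy
    exact_mod_cast h1
  unfold kap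
  rw [← sub_nonneg]
  have e : (1 + l) * (1 - (M x).toReal / (M 0).toReal) + (1 + m) * (1 - (M y).toReal / (M 0).toReal)
      - (1 - (M (x + y)).toReal / (M 0).toReal) =
      ((2 * (M (x + y)).toReal + (1 + l) * (2 * (M 0).toReal) + (1 + m) * (2 * (M 0).toReal)) -
        (2 * (M 0).toReal + 2 * (1 + l) * (M x).toReal + 2 * (1 + m) * (M y).toReal)) /
        (2 * (M 0).toReal) := by
    field_simp
    ring
  rw [e]
  exact div_nonneg (sub_nonneg.2 h2) (by positivity)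

theorem PD.kap_add {M : G → ℝ≥0∞} (h : PD M) (h0 : Fin0 M) {x y : G} {s t : ℝ} (hs : 0 ≤ s)
    (ht : 0 ≤ t) (hx : kap M x ≤ s ^ 2) (hy : kap M y ≤ t ^ 2) :
    kap M (x + y) ≤ (s + t) ^ 2 := by
  -- positive values first
  have key : ∀ s t : ℝ, 0 < s → 0 < t → kap M x ≤ s ^ 2 → kap M y ≤ t ^ 2 →
      kap M (x + y) ≤ (s + t) ^ 2 := by
    intro s t hs ht hx hy
    have h1 := h.kap_add_aux h0 x y (l := t / s) (m := s / t) (by positivity) (by positivity)
      (by field_simp)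
    have h2 : (1 + t / s) * kap M x ≤ (1 + t / s) * s ^ 2 :=
      mul_le_mul_of_nonneg_left hx (by positivity)
    have h3 : (1 + s / t) * kap M y ≤ (1 + s / t) * t ^ 2 :=
      mul_le_mul_of_nonneg_left hy (by positivity)
    have h4 : (1 + t / s) * s ^ 2 + (1 + s / t) * t ^ 2 = (s + t) ^ 2 := by
      field_simp
      ring
    linarith
  by_contra hcon
  push Not at hcon
  set K := kap M (x + y)
  have hK : s + t < √K := Real.lt_sqrt_of_sq_lt hcon
  set ε := (√K - (s + t)) / 4 with hε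
  have hε0 : 0 < ε := by rw [hε]; linarith
  have h1 := key (s + ε) (t + ε) (by linarith) (by linarith)
    (hx.trans (by nlinarith)) (hy.trans (by nlinarith))
  have h2 : (s + ε + (t + ε)) < √K := by rw [hε]; linarith
  have h3 : (s + ε + (t + ε)) ^ 2 < K := by
    have h4 : (s + ε + (t + ε)) ^ 2 < √K ^ 2 := by
      apply pow_lt_pow_left₀ h2 (by linarith) (by norm_num)
    rwa [Real.sq_sqrt (h.kap_nonneg h0 _)] at h4
  exact absurd h1 (not_le.2 h3)

theorem PD.kap_sub {M : G → ℝ≥0∞} (h : PD M) (h0 : Fin0 M) {x y : G} {s t : ℝ} (hs : 0 ≤ s)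
    (ht : 0 ≤ t) (hx : kap M x ≤ s ^ 2) (hy : kap M y ≤ t ^ 2) :
    kap M (x - y) ≤ (s + t) ^ 2 := by
  rw [sub_eq_add_neg]
  exact h.kap_add h0 hs ht hx (by rwa [h.kap_neg])

theorem PD.kap_nsmul {M : G → ℝ≥0∞} (h : PD M) (h0 : Fin0 M) (n : ℕ) (x : G) :
    kap M (n • x) ≤ (n : ℝ) ^ 2 * kap M x := by
  have hx := h.kap_nonneg h0 x
  have hsq : √(kap M x) ^ 2 = kap M x := Real.sq_sqrt hx
  have h1 : kap M (n • x) ≤ (n * √(kap M x)) ^ 2 := by
    induction n with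
    | zero => simp [kap_zero h0]
    | succ n ih =>
      rw [succ_nsmul]
      have h2 := h.kap_add h0 (by positivity) (Real.sqrt_nonneg _) ih hsq.ge
      refine h2.trans (le_of_eq ?_)
      push_cast
      ring
  rwa [mul_pow, hsq] at h1

theorem PD.kap_zsmul {M : G → ℝ≥0∞} (h : PD M) (h0 : Fin0 M) (n : ℤ) (x : G) :
    kap M (n • x) ≤ (n : ℝ) ^ 2 * kap M x := by
  obtain ⟨m, rfl | rfl⟩ := n.eq_nat_or_neg
  · rw [natCast_zsmul]
    exact_mod_cast h.kap_nsmul h0 m x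
  · rw [neg_smul, h.kap_neg, natCast_zsmul]
    push_cast
    rw [neg_sq]
    exact h.kap_nsmul h0 m x

theorem PD.kap_sum {M : G → ℝ≥0∞} (h : PD M) (h0 : Fin0 M) (A : Finset G) {s : ℝ}
    (hs : 0 ≤ s) (hA : ∀ x ∈ A, kap M x ≤ s) : kap M (∑ x ∈ A, x) ≤ (A.card * √s) ^ 2 := by
  classical
  induction A using Finset.induction_on with
  | empty => simp [kap_zero h0]
  | insert a A ha ih =>
    rw [Finset.sum_insert ha, Finset.card_insert_of_notMem ha]
    have h1 : kap M a ≤ √s ^ 2 := by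
      rw [Real.sq_sqrt hs]
      exact hA a (Finset.mem_insert_self _ _)
    have h2 := h.kap_add h0 (Real.sqrt_nonneg _) (by positivity) h1
      (ih fun x hx => hA x (Finset.mem_insert_of_mem hx))
    refine h2.trans (le_of_eq ?_)
    push_cast
    ring

theorem PD.kap_sg {M : G → ℝ≥0∞} (h : PD M) (h0 : Fin0 M) (A B : Finset G) {s : ℝ}
    (hs : 0 ≤ s) (hA : ∀ x ∈ A, kap M x ≤ s) (hB : ∀ x ∈ B, kap M x ≤ s) :
    kap M (sg A B) ≤ ((A.card : ℝ) + B.card) ^ 2 * s := by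
  have h1 := h.kap_sub h0 (by positivity) (by positivity) (h.kap_sum h0 A hs hA)
    (h.kap_sum h0 B hs hB)
  unfold sg
  refine h1.trans (le_of_eq ?_)
  rw [← add_mul, mul_pow, Real.sq_sqrt hs]

end Pool.Agent.SP
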