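import Pool.Agent.SP.Defs
import Pool.Agent.SP.Pd
import Pool.Agent.Helper36.LL.Main

/-!
Convexity in the logarithm of the weight (Hölder) and domination.
-/

set_option autoImplicit false

namespace Pool.Agent.SP.CX

open Finset
open scoped ENNReal
open Pool.Agent.Helper36.LL (conv dlt FF gw tern FF_insert FF_empty FF_conv FF_union conv_tern)

/-! ### Hölder for finite sums -/

theorem holder_fin {ι : Type*} (s : Finset ι) (a b c : ι → ℝ≥0∞) (t : ℕ)
    (h : ∀ i ∈ s, a i ^ (t + 1) ≤ b i ^ t * c i) :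
    (∑ i ∈ s, a i) ^ (t + 1) ≤ (∑ i ∈ s, b i) ^ t * ∑ i ∈ s, c i := by
  rcases Nat.eq_zero_or_pos t with h0 | h0
  · subst h0
    simp only [zero_add, pow_one, pow_zero, one_mul] at h ⊢
    exact Finset.sum_le_sum h
  · have ht : (0 : ℝ) < t := by exact_mod_cast h0
    have ht1 : (0 : ℝ) < (t : ℝ) + 1 := by positivity
    have hpq : Real.HolderConjugate (((t : ℝ) + 1) / t) ((t : ℝ) + 1) := by
      rw [Real.holderConjugate_iff]
      constructor
      · rw [lt_div_iff₀ ht]; linarith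
      · field_simp
    have ha : ∀ i ∈ s, a i ≤ b i ^ ((t : ℝ) / (t + 1)) * c i ^ (1 / ((t : ℝ) + 1)) := by
      intro i hi
      have h1 := h i hi
      have h2 : (a i ^ (t + 1)) ^ (1 / ((t : ℝ) + 1)) ≤
          (b i ^ t * c i) ^ (1 / ((t : ℝ) + 1)) := ENNReal.rpow_le_rpow h1 (by positivity)
      rw [ENNReal.mul_rpow_of_nonneg _ _ (by positivity), ← ENNReal.rpow_natCast,
        ← ENNReal.rpow_natCast, ← ENNReal.rpow_mul, ← ENNReal.rpow_mul] at h2
      have e1 : ((t + 1 : ℕ) : ℝ) * (1 / ((t : ℝ) + 1)) = 1 := by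
        push_cast; field_simp
      have e2 : (t : ℝ) * (1 / ((t : ℝ) + 1)) = (t : ℝ) / (t + 1) := by ring
      rw [e1, e2, ENNReal.rpow_one] at h2
      exact h2
    have hs : ∑ i ∈ s, a i ≤ (∑ i ∈ s, b i) ^ ((t : ℝ) / (t + 1)) *
        (∑ i ∈ s, c i) ^ (1 / ((t : ℝ) + 1)) := by
      refine (Finset.sum_le_sum ha).trans ?_
      have h3 := ENNReal.inner_le_Lp_mul_Lq s (fun i => b i ^ ((t : ℝ) / (t + 1)))
        (fun i => c i ^ (1 / ((t : ℝ) + 1))) hpq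
      refine h3.trans (le_of_eq ?_)
      have e3 : ∀ i, (b i ^ ((t : ℝ) / (t + 1))) ^ (((t : ℝ) + 1) / t) = b i := by
        intro i
        rw [← ENNReal.rpow_mul]
        have : (t : ℝ) / (t + 1) * (((t : ℝ) + 1) / t) = 1 := by field_simp
        rw [this, ENNReal.rpow_one]
      have e4 : ∀ i, (c i ^ (1 / ((t : ℝ) + 1))) ^ ((t : ℝ) + 1) = c i := by
        intro i
        rw [← ENNReal.rpow_mul]
        have : 1 / ((t : ℝ) + 1) * ((t : ℝ) + 1) = 1 := by field_simp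
        rw [this, ENNReal.rpow_one]
      simp only [e3, e4]
      congr 2
      field_simp
    calc (∑ i ∈ s, a i) ^ (t + 1) ≤ ((∑ i ∈ s, b i) ^ ((t : ℝ) / (t + 1)) *
        (∑ i ∈ s, c i) ^ (1 / ((t : ℝ) + 1))) ^ (t + 1) := by gcongr
      _ = _ := by
        rw [mul_pow, ← ENNReal.rpow_natCast, ← ENNReal.rpow_natCast, ← ENNReal.rpow_natCast,
          ← ENNReal.rpow_mul, ← ENNReal.rpow_mul]
        have e1 : (t : ℝ) / (t + 1) * ((t + 1 : ℕ) : ℝ) = t := by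
          push_cast; field_simp
        have e2 : 1 / ((t : ℝ) + 1) * ((t + 1 : ℕ) : ℝ) = 1 := by
          push_cast; field_simp
        rw [e1, e2, ENNReal.rpow_one]

variable {G : Type*} [AddCommGroup G]

theorem conv_tern_sum (q : ℝ≥0∞) (b : G) (p : G → ℝ≥0∞) (v : G) :
    conv (tern q) b p v = ∑ j ∈ ({0, 1, -1} : Finset ℤ), tern q j * p (v - j • b) := by
  unfold conv
  refine tsum_eq_sum fun j hj => ?_
  simp only [Finset.mem_insert, Finset.mem_singleton, not_or] at hj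
  simp [tern, hj.1, hj.2.1, hj.2.2]

theorem tern_holder {w w' w'' : ℝ≥0∞} {t : ℕ} (h : w ^ (t + 1) ≤ w' ^ t * w'') (j : ℤ) :
    tern w j ^ (t + 1) ≤ tern w' j ^ t * tern w'' j := by
  unfold tern
  split_ifs
  · simp
  · exact h
  · simp

theorem conv_holder {w w' w'' : ℝ≥0∞} {t : ℕ} (h : w ^ (t + 1) ≤ w' ^ t * w'') (b : G)
    {p p' p'' : G → ℝ≥0∞} (hp : ∀ g, p g ^ (t + 1) ≤ p' g ^ t * p'' g) (g : G) :
    conv (tern w) b p g ^ (t + 1) ≤ conv (tern w') b p' g ^ t * conv (tern w'') b p'' g := by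
  rw [conv_tern_sum, conv_tern_sum, conv_tern_sum]
  refine holder_fin _ _ _ _ t fun j _ => ?_
  rw [mul_pow, mul_pow]
  calc tern w j ^ (t + 1) * p (g - j • b) ^ (t + 1) ≤
      (tern w' j ^ t * tern w'' j) * (p' (g - j • b) ^ t * p'' (g - j • b)) :=
        mul_le_mul' (tern_holder h j) (hp _)
    _ = _ := by ring

variable [DecidableEq G]

theorem FF_holder {w w' w'' : ℝ≥0∞} {t : ℕ} (h : w ^ (t + 1) ≤ w' ^ t * w'') (B : Finset G)
    {p p' p'' : G → ℝ≥0∞} (hp : ∀ g, p g ^ (t + 1) ≤ p' g ^ t * p'' g) : ∀ g : G,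
    FF (fun _ => tern w) B p g ^ (t + 1) ≤
      FF (fun _ => tern w') B p' g ^ t * FF (fun _ => tern w'') B p'' g := by
  induction B using Finset.induction_on with
  | empty => simpa using hp
  | insert c B hc ih =>
    intro g
    rw [FF_insert _ hc, FF_insert _ hc, FF_insert _ hc]
    exact conv_holder h c ih g

/-! ### total mass -/

theorem conv_le {w : ℤ → ℝ≥0∞} {b : G} {p : G → ℝ≥0∞} {C : ℝ≥0∞} (h : ∀ g, p g ≤ C) (g : G) :
    conv w b p g ≤ (∑' j, w j) * C := by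
  unfold conv
  rw [← ENNReal.tsum_mul_right]
  exact ENNReal.tsum_le_tsum fun j => mul_le_mul' le_rfl (h _)

theorem FF_le {w : ℤ → ℝ≥0∞} (B : Finset G) {p : G → ℝ≥0∞} {C : ℝ≥0∞} (h : ∀ g, p g ≤ C) :
    ∀ g : G, FF (fun _ => w) B p g ≤ (∑' j, w j) ^ B.card * C := by
  induction B using Finset.induction_on with
  | empty => simpa using h
  | insert c B hc ih =>
    intro g
    rw [FF_insert _ hc, Finset.card_insert_of_notMem hc, pow_succ', mul_assoc]
    exact conv_le ih g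

theorem tsum_tern (q : ℝ≥0∞) : ∑' j, tern q j = 1 + 2 * q := by
  rw [tsum_eq_sum (s := {0, 1, -1})]
  · rw [Finset.sum_insert (by decide), Finset.sum_pair (by decide)]
    simp [tern, two_mul]
  · intro j hj
    simp only [Finset.mem_insert, Finset.mem_singleton, not_or] at hj
    simp [tern, hj.1, hj.2.1, hj.2.2]

theorem FF_comm (w w' : G → ℤ → ℝ≥0∞) (A B : Finset G) (p : G → ℝ≥0∞) :
    FF w A (FF w' B p) = FF w' B (FF w A p) := by
  induction B using Finset.induction_on with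
  | empty => simp
  | insert c B hc ih =>
    rw [FF_insert w' hc, FF_insert w' hc, FF_conv, ih]

theorem FF_foldr (w : G → ℤ → ℝ≥0∞) (A : Finset G) (y : ℝ≥0∞) (l : List G) (p : G → ℝ≥0∞) :
    FF w A (l.foldr (fun a M => conv (gw y) a M) p) =
      l.foldr (fun a M => conv (gw y) a M) (FF w A p) := by
  induction l with
  | nil => rfl
  | cons a l ih => rw [List.foldr_cons, List.foldr_cons, FF_conv, ih]

theorem foldr_le {y C : ℝ≥0∞} {p : G → ℝ≥0∞} (h : ∀ g, p g ≤ C) (l : List G) : ∀ g : G,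
    l.foldr (fun a M => conv (gw y) a M) p g ≤ thg y ^ l.length * C := by
  induction l with
  | nil => simpa using h
  | cons a l ih =>
    intro g
    rw [List.foldr_cons, List.length_cons, pow_succ', mul_assoc]
    exact conv_le ih g

theorem thg_top {y : ℝ≥0∞} (hy : y < 1) : thg y ≠ ⊤ := by
  unfold thg
  refine ne_top_of_le_ne_top ?_ (Pool.Agent.Helper36.LL.tsum_gw_le hy.le)
  refine ENNReal.mul_ne_top (by norm_num) ?_
  rw [ENNReal.inv_ne_top]
  exact (tsub_pos_of_lt hy).ne'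

theorem xs_lt' (k : ℕ) : xs k < 1 := by
  unfold xs
  rw [ENNReal.ofReal_lt_one]
  have : (0 : ℝ) < 1 / 2 ^ (20 * k) := by positivity
  linarith

theorem yb_lt' {k : ℕ} (hk : 1 ≤ k) : yb k < 1 := by
  unfold yb
  rw [ENNReal.ofReal_lt_one]
  have hk' : (0 : ℝ) < k := by exact_mod_cast hk
  have : (0 : ℝ) < 1 / (100 * (k : ℝ)) := by positivity
  have h2 := Real.exp_lt_exp.2 (show -(1 / (100 * (k : ℝ))) < 0 by linarith)
  rwa [Real.exp_zero] at h2

end Pool.Agent.SP.CX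

namespace Pool.Agent.SP

open Finset
open scoped ENNReal
open Pool.Agent.Helper36.LL (conv dlt FF gw tern FF_union)

variable {G : Type*} [AddCommGroup G] [DecidableEq G]

theorem holder_scale {E : G → ℝ≥0∞} (h : PD E) (h0 : Fin0 E) (P Q : Finset G)
    (hPQ : Disjoint P Q) (t : ℕ) :
    (FF (fun _ => tern 64⁻¹) P (FF (fun _ => tern 8⁻¹) Q E) 0).toReal ^ (t + 1) ≤
      (FF (fun _ => tern 4⁻¹) (P ∪ Q) E 0).toReal ^ t *
        ((E 0).toReal * Real.exp ((P ∪ Q).card / 2 ^ (t + 2))) := by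
  set w : ℝ≥0∞ := 8⁻¹ * 2⁻¹ ^ t with hw
  have hQ : (8⁻¹ : ℝ≥0∞) ^ (t + 1) ≤ 4⁻¹ ^ t * w := by
    rw [hw, pow_succ]
    have e : (8⁻¹ : ℝ≥0∞) = 4⁻¹ * 2⁻¹ := by
      rw [← ENNReal.mul_inv (by norm_num) (by norm_num)]; norm_num
    calc (8⁻¹ : ℝ≥0∞) ^ t * 8⁻¹ = (4⁻¹ * 2⁻¹) ^ t * 8⁻¹ := by rw [← e]
      _ = 4⁻¹ ^ t * (8⁻¹ * 2⁻¹ ^ t) := by rw [mul_pow]; ring
      _ ≤ _ := le_rfl
  have hP : (64⁻¹ : ℝ≥0∞) ^ (t + 1) ≤ 4⁻¹ ^ t * w := by
    refine le_trans ?_ hQ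
    gcongr
    norm_num
  have key := CX.FF_holder hP P (CX.FF_holder hQ Q (p := E) (p' := E) (p'' := E)
    (fun g => by rw [pow_succ])) 0
  rw [← FF_union _ hPQ, ← FF_union _ hPQ] at key
  have hE : ∀ g, E g ≤ E 0 := h.le_zero
  have m1 := CX.FF_le (w := tern w) (P ∪ Q) hE 0
  have m2 := CX.FF_le (w := tern (4⁻¹)) (P ∪ Q) hE 0
  rw [CX.tsum_tern] at m1 m2
  have hwr : 1 + 2 * w ≤ ENNReal.ofReal (Real.exp (1 / 2 ^ (t + 2))) := by
    have e1 : 1 + 2 * w = ENNReal.ofReal (1 / 2 ^ (t + 2) + 1) := by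
      rw [ENNReal.ofReal_add (by positivity) (by norm_num), ENNReal.ofReal_one, add_comm, hw]
      congr 1
      rw [one_div, ← inv_pow, ENNReal.ofReal_pow (by norm_num),
        ENNReal.ofReal_inv_of_pos (by norm_num), ENNReal.ofReal_ofNat, pow_add]
      have e : (8⁻¹ : ℝ≥0∞) = 2⁻¹ * 2⁻¹ ^ 2 := by
        rw [← ENNReal.inv_pow, ← ENNReal.mul_inv (by norm_num) (by norm_num)]; norm_num
      rw [e]
      calc (2 : ℝ≥0∞) * (2⁻¹ * 2⁻¹ ^ 2 * 2⁻¹ ^ t) = (2 * 2⁻¹) * (2⁻¹ ^ t * 2⁻¹ ^ 2) := by ring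
        _ = _ := by rw [ENNReal.mul_inv_cancel (by norm_num) (by norm_num), one_mul]
    rw [e1]
    exact ENNReal.ofReal_le_ofReal (Real.add_one_le_exp _)
  have m1' : FF (fun _ => tern w) (P ∪ Q) E 0 ≤
      E 0 * ENNReal.ofReal (Real.exp ((P ∪ Q).card / 2 ^ (t + 2))) := by
    refine m1.trans ?_
    rw [mul_comm]
    gcongr
    calc (1 + 2 * w) ^ (P ∪ Q).card ≤
        (ENNReal.ofReal (Real.exp (1 / 2 ^ (t + 2)))) ^ (P ∪ Q).card := by gcongr
      _ = _ := by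
        rw [← ENNReal.ofReal_pow (Real.exp_pos _).le, ← Real.exp_nat_mul]
        congr 2
        ring
  have m2' : FF (fun _ => tern 4⁻¹) (P ∪ Q) E 0 ≠ ⊤ := by
    refine ne_top_of_le_ne_top ?_ m2
    refine ENNReal.mul_ne_top (ENNReal.pow_ne_top ?_) h0.2
    exact ENNReal.add_ne_top.2 ⟨by norm_num, ENNReal.mul_ne_top (by norm_num) (by norm_num)⟩
  have key2 := key.trans (mul_le_mul' le_rfl m1')
  have key3 := ENNReal.toReal_mono (ENNReal.mul_ne_top (ENNReal.pow_ne_top m2')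
    (ENNReal.mul_ne_top h0.2 ENNReal.ofReal_ne_top)) key2
  rw [ENNReal.toReal_pow, ENNReal.toReal_mul, ENNReal.toReal_pow, ENNReal.toReal_mul,
    ENNReal.toReal_ofReal (Real.exp_pos _).le] at key3
  exact key3

theorem press_dom {k : ℕ} (hk : 1 ≤ k) {V : Finset G} (hV : Press k V) (S : Finset G)
    (l : List G) {Y : Finset G} (hY : Y ⊆ V) :
    (FF (fun _ => tern 4⁻¹) Y (FF (fun _ => gw (xs k)) S (VV (yb k) l)) 0).toReal ≤
      Real.exp (Y.card / 2 ^ (60 * k)) * (thg (xs k)).toReal ^ S.card *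
        (thg (yb k)).toReal ^ l.length := by
  have hpd : PD (FF (fun _ => tern 4⁻¹) Y (dlt : G → ℝ≥0∞)) := by
    refine PD.FF_tern PD.dlt ?_ Y
    rw [ENNReal.inv_le_inv]
    norm_num
  have h1 : ∀ g, FF (fun _ => tern 4⁻¹) Y (dlt : G → ℝ≥0∞) g ≤
      ENNReal.ofReal (Real.exp (Y.card / 2 ^ (60 * k))) :=
    fun g => (hpd.le_zero g).trans (hV Y hY)
  have h2 := CX.foldr_le (y := yb k) h1 l
  have h3 := CX.FF_le (w := gw (xs k)) S h2 0
  have e : FF (fun _ => tern 4⁻¹) Y (FF (fun _ => gw (xs k)) S (VV (yb k) l)) =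
      FF (fun _ => gw (xs k)) S (l.foldr (fun a M => conv (gw (yb k)) a M)
        (FF (fun _ => tern 4⁻¹) Y dlt)) := by
    rw [CX.FF_comm]
    unfold VV
    rw [CX.FF_foldr]
  rw [e]
  have hx : (thg (xs k)) ≠ ⊤ := CX.thg_top (CX.xs_lt' k)
  have hy : (thg (yb k)) ≠ ⊤ := CX.thg_top (CX.yb_lt' hk)
  have h4 := ENNReal.toReal_mono (ENNReal.mul_ne_top (ENNReal.pow_ne_top hx)
    (ENNReal.mul_ne_top (ENNReal.pow_ne_top hy) ENNReal.ofReal_ne_top)) h3
  refine h4.trans (le_of_eq ?_)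
  rw [ENNReal.toReal_mul, ENNReal.toReal_mul, ENNReal.toReal_pow, ENNReal.toReal_pow,
    ENNReal.toReal_ofReal (Real.exp_pos _).le]
  ring

end Pool.Agent.SP
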