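import Pool.Agent.SP.Defs
import Pool.Agent.SP.Pd

/-!
One Gaussian digit.
-/

set_option autoImplicit false

namespace Pool.Agent.SP

open Finset
open scoped ENNReal
open Pool.Agent.Helper36.LL (conv dlt FF gw tern gw_neg)

variable {G : Type*} [AddCommGroup G]

namespace Vt

/-- Real Gaussian weights. -/
noncomputable def gr (x : ℝ) (j : ℤ) : ℝ := x ^ (j.natAbs ^ 2)

theorem gr_nonneg {x : ℝ} (hx : 0 ≤ x) (j : ℤ) : 0 ≤ gr x j := pow_nonneg hx _

theorem gw_ofReal {x : ℝ} (hx : 0 ≤ x) (j : ℤ) :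
    gw (ENNReal.ofReal x) j = ENNReal.ofReal (gr x j) := by
  unfold gw gr
  rw [ENNReal.ofReal_pow hx]

theorem gw_toReal {x : ℝ} (hx : 0 ≤ x) (j : ℤ) :
    (gw (ENNReal.ofReal x) j).toReal = gr x j := by
  rw [gw_ofReal hx, ENNReal.toReal_ofReal (gr_nonneg hx j)]

theorem gw_ne_top {x : ℝ} (hx : 0 ≤ x) (j : ℤ) : gw (ENNReal.ofReal x) j ≠ ⊤ := by
  rw [gw_ofReal hx]
  exact ENNReal.ofReal_ne_top

theorem gr_neg (x : ℝ) (j : ℤ) : gr x (-j) = gr x j := by simp [gr]

theorem pow_sq_le {x : ℝ} (hx : 0 ≤ x) (hx1 : x ≤ 1) (n : ℕ) : x ^ (n ^ 2) ≤ x ^ n := by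
  apply pow_le_pow_of_le_one hx hx1
  nlinarith [Nat.zero_le n, Nat.le_self_pow (two_ne_zero) n]

/-- Sums over the integers of functions dominated by a geometric sequence. -/
theorem tsum_le {y : ℝ≥0∞} {f : ℤ → ℝ≥0∞} (h : ∀ j, f j ≤ y ^ j.natAbs) :
    ∑' j, f j ≤ 2 * (1 - y)⁻¹ := by
  have h1 : HasSum f (∑' n : ℕ, f n + ∑' n : ℕ, f (-(n + 1 : ℤ))) := by
    apply HasSum.of_nat_of_neg_add_one
    · exact ENNReal.summable.hasSum
    · exact ENNReal.summable.hasSum
  rw [h1.tsum_eq, two_mul]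
  have h2 : ∑' n : ℕ, y ^ n = (1 - y)⁻¹ := ENNReal.tsum_geometric y
  apply add_le_add
  · rw [← h2]
    refine ENNReal.tsum_le_tsum fun n => ?_
    simpa using h n
  · rw [← h2]
    by_cases hy : y ≤ 1
    · refine ENNReal.tsum_le_tsum fun n => ?_
      have h3 := h (-(n + 1 : ℤ))
      have h4 : (-(n + 1 : ℤ)).natAbs = n + 1 := by omega
      rw [h4] at h3
      refine h3.trans ?_
      rw [pow_succ]
      exact mul_le_of_le_one_right' hy
    · push Not at hy
      have : (1 - y)⁻¹ = ⊤ := by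
        rw [tsub_eq_zero_of_le hy.le, ENNReal.inv_zero]
      rw [h2, this]
      exact le_top

end Vt

open Vt

theorem one_le_thg (y : ℝ≥0∞) : 1 ≤ thg y := by
  unfold thg
  have := ENNReal.le_tsum (f := fun j : ℤ => gw y j) 0
  simpa using this

theorem thg_le {y : ℝ≥0∞} (hy : y ≤ 1) : thg y ≤ 2 * (1 - y)⁻¹ := by
  apply tsum_le
  intro j
  unfold gw
  apply pow_le_pow_right_of_le_one' hy
  exact Nat.le_self_pow (two_ne_zero) _

theorem thg_ne_top {y : ℝ≥0∞} (hy : y < 1) : thg y ≠ ⊤ := by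
  refine ne_top_of_le_ne_top ?_ (thg_le hy.le)
  apply ENNReal.mul_ne_top (by norm_num)
  rw [ENNReal.inv_ne_top]
  exact (tsub_pos_of_lt hy).ne'

theorem xs_lt (k : ℕ) : xs k < 1 := by
  unfold xs
  rw [ENNReal.ofReal_lt_one]
  have : (0 : ℝ) < 1 / 2 ^ (20 * k) := by positivity
  linarith

theorem yb_lt {k : ℕ} (hk : 1 ≤ k) : yb k < 1 := by
  unfold yb
  rw [ENNReal.ofReal_lt_one, Real.exp_lt_one_iff]
  have h0 : (0 : ℝ) < k := by exact_mod_cast hk
  have : (0 : ℝ) < 1 / (100 * (k : ℝ)) := by positivity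
  linarith

theorem thg_xs (k : ℕ) : thg (xs k) ≤ 2 ^ (20 * k + 1) := by
  refine (thg_le (xs_lt k).le).trans ?_
  unfold xs
  have h1 : (0 : ℝ) < 1 / 2 ^ (20 * k) := by positivity
  have h2 : (1 : ℝ≥0∞) - ENNReal.ofReal (1 - 1 / 2 ^ (20 * k)) =
      ENNReal.ofReal (1 / 2 ^ (20 * k)) := by
    rw [← ENNReal.ofReal_one, ← ENNReal.ofReal_sub]
    · congr 1
      ring
    · have : (1 : ℝ) / 2 ^ (20 * k) ≤ 1 := by
        rw [div_le_one (by positivity)]
        exact one_le_pow₀ (by norm_num)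
      linarith
  rw [h2, ← ENNReal.ofReal_inv_of_pos h1, one_div, inv_inv, ENNReal.ofReal_pow (by norm_num),
    pow_succ, mul_comm]
  simp

theorem log_thg_xs {k : ℕ} (hk : 1 ≤ k) : Real.log (thg (xs k)).toReal ≤ 15 * k := by
  have h1 : (thg (xs k)).toReal ≤ 2 ^ (20 * k + 1) := by
    have := ENNReal.toReal_mono (by finiteness) (thg_xs k)
    simpa using this
  have h0 : 0 < (thg (xs k)).toReal := by
    apply ENNReal.toReal_pos
    · exact (lt_of_lt_of_le zero_lt_one (one_le_thg _)).ne'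
    · exact thg_ne_top (xs_lt k)
  refine (Real.log_le_log h0 h1).trans ?_
  rw [Real.log_pow]
  have h2 := Real.log_two_lt_d9
  have h3 : (1 : ℝ) ≤ k := by exact_mod_cast hk
  push_cast
  nlinarith

namespace Vt

/-! ### reduction to real series -/

theorem summable_gr {x : ℝ} (hx : 0 ≤ x) (hx1 : x < 1) : Summable (gr x) := by
  have h := thg_ne_top (y := ENNReal.ofReal x) (by rwa [ENNReal.ofReal_lt_one])
  have h1 := ENNReal.summable_toReal h
  refine h1.congr fun j => ?_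
  exact gw_toReal hx j

theorem thg_toReal {x : ℝ} (hx : 0 ≤ x) : (thg (ENNReal.ofReal x)).toReal = ∑' j, gr x j := by
  unfold thg
  rw [ENNReal.tsum_toReal_eq (fun j => gw_ne_top hx j)]
  exact tsum_congr fun j => gw_toReal hx j

theorem M_ne_top {M : G → ℝ≥0∞} (h : PD M) (h0 : Fin0 M) (g : G) : M g ≠ ⊤ :=
  ne_top_of_le_ne_top h0.2 (h.le_zero g)

theorem M_toReal {M : G → ℝ≥0∞} (h0 : Fin0 M) (g : G) :
    (M g).toReal = (M 0).toReal * (1 - kap M g) := by
  have h1 : (M 0).toReal ≠ 0 := (ENNReal.toReal_pos h0.1 h0.2).ne'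
  unfold kap
  field_simp
  ring

theorem kap_le_one (M : G → ℝ≥0∞) (g : G) : kap M g ≤ 1 := by
  unfold kap
  have : 0 ≤ (M g).toReal / (M 0).toReal := by positivity
  linarith

theorem conv_zero {M : G → ℝ≥0∞} (h : PD M) (w : ℤ → ℝ≥0∞) (a : G) :
    conv w a M 0 = ∑' j, w j * M (j • a) := by
  unfold conv
  refine tsum_congr fun j => ?_
  rw [zero_sub, h.neg]

theorem conv_toReal {M : G → ℝ≥0∞} (h : PD M) (h0 : Fin0 M) {x : ℝ} (hx : 0 ≤ x) (a : G) :
    (conv (gw (ENNReal.ofReal x)) a M 0).toReal =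
      ∑' j, gr x j * ((M 0).toReal * (1 - kap M (j • a))) := by
  rw [conv_zero h, ENNReal.tsum_toReal_eq]
  · refine tsum_congr fun j => ?_
    rw [ENNReal.toReal_mul, gw_toReal hx, M_toReal h0]
  · intro j
    exact ENNReal.mul_ne_top (gw_ne_top hx j) (M_ne_top h h0 _)

theorem summable_kap {M : G → ℝ≥0∞} (h : PD M) (h0 : Fin0 M) {x : ℝ} (hx : 0 ≤ x) (hx1 : x < 1)
    (a : G) : Summable fun j : ℤ => gr x j * kap M (j • a) := by
  refine Summable.of_nonneg_of_le (fun j => mul_nonneg (gr_nonneg hx j) (h.kap_nonneg h0 _))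
    (fun j => ?_) (summable_gr hx hx1)
  exact mul_le_of_le_one_right (gr_nonneg hx j) (kap_le_one M _)

theorem conv_eq {M : G → ℝ≥0∞} (h : PD M) (h0 : Fin0 M) {x : ℝ} (hx : 0 ≤ x) (hx1 : x < 1)
    (a : G) :
    (conv (gw (ENNReal.ofReal x)) a M 0).toReal =
      (M 0).toReal * ((thg (ENNReal.ofReal x)).toReal - ∑' j : ℤ, gr x j * kap M (j • a)) := by
  rw [conv_toReal h h0 hx, thg_toReal hx, ← (summable_gr hx hx1).tsum_sub
    (summable_kap h h0 hx hx1 a), ← tsum_mul_left]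
  refine tsum_congr fun j => ?_
  ring

/-! ### the second moment of Gaussian weights -/

theorem gr_exp (b : ℝ) (j : ℤ) : gr (Real.exp (-b)) j = Real.exp (-(b * (j : ℝ) ^ 2)) := by
  unfold gr
  rw [← Real.exp_nat_mul]
  congr 1
  have : ((j.natAbs ^ 2 : ℕ) : ℝ) = (j : ℝ) ^ 2 := by
    rw [Nat.cast_pow, Nat.cast_natAbs, Int.cast_abs, sq_abs]
  rw [this]
  ring

theorem sinh_sq (t : ℝ) : t * t ≤ t * Real.sinh t := by
  rcases le_total 0 t with h | h
  · exact mul_le_mul_of_nonneg_left (Real.self_le_sinh_iff.2 h) h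
  · exact mul_le_mul_of_nonpos_left (Real.sinh_le_self_iff.2 h) h

/-- Pointwise inequality for the second difference. -/
theorem diff_le {b : ℝ} (hb : 0 < b) (j : ℤ) :
    4 * b * Real.exp (-b) * ((j : ℝ) ^ 2 * gr (Real.exp (-b)) j) ≤
      (j : ℝ) * gr (Real.exp (-b)) (j - 1) - (j : ℝ) * gr (Real.exp (-b)) (j + 1) := by
  rw [gr_exp, gr_exp, gr_exp]
  push_cast
  have e1 : Real.exp (-(b * ((j : ℝ) - 1) ^ 2)) =
      Real.exp (-b) * Real.exp (-(b * (j : ℝ) ^ 2)) * Real.exp (2 * b * j) := by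
    rw [← Real.exp_add, ← Real.exp_add]
    congr 1
    ring
  have e2 : Real.exp (-(b * ((j : ℝ) + 1) ^ 2)) =
      Real.exp (-b) * Real.exp (-(b * (j : ℝ) ^ 2)) * Real.exp (-(2 * b * j)) := by
    rw [← Real.exp_add, ← Real.exp_add]
    congr 1
    ring
  rw [e1, e2]
  have h1 := sinh_sq (2 * b * j)
  rw [Real.sinh_eq] at h1
  have h2 : 0 < Real.exp (-b) * Real.exp (-(b * (j : ℝ) ^ 2)) := by positivity
  have h3 := mul_le_mul_of_nonneg_left h1 h2.le
  have h4 : b * (4 * b * Real.exp (-b) * ((j : ℝ) ^ 2 * Real.exp (-(b * (j : ℝ) ^ 2)))) ≤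
      b * ((j : ℝ) * (Real.exp (-b) * Real.exp (-(b * (j : ℝ) ^ 2)) * Real.exp (2 * b * j)) -
        (j : ℝ) * (Real.exp (-b) * Real.exp (-(b * (j : ℝ) ^ 2)) * Real.exp (-(2 * b * j)))) := by
    nlinarith [h3]
  exact le_of_mul_le_mul_left h4 hb

theorem summable_mul {x : ℝ} (hx : 0 ≤ x) (hx1 : x < 1) :
    Summable fun j : ℤ => (j : ℝ) * gr x j := by
  have h1 : Summable fun n : ℕ => (n : ℝ) * x ^ n := by
    have := summable_pow_mul_geometric_of_norm_lt_one 1 (r := x)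
      (by rwa [Real.norm_eq_abs, abs_of_nonneg hx])
    simpa using this
  have h2 : Summable fun n : ℕ => ((n : ℤ) : ℝ) * gr x n := by
    refine Summable.of_nonneg_of_le (fun n => by
      have := gr_nonneg hx n
      positivity) (fun n => ?_) h1
    have : gr x n ≤ x ^ n := by
      unfold gr
      simpa using pow_sq_le hx hx1.le n
    have h3 : (0 : ℝ) ≤ n := by positivity
    push_cast
    exact mul_le_mul_of_nonneg_left this h3
  apply Summable.of_nat_of_neg h2
  refine h2.neg.congr fun n => ?_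
  rw [gr_neg]
  push_cast
  ring

theorem second_moment_le {b : ℝ} (hb : 0 < b) (hb1 : b ≤ 1 / 2) :
    ∃ S, HasSum (fun j : ℤ => (j : ℝ) ^ 2 * gr (Real.exp (-b)) j) S ∧
      S ≤ (∑' j, gr (Real.exp (-b)) j) / b := by
  set x := Real.exp (-b) with hxd
  have hx : 0 ≤ x := (Real.exp_pos _).le
  have hx1 : x < 1 := by rw [hxd, Real.exp_lt_one_iff]; linarith
  have h0 := (summable_gr hx hx1).hasSum
  have h1 := (summable_mul hx hx1).hasSum
  set T := ∑' j, gr x j with hT
  set R := ∑' j : ℤ, (j : ℝ) * gr x j with hR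
  have h2 : HasSum (fun j : ℤ => (j : ℝ) * gr x (j - 1)) (R + T) := by
    have e := (Equiv.addRight (1 : ℤ)).hasSum_iff (f := fun j : ℤ => (j : ℝ) * gr x (j - 1))
      (a := R + T)
    rw [← e]
    refine (h1.add h0).congr_fun fun j => ?_
    simp only [Function.comp, Equiv.coe_addRight, add_sub_cancel_right]
    push_cast
    ring
  have h3 : HasSum (fun j : ℤ => (j : ℝ) * gr x (j + 1)) (R - T) := by
    have e := (Equiv.subRight (1 : ℤ)).hasSum_iff (f := fun j : ℤ => (j : ℝ) * gr x (j + 1))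
      (a := R - T)
    rw [← e]
    refine (h1.sub h0).congr_fun fun j => ?_
    simp only [Function.comp, Equiv.subRight_apply, sub_add_cancel]
    push_cast
    ring
  have h4 := h2.sub h3
  have h5 : R + T - (R - T) = 2 * T := by ring
  rw [h5] at h4
  have hpos : 0 < 4 * b * x := by
    have : 0 < x := Real.exp_pos _
    positivity
  have h6 : Summable fun j : ℤ => 4 * b * x * ((j : ℝ) ^ 2 * gr x j) := by
    refine Summable.of_nonneg_of_le (fun j => ?_) (fun j => diff_le hb j) h4.summable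
    have := gr_nonneg hx j
    positivity
  have h7 : Summable fun j : ℤ => (j : ℝ) ^ 2 * gr x j :=
    (summable_mul_left_iff hpos.ne').1 h6
  refine ⟨_, h7.hasSum, ?_⟩
  have h8 : 4 * b * x * ∑' j : ℤ, (j : ℝ) ^ 2 * gr x j ≤ 2 * T := by
    have := hasSum_le (fun j => diff_le hb j) (h7.hasSum.mul_left (4 * b * x)) h4
    exact this
  have h9 : (1 : ℝ) / 2 ≤ x := by
    have := Real.add_one_le_exp (-b)
    linarith
  have h10 : 0 ≤ ∑' j : ℤ, (j : ℝ) ^ 2 * gr x j := by
    apply tsum_nonneg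
    intro j
    have := gr_nonneg hx j
    positivity
  rw [le_div_iff₀ hb]
  nlinarith [mul_nonneg hb.le h10]

end Vt

theorem virt_up {M : G → ℝ≥0∞} (h : PD M) (h0 : Fin0 M) {b : ℝ} (hb : 0 < b) (hb1 : b ≤ 1 / 2)
    {a : G} {s : ℝ} (hs : kap M a ≤ s) (h6 : 6 * s ≤ b) :
    (M 0).toReal * (thg (ENNReal.ofReal (Real.exp (-b)))).toReal * Real.exp (-(6 * s / b)) ≤
      (conv (gw (ENNReal.ofReal (Real.exp (-b)))) a M 0).toReal := by
  have hx : 0 ≤ Real.exp (-b) := (Real.exp_pos _).le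
  have hx1 : Real.exp (-b) < 1 := by rw [Real.exp_lt_one_iff]; linarith
  have hk := h.kap_nonneg h0 a
  have hs0 : 0 ≤ s := hk.trans hs
  rw [conv_eq h h0 hx hx1, mul_assoc]
  apply mul_le_mul_of_nonneg_left _ ENNReal.toReal_nonneg
  obtain ⟨S, hS, hSle⟩ := second_moment_le hb hb1
  rw [← thg_toReal hx] at hSle
  set T := (thg (ENNReal.ofReal (Real.exp (-b)))).toReal with hT
  have h1 : ∑' j : ℤ, gr (Real.exp (-b)) j * kap M (j • a) ≤ s * S := by
    refine hasSum_le (fun j => ?_) (summable_kap h h0 hx hx1 a).hasSum (hS.mul_left s)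
    have e1 := h.kap_zsmul h0 j a
    have e2 : (j : ℝ) ^ 2 * kap M a ≤ (j : ℝ) ^ 2 * s :=
      mul_le_mul_of_nonneg_left hs (sq_nonneg _)
    have e3 := mul_le_mul_of_nonneg_left (e1.trans e2) (gr_nonneg hx j)
    linarith
  have hT0 : 0 ≤ T := ENNReal.toReal_nonneg
  have h2 : s * S ≤ T * (s / b) := by
    have := mul_le_mul_of_nonneg_left hSle hs0
    calc s * S ≤ s * (T / b) := this
      _ = T * (s / b) := by ring
  have h3 : Real.exp (-(6 * s / b)) ≤ 1 - s / b := by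
    have e1 : 0 ≤ s / b := by positivity
    have e2 : s / b ≤ 1 / 6 := by
      rw [div_le_iff₀ hb]
      linarith
    have e3 : 6 * s / b = 6 * (s / b) := by ring
    rw [e3]
    set u := s / b
    have e4 : Real.exp (-(6 * u)) * (1 + 6 * u) ≤ 1 := by
      have e5 := Real.add_one_le_exp (6 * u)
      have e6 : Real.exp (-(6 * u)) * Real.exp (6 * u) = 1 := by
        rw [← Real.exp_add]
        simp
      have e7 := mul_le_mul_of_nonneg_left e5 (Real.exp_pos (-(6 * u))).le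
      linarith
    have e8 : 1 ≤ (1 - u) * (1 + 6 * u) := by nlinarith
    have e9 : 0 < 1 + 6 * u := by positivity
    exact le_of_mul_le_mul_right (e4.trans e8) e9
  have h4 := mul_le_mul_of_nonneg_left h3 hT0
  linarith

namespace Vt

/-- Even sums over the integers. -/
theorem hasSum_even {f : ℤ → ℝ} (hf : ∀ j, f (-j) = f j) {S : ℝ}
    (h : HasSum (fun n : ℕ => f (n + 1)) S) : HasSum f (f 0 + 2 * S) := by
  have h2 : HasSum (fun n : ℕ => f (-(n + 1))) S := by
    refine h.congr_fun fun n => ?_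
    rw [hf]
  have := HasSum.of_add_one_of_neg_add_one h h2
  have e : S + f 0 + S = f 0 + 2 * S := by ring
  rwa [e] at this

end Vt

theorem virt_down {E : G → ℝ≥0∞} (h : PD E) (h0 : Fin0 E) {b : ℝ} (hb : 0 < b)
    (hb1 : b ≤ 1 / 2) (a : G) :
    (conv (gw (ENNReal.ofReal (Real.exp (-b)))) a E 0).toReal ≤
      (E 0).toReal * (thg (ENNReal.ofReal (Real.exp (-b)))).toReal *
        Real.exp (-(kap E a / 6)) := by
  have hx : 0 ≤ Real.exp (-b) := (Real.exp_pos _).le
  have hx1 : Real.exp (-b) < 1 := by rw [Real.exp_lt_one_iff]; linarith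
  rw [conv_eq h h0 hx hx1, mul_assoc]
  apply mul_le_mul_of_nonneg_left _ ENNReal.toReal_nonneg
  set x := Real.exp (-b) with hxd
  rw [thg_toReal hx]
  have hinj : Function.Injective (fun n : ℕ => ((n : ℤ) + 1)) := fun m n e => by
    simp only at e
    omega
  -- sums over the positive integers
  have s1 : Summable fun n : ℕ => gr x (n + 1) := (summable_gr hx hx1).comp_injective hinj
  have s2 : Summable fun n : ℕ => gr x (n + 1) * kap E (((n : ℤ) + 1) • a) :=
    (summable_kap h h0 hx hx1 a).comp_injective hinj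
  have t1 : ∑' j, gr x j = 1 + 2 * ∑' n : ℕ, gr x (n + 1) := by
    have := hasSum_even (f := gr x) (gr_neg x) s1.hasSum
    rw [this.tsum_eq]
    simp [gr]
  have hk0 : kap E 0 = 0 := by
    unfold kap
    rw [div_self (ENNReal.toReal_pos h0.1 h0.2).ne', sub_self]
  have t2 : ∑' j : ℤ, gr x j * kap E (j • a) =
      2 * ∑' n : ℕ, gr x (n + 1) * kap E (((n : ℤ) + 1) • a) := by
    have := hasSum_even (f := fun j : ℤ => gr x j * kap E (j • a)) (fun j => by
      rw [gr_neg, neg_smul, h.kap_neg]) s2.hasSum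
    rw [this.tsum_eq]
    simp [hk0]
  set κ := kap E a with hκ
  have hκ0 : 0 ≤ κ := h.kap_nonneg h0 a
  set S := ∑' n : ℕ, gr x (n + 1) with hS
  set K := ∑' n : ℕ, gr x (n + 1) * kap E (((n : ℤ) + 1) • a) with hK
  -- neighbours
  have hn : ∀ j : ℤ, κ / 2 ≤ kap E (j • a) + kap E ((j + 1) • a) := by
    intro j
    have e1 := h.kap_nonneg h0 (j • a)
    have e2 := h.kap_nonneg h0 ((j + 1) • a)
    have e3 := h.kap_sub h0 (x := (j + 1) • a) (y := j • a) (Real.sqrt_nonneg _)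
      (Real.sqrt_nonneg _) (Real.sq_sqrt e2).ge (Real.sq_sqrt e1).ge
    have e4 : (j + 1) • a - j • a = a := by
      rw [← sub_smul]
      simp
    rw [e4] at e3
    have e5 := Real.sq_sqrt e1
    have e6 := Real.sq_sqrt e2
    nlinarith [sq_nonneg (Real.sqrt (kap E ((j + 1) • a)) - Real.sqrt (kap E (j • a)))]
  have hg1 : gr x 1 = x := by simp [gr]
  have hone : ((0 : ℕ) : ℤ) + 1 = 1 := by norm_num
  -- shift of the sums
  have hsh : ∀ n : ℕ, (((n + 1 : ℕ) : ℤ) + 1) = n + 2 := fun n => by push_cast; ring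
  have u1 : S = gr x 1 + ∑' n : ℕ, gr x (n + 2) := by
    rw [hS, s1.tsum_eq_zero_add, hone]
    simp only [hsh]
  have u2 : K = gr x 1 * κ + ∑' n : ℕ, gr x (n + 2) * kap E (((n : ℤ) + 2) • a) := by
    rw [hK, s2.tsum_eq_zero_add, hone, one_smul]
    simp only [hsh, hκ]
  have hinj2 : Function.Injective (fun n : ℕ => ((n : ℤ) + 2)) := fun m n e => by
    simp only at e
    omega
  have s3 : Summable fun n : ℕ => gr x (n + 2) := (summable_gr hx hx1).comp_injective hinj2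
  have s4 : Summable fun n : ℕ => gr x (n + 2) * kap E (((n : ℤ) + 2) • a) :=
    (summable_kap h h0 hx hx1 a).comp_injective hinj2
  have u3 : (S - gr x 1) * (κ / 2) ≤
      K + ∑' n : ℕ, gr x (n + 2) * kap E (((n : ℤ) + 2) • a) := by
    have e0 : (S - gr x 1) = ∑' n : ℕ, gr x (n + 2) := by rw [u1]; ring
    rw [e0, ← tsum_mul_right, hK, ← s2.tsum_add s4]
    refine (s3.mul_right _).tsum_le_tsum (fun n => ?_) (s2.add s4)
    have e1 := hn (n + 1)
    have e2 : (n : ℤ) + 1 + 1 = n + 2 := by ring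
    rw [e2] at e1
    have e3 : gr x (n + 2) ≤ gr x (n + 1) := by
      unfold gr
      apply pow_le_pow_of_le_one hx hx1.le
      have a1 : ((n : ℤ) + 1).natAbs = n + 1 := by omega
      have a2 : ((n : ℤ) + 2).natAbs = n + 2 := by omega
      rw [a1, a2]
      exact Nat.pow_le_pow_left (by omega) 2
    have e4 := h.kap_nonneg h0 (((n : ℤ) + 1) • a)
    have e5 := gr_nonneg hx ((n : ℤ) + 2)
    nlinarith [mul_le_mul_of_nonneg_right e3 e4, mul_le_mul_of_nonneg_left e1 e5]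
  have u4 : K = gr x 1 * κ + (∑' n : ℕ, gr x (n + 2) * kap E (((n : ℤ) + 2) • a)) := u2
  have hxh : (1 : ℝ) / 2 ≤ x := by
    have := Real.add_one_le_exp (-b)
    linarith
  have u5 : (1 + 2 * S) * (κ / 4) ≤ 2 * K := by
    rw [hg1] at u3 u4
    nlinarith
  rw [t1, t2]
  have hS0 : 0 ≤ S := tsum_nonneg fun n => gr_nonneg hx _
  have u6 : 1 - κ / 6 ≤ Real.exp (-(κ / 6)) := by
    have := Real.add_one_le_exp (-(κ / 6))
    linarith
  have u7 := mul_le_mul_of_nonneg_left u6 (by linarith : (0 : ℝ) ≤ 1 + 2 * S)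
  nlinarith [mul_nonneg (by linarith : (0 : ℝ) ≤ 1 + 2 * S) hκ0]

namespace Vt

theorem amgm {x : ℝ} (hx : 0 ≤ x) (m : ℤ) :
    2 * (x * gr x m) ≤ gr x (1 - m) + gr x (1 + m) := by
  wlog hm : 0 ≤ m generalizing m
  · have := this (-m) (by omega)
    rw [gr_neg] at this
    have e1 : 1 - -m = 1 + m := by ring
    have e2 : 1 + -m = 1 - m := by ring
    rw [e1, e2] at this
    linarith
  obtain ⟨n, rfl⟩ := Int.eq_ofNat_of_zero_le hm
  rcases n with _ | n
  · simp [gr]
    linarith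
  · have a1 : (1 - ((n + 1 : ℕ) : ℤ)).natAbs = n := by omega
    have a2 : (1 + ((n + 1 : ℕ) : ℤ)).natAbs = n + 2 := by omega
    have a3 : (((n + 1 : ℕ) : ℤ)).natAbs = n + 1 := by omega
    unfold gr
    rw [a1, a2, a3]
    have e1 : x * x ^ ((n + 1) ^ 2) = x ^ (n ^ 2) * x ^ (2 * n + 2) := by
      rw [← pow_succ', ← pow_add]
      congr 1
      ring
    have e2 : x ^ ((n + 2) ^ 2) = x ^ (n ^ 2) * (x ^ (2 * n + 2)) ^ 2 := by
      rw [← pow_mul, ← pow_add]
      congr 1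
      ring
    rw [e1, e2]
    have h1 : 0 ≤ x ^ (n ^ 2) := by positivity
    nlinarith [mul_nonneg h1 (sq_nonneg (1 - x ^ (2 * n + 2)))]

end Vt

/-- A strong site. -/
theorem strong {N : G → ℝ≥0∞} (h : PD N) (h0 : Fin0 N) {x : ℝ} (hx : 0 ≤ x) (hx1 : x < 1)
    (a : G) : kap (conv (gw (ENNReal.ofReal x)) a N) a ≤ 1 - x := by
  have hlt : ENNReal.ofReal x < 1 := by rwa [ENNReal.ofReal_lt_one]
  have hpd := h.conv_gw hlt a
  have key : 2 * (ENNReal.ofReal x * conv (gw (ENNReal.ofReal x)) a N 0) ≤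
      2 * conv (gw (ENNReal.ofReal x)) a N a := by
    rw [conv_zero h]
    have e1 : conv (gw (ENNReal.ofReal x)) a N a =
        ∑' m : ℤ, gw (ENNReal.ofReal x) (1 - m) * N (m • a) := by
      unfold conv
      rw [← (Equiv.subLeft (1 : ℤ)).tsum_eq]
      refine tsum_congr fun m => ?_
      simp only [Equiv.subLeft_apply]
      congr 2
      rw [sub_smul, one_smul]
      abel
    have e2 : conv (gw (ENNReal.ofReal x)) a N a =
        ∑' m : ℤ, gw (ENNReal.ofReal x) (1 + m) * N (m • a) := by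
      rw [e1, ← (Equiv.neg ℤ).tsum_eq]
      refine tsum_congr fun m => ?_
      simp only [Equiv.neg_apply, sub_neg_eq_add, neg_smul, h.neg]
    rw [two_mul (conv _ _ _ _)]
    nth_rewrite 1 [e1]
    rw [e2, ← ENNReal.tsum_add, ← ENNReal.tsum_mul_left, ← ENNReal.tsum_mul_left]
    refine ENNReal.tsum_le_tsum fun m => ?_
    rw [← add_mul, ← mul_assoc, ← mul_assoc, mul_assoc 2]
    refine mul_le_mul_left ?_ _
    rw [gw_ofReal hx, gw_ofReal hx, gw_ofReal hx, ← ENNReal.ofReal_mul hx,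
      ← ENNReal.ofReal_add (gr_nonneg hx _) (gr_nonneg hx _)]
    have : (2 : ℝ≥0∞) = ENNReal.ofReal 2 := by simp
    rw [this, ← ENNReal.ofReal_mul (by norm_num)]
    exact ENNReal.ofReal_le_ofReal (amgm hx m)
  have key2 : ENNReal.ofReal x * conv (gw (ENNReal.ofReal x)) a N 0 ≤
      conv (gw (ENNReal.ofReal x)) a N a :=
    (ENNReal.mul_le_mul_iff_right (by norm_num) (by norm_num)).1 key
  have hne : conv (gw (ENNReal.ofReal x)) a N 0 ≠ ⊤ := by
    refine ne_top_of_le_ne_top ?_ (h.conv_le _ a 0)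
    exact ENNReal.mul_ne_top (thg_ne_top hlt) h0.2
  have hne0 : conv (gw (ENNReal.ofReal x)) a N 0 ≠ 0 := by
    intro e
    rw [conv_zero h, ENNReal.tsum_eq_zero] at e
    have := e 0
    simp [h0.1] at this
  have hnea : conv (gw (ENNReal.ofReal x)) a N a ≠ ⊤ := ne_top_of_le_ne_top hne (hpd.le_zero a)
  have hpos := ENNReal.toReal_pos hne0 hne
  have key3 := ENNReal.toReal_mono hnea key2
  rw [ENNReal.toReal_mul, ENNReal.toReal_ofReal hx] at key3
  unfold kap
  have : x ≤ (conv (gw (ENNReal.ofReal x)) a N a).toReal /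
      (conv (gw (ENNReal.ofReal x)) a N 0).toReal := by
    rwa [le_div_iff₀ hpos]
  linarith

end Pool.Agent.SP
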