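import Pool.Agent.SP.Defs
import Pool.Agent.SP.Pd
import Pool.Agent.SP.Virt

/-!
The moves of the closure process preserve the invariants.
-/

set_option autoImplicit false

namespace Pool.Agent.SP

open Finset
open scoped ENNReal
open Pool.Agent.Helper36.LL (conv dlt FF gw tern)

variable {G : Type*} [AddCommGroup G]

namespace Mv

/-! ### general facts on `FF` -/

theorem FF_union [DecidableEq G] (w : G → ℤ → ℝ≥0∞) {A B : Finset G} (h : Disjoint A B)
    (p : G → ℝ≥0∞) : FF w (A ∪ B) p = FF w A (FF w B p) := by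
  induction A using Finset.induction_on with
  | empty => simp
  | insert c A hc ih =>
    rw [Finset.disjoint_insert_left] at h
    have h1 : c ∉ A ∪ B := by
      rw [Finset.mem_union]; rintro (h' | h')
      · exact hc h'
      · exact h.1 h'
    rw [Finset.insert_union, Helper36.LL.FF_insert w h1, ih h.2, Helper36.LL.FF_insert w hc]

theorem FF_comm [DecidableEq G] (w w' : G → ℤ → ℝ≥0∞) (A B : Finset G)
    (p : G → ℝ≥0∞) : FF w A (FF w' B p) = FF w' B (FF w A p) := by
  induction B using Finset.induction_on with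
  | empty => simp
  | insert c B hc ih =>
    rw [Helper36.LL.FF_insert w' hc, Helper36.LL.FF_insert w' hc, Helper36.LL.FF_conv, ih]

theorem conv_mono {w w' : ℤ → ℝ≥0∞} (hw : ∀ j, w j ≤ w' j) (b : G) {p p' : G → ℝ≥0∞}
    (hp : ∀ v, p v ≤ p' v) (v : G) : conv w b p v ≤ conv w' b p' v :=
  ENNReal.tsum_le_tsum fun j => mul_le_mul' (hw j) (hp _)

theorem FF_mono [DecidableEq G] {w w' : G → ℤ → ℝ≥0∞} {B : Finset G}
    (hw : ∀ b ∈ B, ∀ j, w b j ≤ w' b j) {p p' : G → ℝ≥0∞}
    (hp : ∀ v, p v ≤ p' v) : ∀ v, FF w B p v ≤ FF w' B p' v := by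
  induction B using Finset.induction_on with
  | empty => simpa using hp
  | insert c B hc ih =>
    intro v
    rw [Helper36.LL.FF_insert w hc, Helper36.LL.FF_insert w' hc]
    exact conv_mono (hw c (Finset.mem_insert_self _ _)) c
      (ih (fun b hb => hw b (Finset.mem_insert_of_mem hb))) v

theorem tern_le_gw {x : ℝ≥0∞} (hx : 8⁻¹ ≤ x) (j : ℤ) : tern 8⁻¹ j ≤ gw x j := by
  unfold tern
  split_ifs with h1 h2
  · subst h1; simp
  · have : j.natAbs = 1 := by omega
    simpa [gw, this] using hx
  · exact zero_le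

theorem eighth_le_xs {k : ℕ} (hk : 1 ≤ k) : (8⁻¹ : ℝ≥0∞) ≤ xs k := by
  unfold xs
  have h1 : (1 : ℝ) / 2 ^ (20 * k) ≤ 1 / 2 := by
    apply one_div_le_one_div_of_le (by norm_num)
    calc (2 : ℝ) = 2 ^ 1 := by norm_num
      _ ≤ 2 ^ (20 * k) := pow_le_pow_right₀ (by norm_num) (by omega)
  have h2 : (8⁻¹ : ℝ≥0∞) = ENNReal.ofReal (1 / 8) := by
    rw [ENNReal.ofReal_div_of_pos (by norm_num)]
    simp
  rw [h2]
  exact ENNReal.ofReal_le_ofReal (by linarith)

/-! ### the gases of a state are finite -/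

theorem inv8_le : (8⁻¹ : ℝ≥0∞) ≤ 2⁻¹ := ENNReal.inv_le_inv.2 (by norm_num)

theorem inv64_le : (64⁻¹ : ℝ≥0∞) ≤ 2⁻¹ := ENNReal.inv_le_inv.2 (by norm_num)

section dec

variable [DecidableEq G]

theorem pdE {k : ℕ} (hk : 1 ≤ k) (S : St G) (i : ℕ) : PD (S.E k i) :=
  (PD.VV (yb_lt hk) _).FF_gw (xs_lt k) _

theorem finE {k : ℕ} (hk : 1 ≤ k) (S : St G) (i : ℕ) : Fin0 (S.E k i) :=
  Fin0.FF_gw (PD.VV (yb_lt hk) _) (Fin0.VV (yb_lt hk) _) (xs_lt k) _

theorem pdU {k : ℕ} (hk : 1 ≤ k) (S : St G) (i : ℕ) : PD (S.U k i) :=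
  (pdE hk S i).FF_tern inv8_le _

theorem finU {k : ℕ} (hk : 1 ≤ k) (S : St G) (i : ℕ) : Fin0 (S.U k i) :=
  Fin0.FF_tern (pdE hk S i) (finE hk S i) inv8_le _

theorem pdM {k : ℕ} (hk : 1 ≤ k) (S : St G) (i : ℕ) : PD (S.M k i) :=
  (pdU hk S i).FF_tern inv64_le _

theorem finM {k : ℕ} (hk : 1 ≤ k) (S : St G) (i : ℕ) : Fin0 (S.M k i) :=
  Fin0.FF_tern (pdU hk S i) (finU hk S i) inv64_le _

omit [DecidableEq G] in
theorem log_mono {p q : G → ℝ≥0∞} (hp : Fin0 p) (hq : Fin0 q) (h : p 0 ≤ q 0) :
    Real.log (p 0).toReal ≤ Real.log (q 0).toReal :=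
  Real.log_le_log (ENNReal.toReal_pos hp.1 hp.2) (ENNReal.toReal_mono hq.2 h)

theorem FF_gw_le {M : G → ℝ≥0∞} (h : PD M) {x : ℝ≥0∞} (hx : x < 1) (B : Finset G) :
    FF (fun _ => gw x) B M 0 ≤ thg x ^ B.card * M 0 := by
  induction B using Finset.induction_on with
  | empty => simp
  | insert c B hc ih =>
    rw [Helper36.LL.FF_insert _ hc, Finset.card_insert_of_notMem hc, pow_succ', mul_assoc]
    exact ((h.FF_gw hx B).conv_le (gw x) c 0).trans (mul_le_mul_right ih _)

end dec

end Mv

variable [DecidableEq G]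

open Mv

theorem inv_init {k : ℕ} (V : Finset G) :
    Inv k V ⟨fun i => if i = 0 then V else ∅, fun _ => []⟩ := by
  set S : St G := ⟨fun i => if i = 0 then V else ∅, fun _ => []⟩ with hS
  have hE : ∀ i, S.E k i = dlt := by
    intro i
    unfold St.E
    have h1 : S.W (i + 2) = ∅ := by simp [hS]
    have h2 : S.l i = [] := rfl
    rw [h1, h2]
    simp [VV]
  have hU : ∀ i, S.U k i = dlt := by
    intro i
    unfold St.U St.P
    have h1 : S.W (i + 1) = ∅ := by simp [hS]
    rw [h1, hE]
    simp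
  have hM : ∀ i, 0 ≤ Real.log (S.M k i 0).toReal := by
    intro i
    unfold St.M MP
    rw [hU]
    have h1 : 1 ≤ FF (fun _ : G => tern 64⁻¹) (S.P i) dlt 0 :=
      Helper36.LL.F_zero_ge (fun b _ => by simp)
    have h2 : FF (fun _ : G => tern 64⁻¹) (S.P i) dlt 0 ≠ ⊤ :=
      (Fin0.FF_tern PD.dlt ⟨by simp [dlt], by simp [dlt]⟩ inv64_le _).2
    apply Real.log_nonneg
    have := ENNReal.toReal_mono h2 h1
    simpa using this
  refine ⟨by simp [hS], ?_, ⟨1, by simp [hS]⟩, ?_, ?_⟩
  · apply antitone_nat_of_succ_le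
    intro n
    simp [hS]
  · intro i
    have h1 : S.W (i + 1) = ∅ := by simp [hS]
    have h2 : (S.l i).length = 0 := rfl
    rw [h1, h2]
    simpa using hM i
  · intro i
    have h1 : S.W (i + 2) = ∅ := by simp [hS]
    have h2 : (S.l i).length = 0 := rfl
    rw [h1, h2, hE]
    have : (dlt (0 : G) : ℝ≥0∞) = 1 := by simp [dlt]
    rw [this]
    simpa using hM i

theorem move_a {k : ℕ} (hk : 100 ≤ k) {V : Finset G} {S : St G} (h : Inv k V S) (i : ℕ) {a : G}
    (ha : kap (S.M k i) a ≤ 1 / (2 ^ 28 * (k : ℝ) ^ 3))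
    (hb : (S.E k i a).toReal < Real.exp (-(1 / (100 * (k : ℝ)))) * (S.E k i 0).toReal) :
    Inv k V ⟨S.W, Function.update S.l i (a :: S.l i)⟩ := by
  have hk1 : 1 ≤ k := by omega
  have hkR : (100 : ℝ) ≤ k := by exact_mod_cast hk
  have hk0 : (0 : ℝ) < k := by linarith
  set T : St G := ⟨S.W, Function.update S.l i (a :: S.l i)⟩ with hT
  have hli : T.l i = a :: S.l i := Function.update_self ..
  have hlj : ∀ j, j ≠ i → T.l j = S.l j := fun j hj => Function.update_of_ne hj _ _
  have hEi : T.E k i = conv (gw (yb k)) a (S.E k i) := by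
    unfold St.E
    rw [hli]
    change FF (fun _ => gw (xs k)) (S.W (i + 2)) (conv (gw (yb k)) a (VV (yb k) (S.l i))) = _
    rw [Helper36.LL.FF_conv]
  have hUi : T.U k i = conv (gw (yb k)) a (S.U k i) := by
    unfold St.U
    rw [hEi, Helper36.LL.FF_conv]
    rfl
  have hMi : T.M k i = conv (gw (yb k)) a (S.M k i) := by
    unfold St.M MP
    rw [hUi, Helper36.LL.FF_conv]
    rfl
  have hEj : ∀ j, j ≠ i → T.E k j = S.E k j := by
    intro j hj
    unfold St.E
    rw [hlj j hj]
  have hUj : ∀ j, j ≠ i → T.U k j = S.U k j := by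
    intro j hj
    unfold St.U
    rw [hEj j hj]
    rfl
  have hMj : ∀ j, j ≠ i → T.M k j = S.M k j := by
    intro j hj
    unfold St.M
    rw [hUj j hj]
    rfl
  -- numbers
  set x : ℝ := 1 / (100 * (k : ℝ)) with hx
  have hx0 : 0 < x := by positivity
  have hx4 : x ≤ 1 / 10000 := by
    rw [hx]
    apply one_div_le_one_div_of_le (by norm_num)
    linarith
  set e : ℝ := 600 / (2 ^ 28 * (k : ℝ) ^ 2) with he
  have hs6 : 6 * (1 / (2 ^ 28 * (k : ℝ) ^ 3)) / x = e := by
    rw [hx, he]
    field_simp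
    norm_num
  have he1 : e ≤ x / 100000 := by
    rw [he, hx, div_div, div_le_div_iff₀ (by positivity) (by positivity)]
    have : (k : ℝ) ≤ k ^ 2 / 100 := by
      rw [sq, le_div_iff₀ (by norm_num)]
      nlinarith
    nlinarith
  have h6 : 6 * (1 / (2 ^ 28 * (k : ℝ) ^ 3)) ≤ x := by
    have h1 : 6 * (1 / (2 ^ 28 * (k : ℝ) ^ 3)) = e * x := by
      rw [← hs6]; field_simp
    rw [h1]
    nlinarith
  have hyb : yb k = ENNReal.ofReal (Real.exp (-x)) := rfl
  -- the two estimates
  have hM := finM hk1 S i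
  have hE := finE hk1 S i
  have hM' := finM hk1 T i
  have hE' := finE hk1 T i
  have hM0 : 0 < (S.M k i 0).toReal := ENNReal.toReal_pos hM.1 hM.2
  have hE0 : 0 < (S.E k i 0).toReal := ENNReal.toReal_pos hE.1 hE.2
  have hM0' : 0 < (T.M k i 0).toReal := ENNReal.toReal_pos hM'.1 hM'.2
  have hE0' : 0 < (T.E k i 0).toReal := ENNReal.toReal_pos hE'.1 hE'.2
  have hth : 1 ≤ (thg (yb k)).toReal := by
    have := ENNReal.toReal_mono (thg_ne_top (yb_lt hk1)) (one_le_thg (yb k))
    simpa using this
  have hth0 : 0 < (thg (yb k)).toReal := by linarith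
  have up := virt_up (pdM hk1 S i) hM hx0 (by linarith) ha h6
  rw [hs6, ← hyb, ← hMi] at up
  have down := virt_down (pdE hk1 S i) hE hx0 (by linarith) a
  rw [← hyb, ← hEi] at down
  have up' : Real.log (S.M k i 0).toReal + Real.log (thg (yb k)).toReal - e
      ≤ Real.log (T.M k i 0).toReal := by
    have h1 := Real.log_le_log (by positivity) up
    rw [Real.log_mul (by positivity) (by positivity), Real.log_mul (by positivity)
      (by positivity), Real.log_exp] at h1
    linarith
  have hkap : 995 / 1000 * x ≤ kap (S.E k i) a := by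
    unfold kap
    have h1 : (S.E k i a).toReal / (S.E k i 0).toReal ≤ Real.exp (-x) := by
      rw [div_le_iff₀ hE0]
      exact hb.le
    have h2 : Real.exp (-x) ≤ 1 - 995 / 1000 * x := by
      have h3 : Real.exp (-x) ≤ 1 / (1 + x) := by
        rw [Real.exp_neg, ← one_div]
        apply one_div_le_one_div_of_le (by linarith)
        have := Real.add_one_le_exp x
        linarith
      refine h3.trans ?_
      rw [div_le_iff₀ (by linarith)]
      nlinarith
    linarith
  have down' : Real.log (T.E k i 0).toReal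
      ≤ Real.log (S.E k i 0).toReal + Real.log (thg (yb k)).toReal - kap (S.E k i) a / 6 := by
    have h1 := Real.log_le_log hE0' down
    rw [Real.log_mul (by positivity) (by positivity), Real.log_mul (by positivity)
      (by positivity), Real.log_exp] at h1
    linarith
  refine ⟨h.w0, h.anti, h.fin, ?_, ?_⟩
  · intro j
    by_cases hj : j = i
    · subst hj
      have h1 := h.invX j
      change ((T.l j).length : ℝ) * _ + ((S.W (j + 1)).card : ℝ) / _ ≤ _
      rw [hli, List.length_cons]
      push_cast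
      linarith
    · rw [hMj j hj, hlj j hj]
      exact h.invX j
  · intro j
    by_cases hj : j = i
    · subst hj
      have h1 := h.invB j
      change ((T.l j).length : ℝ) * _ - 15 * (k : ℝ) * ((S.W (j + 2)).card : ℝ) ≤ _
      rw [hli, List.length_cons]
      have h2 : 1 / (2400 * (k : ℝ)) = x / 24 := by rw [hx]; field_simp; norm_num
      rw [h2] at h1 ⊢
      push_cast
      linarith
    · rw [hMj j hj, hEj j hj, hlj j hj]
      exact h.invB j

theorem move_b {k : ℕ} (hk : 100 ≤ k) {V : Finset G} {S : St G} (h : Inv k V S) (i : ℕ)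
    {F : Finset G} (hF : F ⊆ S.P i)
    (hb : ENNReal.ofReal (Real.exp (F.card / 2 ^ (20 * k))) * MP (S.P i) (S.U k i) 0 <
      FF (fun _ => tern 8⁻¹) F (MP (S.P i \ F) (S.U k i)) 0) :
    Inv k V ⟨Function.update S.W (i + 1) (S.W (i + 1) ∪ F), S.l⟩ := by
  have hk1 : 1 ≤ k := by omega
  set T : St G := ⟨Function.update S.W (i + 1) (S.W (i + 1) ∪ F), S.l⟩ with hT
  have hWi : T.W (i + 1) = S.W (i + 1) ∪ F := Function.update_self ..
  have hWj : ∀ j, j ≠ i + 1 → T.W j = S.W j := fun j hj => Function.update_of_ne hj _ _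
  have hPF : F ⊆ S.W i := hF.trans Finset.sdiff_subset
  have hd1 : Disjoint F (S.W (i + 1)) := by
    have : Disjoint (S.P i) (S.W (i + 1)) := Finset.sdiff_disjoint
    exact this.mono_left hF
  have hsub : S.W (i + 2) ⊆ S.W (i + 1) := h.anti (by omega)
  have hd2 : Disjoint F (S.W (i + 2)) := hd1.mono_right hsub
  have hcard : (T.W (i + 1)).card = (S.W (i + 1)).card + F.card := by
    rw [hWi, Finset.card_union_of_disjoint hd1.symm]
  -- palettes
  have hPi : T.P i = S.P i \ F := by
    unfold St.P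
    rw [hWi, hWj i (by omega)]
    ext v
    simp only [Finset.mem_sdiff, Finset.mem_union]
    tauto
  have hPi1 : T.P (i + 1) = F ∪ S.P (i + 1) := by
    unfold St.P
    rw [hWi, hWj (i + 1 + 1) (by omega)]
    ext v
    have hv : v ∈ F → v ∉ S.W (i + 1 + 1) := fun h1 h2 => (Finset.disjoint_left.1 hd2) h1 h2
    simp only [Finset.mem_sdiff, Finset.mem_union]
    tauto
  have hPj : ∀ j, j ≠ i → j ≠ i + 1 → T.P j = S.P j := by
    intro j h1 h2
    unfold St.P
    rw [hWj j h2, hWj (j + 1) (by omega)]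
  -- Gaussian parts
  have hEj : ∀ j, j + 1 ≠ i → T.E k j = S.E k j := by
    intro j h1
    unfold St.E
    rw [hWj (j + 2) (by omega)]
  have hEi : ∀ j, j + 1 = i → T.E k j = FF (fun _ => gw (xs k)) F (S.E k j) := by
    intro j h1
    subst h1
    unfold St.E
    have h2 : T.W (j + 2) = F ∪ S.W (j + 2) := by
      rw [Finset.union_comm]; exact hWi
    rw [h2, FF_union _ hd1]
  -- everything else
  have hUi : T.U k i = FF (fun _ => tern 8⁻¹) F (S.U k i) := by
    have h1 : Disjoint F (S.P (i + 1)) := hd1.mono_right Finset.sdiff_subset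
    unfold St.U
    rw [hPi1, hEj i (by omega), FF_union _ h1]
  have hUj : ∀ j, j ≠ i → j + 1 ≠ i → T.U k j = S.U k j := by
    intro j h1 h2
    unfold St.U
    rw [hPj (j + 1) h2 (by omega), hEj j h2]
  -- the gases
  have hM : ∀ j, S.M k j 0 ≤ T.M k j 0 := by
    intro j
    by_cases h1 : j = i
    · subst h1
      have h2 : T.M k j 0 = FF (fun _ => tern 8⁻¹) F (MP (S.P j \ F) (S.U k j)) 0 := by
        unfold St.M MP
        rw [hPi, hUi, FF_comm]
      rw [h2]
      refine le_trans ?_ hb.le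
      unfold St.M
      have h3 : (1 : ℝ≥0∞) ≤ ENNReal.ofReal (Real.exp (F.card / 2 ^ (20 * k))) := by
        rw [← ENNReal.ofReal_one]
        apply ENNReal.ofReal_le_ofReal
        exact Real.one_le_exp (by positivity)
      calc MP (S.P j) (S.U k j) 0 = 1 * MP (S.P j) (S.U k j) 0 := (one_mul _).symm
        _ ≤ _ := mul_le_mul_left h3 _
    · by_cases h2 : j = i + 1
      · subst h2
        have h3 : Disjoint F (S.P (i + 1)) := hd1.mono_right Finset.sdiff_subset
        unfold St.M MP
        rw [hPi1, hUj (i + 1) (by omega) (by omega), FF_union _ h3]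
        exact Helper36.LL.FF_zero_le (fun b _ => by simp) _ _
      · by_cases h3 : j + 1 = i
        · subst h3
          have h4 : T.U k j = FF (fun _ => tern 8⁻¹) (S.P (j + 1) \ F)
              (FF (fun _ => gw (xs k)) F (S.E k j)) := by
            unfold St.U
            rw [hPi, hEi j rfl]
          have h5 : S.U k j = FF (fun _ => tern 8⁻¹) (S.P (j + 1) \ F)
              (FF (fun _ => tern 8⁻¹) F (S.E k j)) := by
            unfold St.U
            conv_lhs => rw [← Finset.sdiff_union_of_subset hF]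
            rw [FF_union _ Finset.sdiff_disjoint]
          unfold St.M MP
          rw [hPj j (by omega) (by omega), h4, h5]
          refine FF_mono (fun _ _ _ => le_rfl) ?_ 0
          refine FF_mono (fun _ _ _ => le_rfl) ?_
          exact FF_mono (fun _ _ j => tern_le_gw (eighth_le_xs hk1) j) (fun _ => le_rfl)
        · unfold St.M
          rw [hPj j h1 h2, hUj j h1 h3]
  have hlogM : ∀ j, Real.log (S.M k j 0).toReal ≤ Real.log (T.M k j 0).toReal := fun j =>
    log_mono (finM hk1 S j) (finM hk1 T j) (hM j)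
  refine ⟨?_, ?_, ?_, ?_, ?_⟩
  · rw [hWj 0 (by omega)]
    exact h.w0
  · apply antitone_nat_of_succ_le
    intro n
    by_cases h1 : n = i
    · subst h1
      rw [hWi, hWj n (by omega)]
      exact Finset.union_subset (h.anti (by omega)) hPF
    · by_cases h2 : n = i + 1
      · subst h2
        rw [hWi, hWj (i + 1 + 1) (by omega)]
        exact hsub.trans Finset.subset_union_left
      · rw [hWj n h2, hWj (n + 1) (by omega)]
        exact h.anti (by omega)
  · obtain ⟨m, hm⟩ := h.fin
    refine ⟨max m (i + 2), ?_⟩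
    rw [hWj _ (by omega)]
    have := h.anti (le_max_left m (i + 2))
    rw [hm] at this
    exact Finset.subset_empty.1 this
  · intro j
    by_cases h1 : j = i
    · subst h1
      have h2 : T.M k j 0 = FF (fun _ => tern 8⁻¹) F (MP (S.P j \ F) (S.U k j)) 0 := by
        unfold St.M MP
        rw [hPi, hUi, FF_comm]
      have h3 : Real.exp (F.card / 2 ^ (20 * k)) * (S.M k j 0).toReal ≤ (T.M k j 0).toReal := by
        have h4 := ENNReal.toReal_mono (finM hk1 T j).2 (h2 ▸ hb.le)
        rwa [ENNReal.toReal_mul, ENNReal.toReal_ofReal (Real.exp_pos _).le] at h4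
      have h5 : 0 < (S.M k j 0).toReal :=
        ENNReal.toReal_pos (finM hk1 S j).1 (finM hk1 S j).2
      have h6 := Real.log_le_log (by positivity) h3
      rw [Real.log_mul (by positivity) (by positivity), Real.log_exp] at h6
      have h7 := h.invX j
      rw [hcard]
      push_cast
      rw [add_div]
      change ((S.l j).length : ℝ) * _ + _ ≤ _
      linarith
    · rw [hWj (j + 1) (by omega)]
      exact (h.invX j).trans (hlogM j)
  · intro j
    by_cases h1 : j + 1 = i
    · subst h1
      have h2 : (T.W (j + 2)).card = (S.W (j + 2)).card + F.card := hcard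
      rw [h2]
      have h3 : T.E k j 0 ≤ thg (xs k) ^ F.card * S.E k j 0 := by
        rw [hEi j rfl]
        exact FF_gw_le (pdE hk1 S j) (xs_lt k) F
      have hE := finE hk1 S j
      have hE' := finE hk1 T j
      have ht := thg_ne_top (xs_lt k)
      have ht0 : 0 < (thg (xs k)).toReal := by
        have h4 := ENNReal.toReal_mono ht (one_le_thg (xs k))
        have : (0 : ℝ) < 1 := one_pos
        simp at h4
        linarith
      have hE0 : 0 < (S.E k j 0).toReal := ENNReal.toReal_pos hE.1 hE.2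
      have hE0' : 0 < (T.E k j 0).toReal := ENNReal.toReal_pos hE'.1 hE'.2
      have h4 := ENNReal.toReal_mono (ENNReal.mul_ne_top (ENNReal.pow_ne_top ht) hE.2) h3
      rw [ENNReal.toReal_mul, ENNReal.toReal_pow] at h4
      have h5 := Real.log_le_log hE0' h4
      rw [Real.log_mul (by positivity) (by positivity), Real.log_pow] at h5
      have h6 := log_thg_xs hk1
      have h7 : (F.card : ℝ) * Real.log (thg (xs k)).toReal ≤ F.card * (15 * k) :=
        mul_le_mul_of_nonneg_left h6 (by positivity)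
      have h8 := h.invB j
      have h9 := hlogM j
      push_cast
      change ((S.l j).length : ℝ) * _ - _ ≤ _
      linarith
    · rw [hWj (j + 2) (by omega), hEj j h1]
      have h2 := h.invB j
      have h3 := hlogM j
      change ((S.l j).length : ℝ) * _ - _ ≤ _
      linarith

end Pool.Agent.SP
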