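import Pool.Agent.SP.Defs

/-!
The second moment inequality.
-/

set_option autoImplicit false

namespace Pool.Agent.SP

open Finset
open scoped ENNReal
open Pool.Agent.Helper36.LL (conv dlt FF gw tern FF_insert FF_empty tern_zero)

variable {G : Type*} [AddCommGroup G] [DecidableEq G]

theorem conv_tern_apply (p : ℝ≥0∞) (b : G) (M : G → ℝ≥0∞) (g : G) :
    conv (tern p) b M g = M g + p * M (g - b) + p * M (g + b) := by
  unfold Pool.Agent.Helper36.LL.conv
  rw [tsum_eq_sum (s := {0, 1, -1})]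
  · rw [Finset.sum_insert (by decide), Finset.sum_insert (by decide), Finset.sum_singleton]
    simp [tern, add_assoc]
  · intro j hj
    simp only [mem_insert, mem_singleton, not_or] at hj
    simp [tern, hj.1, hj.2.1, hj.2.2]

/-- The ordered double sum. -/
theorem FF_tern_sum2 (p : ℝ≥0∞) (P : Finset G) (U : G → ℝ≥0∞) : ∀ g : G,
    FF (fun _ => tern p) P U g =
      ∑ A ∈ P.powerset, ∑ B ∈ (P \ A).powerset, p ^ (A.card + B.card) * U (g - sg A B) := by
  induction P using Finset.induction_on with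
  | empty =>
    intro g
    simp [sg]
  | insert b P hb ih =>
    intro g
    rw [FF_insert _ hb, conv_tern_apply, ih, ih, ih]
    rw [Finset.sum_powerset_insert hb]
    have h1 : ∀ A ∈ P.powerset, ∑ B ∈ (insert b P \ A).powerset,
        p ^ (A.card + B.card) * U (g - sg A B) =
        (∑ B ∈ (P \ A).powerset, p ^ (A.card + B.card) * U (g - sg A B)) +
        p * ∑ B ∈ (P \ A).powerset, p ^ (A.card + B.card) * U (g + b - sg A B) := by
      intro A hA
      rw [mem_powerset] at hA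
      have hbA : b ∉ A := fun h => hb (hA h)
      have hbPA : b ∉ P \ A := fun h => hb (mem_sdiff.1 h).1
      rw [insert_sdiff_of_notMem _ hbA, Finset.sum_powerset_insert hbPA]
      congr 1
      rw [Finset.mul_sum]
      refine Finset.sum_congr rfl fun B hB => ?_
      have hbB : b ∉ B := fun h => hbPA (mem_powerset.1 hB h)
      rw [card_insert_of_notMem hbB]
      have e1 : g - sg A (insert b B) = g + b - sg A B := by
        unfold sg
        rw [sum_insert hbB]
        abel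
      rw [e1, ← mul_assoc, ← pow_succ', add_assoc]
    have h2 : ∀ A ∈ P.powerset, ∑ B ∈ (insert b P \ insert b A).powerset,
        p ^ ((insert b A).card + B.card) * U (g - sg (insert b A) B) =
        p * ∑ B ∈ (P \ A).powerset, p ^ (A.card + B.card) * U (g - b - sg A B) := by
      intro A hA
      rw [mem_powerset] at hA
      have hbA : b ∉ A := fun h => hb (hA h)
      have e0 : insert b P \ insert b A = P \ A := by
        ext x
        simp only [mem_sdiff, mem_insert, not_or]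
        constructor
        · rintro ⟨h | h, h3, h4⟩
          · exact absurd h h3
          · exact ⟨h, h4⟩
        · rintro ⟨h, h4⟩
          exact ⟨Or.inr h, fun h5 => hb (h5 ▸ h), h4⟩
      rw [e0, Finset.mul_sum]
      refine Finset.sum_congr rfl fun B hB => ?_
      have e1 : g - sg (insert b A) B = g - b - sg A B := by
        unfold sg
        rw [sum_insert hbA]
        abel
      rw [card_insert_of_notMem hbA, e1, ← mul_assoc, ← pow_succ']
      congr 2
      omega
    rw [Finset.sum_congr rfl h1, Finset.sum_congr rfl h2, Finset.sum_add_distrib, ← Finset.mul_sum,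
      ← Finset.mul_sum]
    ring

theorem sum_SS {M : Type*} [AddCommMonoid M] (P : Finset G) (F : Finset G × Finset G → M) :
    ∑ T ∈ SS P, F T = ∑ A ∈ P.powerset, ∑ B ∈ (P \ A).powerset, F (A, B) := by
  unfold SS
  rw [Finset.sum_filter, Finset.sum_product]
  refine Finset.sum_congr rfl fun A hA => ?_
  rw [← Finset.sum_filter]
  refine Finset.sum_congr ?_ fun _ _ => rfl
  ext B
  simp only [mem_filter, mem_powerset]
  rw [Finset.subset_sdiff]
  constructor
  · rintro ⟨h1, h2⟩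
    exact ⟨h1, h2.symm⟩
  · rintro ⟨h1, h2⟩
    exact ⟨h1, h2.symm⟩

theorem FF_tern_sum (p : ℝ≥0∞) (P : Finset G) (U : G → ℝ≥0∞) (g : G) :
    FF (fun _ => tern p) P U g =
      ∑ T ∈ SS P, p ^ (T.1.card + T.2.card) * U (g - sg T.1 T.2) := by
  rw [FF_tern_sum2, sum_SS]

theorem mem_SS {P : Finset G} {T : Finset G × Finset G} :
    T ∈ SS P ↔ T.1 ⊆ P ∧ T.2 ⊆ P ∧ Disjoint T.1 T.2 := by
  unfold SS
  simp only [mem_filter, mem_product, mem_powerset, and_assoc]

theorem sg_union {A A' B B' : Finset G} (h : Disjoint A A') (h' : Disjoint B B') :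
    sg (A ∪ A') (B ∪ B') = sg A B + sg A' B' := by
  unfold sg
  rw [sum_union h, sum_union h']
  abel

open Classical in
/-- Configurations containing a given signed set. -/
theorem sum_above (p : ℝ≥0∞) (P : Finset G) (U : G → ℝ≥0∞) (g : G) {A B : Finset G}
    (hA : A ⊆ P) (hB : B ⊆ P) (hAB : Disjoint A B) :
    ∑ c ∈ SS P, (if A ⊆ c.1 ∧ B ⊆ c.2 then
      p ^ (c.1.card + c.2.card) * U (g - sg c.1 c.2) else 0) =
      p ^ (A.card + B.card) * FF (fun _ => tern p) (P \ (A ∪ B)) U (g - sg A B) := by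
  rw [FF_tern_sum, Finset.mul_sum, ← Finset.sum_filter]
  refine Finset.sum_nbij' (fun c => (c.1 \ A, c.2 \ B)) (fun c => (A ∪ c.1, B ∪ c.2)) ?_ ?_ ?_ ?_ ?_
  · intro c hc
    rw [mem_filter, mem_SS] at hc
    obtain ⟨⟨h1, h2, h3⟩, h4, h5⟩ := hc
    rw [mem_SS]
    refine ⟨?_, ?_, ?_⟩
    · intro x hx
      rw [mem_sdiff] at hx
      rw [mem_sdiff, mem_union, not_or]
      exact ⟨h1 hx.1, hx.2, fun h => (Finset.disjoint_left.1 h3) hx.1 (h5 h)⟩
    · intro x hx
      rw [mem_sdiff] at hx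
      rw [mem_sdiff, mem_union, not_or]
      exact ⟨h2 hx.1, fun h => (Finset.disjoint_left.1 h3) (h4 h) hx.1, hx.2⟩
    · exact (h3.mono_left sdiff_subset).mono_right sdiff_subset
  · intro c hc
    rw [mem_SS] at hc
    obtain ⟨h1, h2, h3⟩ := hc
    rw [mem_filter, mem_SS]
    refine ⟨⟨?_, ?_, ?_⟩, subset_union_left, subset_union_left⟩
    · exact union_subset hA (h1.trans sdiff_subset)
    · exact union_subset hB (h2.trans sdiff_subset)
    · rw [disjoint_union_left, disjoint_union_right, disjoint_union_right]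
      refine ⟨⟨hAB, ?_⟩, ?_, h3⟩
      · rw [Finset.disjoint_left]
        intro x hx hx2
        have := (mem_sdiff.1 (h2 hx2)).2
        exact this (mem_union_left _ hx)
      · rw [Finset.disjoint_left]
        intro x hx hx2
        have := (mem_sdiff.1 (h1 hx)).2
        exact this (mem_union_right _ hx2)
  · intro c hc
    rw [mem_filter] at hc
    obtain ⟨_, h4, h5⟩ := hc
    simp only [union_sdiff_of_subset h4, union_sdiff_of_subset h5]
  · intro c hc
    rw [mem_SS] at hc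
    obtain ⟨h1, h2, h3⟩ := hc
    have e1 : Disjoint c.1 A := by
      rw [Finset.disjoint_left]
      intro x hx hxA
      exact (mem_sdiff.1 (h1 hx)).2 (mem_union_left _ hxA)
    have e2 : Disjoint c.2 B := by
      rw [Finset.disjoint_left]
      intro x hx hxA
      exact (mem_sdiff.1 (h2 hx)).2 (mem_union_right _ hxA)
    simp only [union_sdiff_left, e1.sdiff_eq_left, e2.sdiff_eq_left]
  · intro c hc
    rw [mem_filter] at hc
    obtain ⟨_, h4, h5⟩ := hc
    have e1 : sg c.1 c.2 = sg A B + sg (c.1 \ A) (c.2 \ B) := by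
      rw [← sg_union disjoint_sdiff disjoint_sdiff, union_sdiff_of_subset h4,
        union_sdiff_of_subset h5]
    have e2 : c.1.card = A.card + (c.1 \ A).card := by
      rw [card_sdiff_of_subset h4]
      have := card_le_card h4
      omega
    have e3 : c.2.card = B.card + (c.2 \ B).card := by
      rw [card_sdiff_of_subset h5]
      have := card_le_card h5
      omega
    dsimp only
    rw [e1, e2, e3, ← mul_assoc, ← pow_add, sub_sub]
    congr 2
    omega

/-- Cauchy-Schwarz for finite weighted sums. -/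
theorem cs_sum {ι : Type*} (s : Finset ι) (w X : ι → ℝ≥0∞) :
    (∑ i ∈ s, w i * X i) ^ 2 ≤ (∑ i ∈ s, w i) * ∑ i ∈ s, w i * X i ^ 2 := by
  have h := ENNReal.inner_le_Lp_mul_Lq s (fun i => w i ^ (1 / 2 : ℝ))
    (fun i => w i ^ (1 / 2 : ℝ) * X i) (p := 2) (q := 2) Real.HolderConjugate.two_two
  have h1 : ∀ a : ℝ≥0∞, (a ^ (1 / 2 : ℝ)) ^ (2 : ℝ) = a := by
    intro a
    rw [← ENNReal.rpow_mul]
    norm_num
  have h2 : ∀ a : ℝ≥0∞, (a ^ (1 / 2 : ℝ)) ^ 2 = a := by
    intro a
    rw [← ENNReal.rpow_natCast, ← ENNReal.rpow_mul]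
    norm_num
  have e1 : ∀ i, w i ^ (1 / 2 : ℝ) * (w i ^ (1 / 2 : ℝ) * X i) = w i * X i := by
    intro i
    rw [← mul_assoc, ← ENNReal.rpow_add_of_nonneg _ _ (by norm_num) (by norm_num)]
    norm_num
  have e2 : ∀ i, (w i ^ (1 / 2 : ℝ) * X i) ^ (2 : ℝ) = w i * X i ^ 2 := by
    intro i
    rw [ENNReal.mul_rpow_of_nonneg _ _ (by norm_num), h1, ENNReal.rpow_two]
  simp only [e1, e2, h1] at h
  calc (∑ i ∈ s, w i * X i) ^ 2
      ≤ ((∑ i ∈ s, w i) ^ (1 / 2 : ℝ) * (∑ i ∈ s, w i * X i ^ 2) ^ (1 / 2 : ℝ)) ^ 2 := by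
        gcongr
    _ = _ := by rw [mul_pow, h2, h2]

open Classical in
theorem second_moment (P : Finset G) (U : G → ℝ≥0∞) {p : ℝ≥0∞} (hp : p ≠ 0) (hp' : p ≠ ⊤)
    (ν : Finset G × Finset G → ℝ≥0∞) (g : G) :
    (∑ T ∈ SS P, ν T *
        FF (fun _ => tern p) (P \ (T.1 ∪ T.2)) U (g - sg T.1 T.2)) ^ 2 ≤
      FF (fun _ => tern p) P U g * ∑ T ∈ SS P, ∑ T' ∈ SS P, ν T * ν T' *
        (if Disjoint T.1 T'.2 ∧ Disjoint T.2 T'.1 then
          p⁻¹ ^ ((T.1 ∩ T'.1).card + (T.2 ∩ T'.2).card) *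
            FF (fun _ => tern p) (P \ (T.1 ∪ T.2 ∪ (T'.1 ∪ T'.2))) U
              (g - sg (T.1 ∪ T'.1) (T.2 ∪ T'.2)) else 0) := by
  set w : Finset G × Finset G → ℝ≥0∞ := fun c => p ^ (c.1.card + c.2.card) * U (g - sg c.1 c.2)
    with hw
  set N : Finset G × Finset G → Finset G × Finset G → ℝ≥0∞ := fun T c =>
    if T.1 ⊆ c.1 ∧ T.2 ⊆ c.2 then p⁻¹ ^ (T.1.card + T.2.card) else 0 with hN
  have hpp : ∀ n : ℕ, p⁻¹ ^ n * p ^ n = 1 := by
    intro n
    rw [← mul_pow, ENNReal.inv_mul_cancel hp hp', one_pow]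
  have h1 : ∀ T ∈ SS P, FF (fun _ => tern p) (P \ (T.1 ∪ T.2)) U (g - sg T.1 T.2) =
      ∑ c ∈ SS P, w c * N T c := by
    intro T hT
    rw [mem_SS] at hT
    have := sum_above p P U g hT.1 hT.2.1 hT.2.2
    calc FF (fun _ => tern p) (P \ (T.1 ∪ T.2)) U (g - sg T.1 T.2)
        = p⁻¹ ^ (T.1.card + T.2.card) * (p ^ (T.1.card + T.2.card) *
            FF (fun _ => tern p) (P \ (T.1 ∪ T.2)) U (g - sg T.1 T.2)) := by
          rw [← mul_assoc, hpp, one_mul]
      _ = _ := by
          rw [← this, Finset.mul_sum]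
          refine Finset.sum_congr rfl fun c _ => ?_
          simp only [hN, hw]
          split_ifs
          · ring
          · simp
  have h2 : ∑ T ∈ SS P, ν T * FF (fun _ => tern p) (P \ (T.1 ∪ T.2)) U (g - sg T.1 T.2) =
      ∑ c ∈ SS P, w c * ∑ T ∈ SS P, ν T * N T c := by
    rw [Finset.sum_congr rfl fun T hT => by rw [h1 T hT]]
    simp only [Finset.mul_sum]
    rw [Finset.sum_comm]
    refine Finset.sum_congr rfl fun c _ => Finset.sum_congr rfl fun T _ => ?_
    ring
  rw [h2]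
  refine (cs_sum _ _ _).trans ?_
  rw [FF_tern_sum p P U g]
  refine mul_le_mul_right ?_ _
  apply le_of_eq
  have h3 : ∀ c ∈ SS P, w c * (∑ T ∈ SS P, ν T * N T c) ^ 2 =
      ∑ T ∈ SS P, ∑ T' ∈ SS P, ν T * ν T' * (w c * (N T c * N T' c)) := by
    intro c _
    rw [sq, Finset.sum_mul_sum, Finset.mul_sum]
    refine Finset.sum_congr rfl fun T _ => ?_
    rw [Finset.mul_sum]
    refine Finset.sum_congr rfl fun T' _ => ?_
    ring
  rw [Finset.sum_congr rfl h3, Finset.sum_comm]
  refine Finset.sum_congr rfl fun T hT => ?_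
  rw [Finset.sum_comm]
  refine Finset.sum_congr rfl fun T' hT' => ?_
  rw [← Finset.mul_sum]
  congr 1
  rw [mem_SS] at hT hT'
  obtain ⟨a1, a2, a3⟩ := hT
  obtain ⟨b1, b2, b3⟩ := hT'
  split_ifs with hd
  · have hAB : Disjoint (T.1 ∪ T'.1) (T.2 ∪ T'.2) := by
      rw [disjoint_union_left, disjoint_union_right, disjoint_union_right]
      exact ⟨⟨a3, hd.1⟩, hd.2.symm, b3⟩
    have h4 := sum_above p P U g (union_subset a1 b1) (union_subset a2 b2) hAB
    have e1 : T.1 ∪ T.2 ∪ (T'.1 ∪ T'.2) = T.1 ∪ T'.1 ∪ (T.2 ∪ T'.2) := by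
      ext x; simp only [mem_union]; tauto
    have hc1 := card_union_add_card_inter T.1 T'.1
    have hc2 := card_union_add_card_inter T.2 T'.2
    rw [e1]
    have e2 : (T.1.card + T.2.card) + (T'.1.card + T'.2.card) =
        ((T.1 ∩ T'.1).card + (T.2 ∩ T'.2).card) + ((T.1 ∪ T'.1).card + (T.2 ∪ T'.2).card) := by
      omega
    calc ∑ c ∈ SS P, w c * (N T c * N T' c)
        = p⁻¹ ^ ((T.1.card + T.2.card) + (T'.1.card + T'.2.card)) *
          ∑ c ∈ SS P, (if T.1 ∪ T'.1 ⊆ c.1 ∧ T.2 ∪ T'.2 ⊆ c.2 then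
            p ^ (c.1.card + c.2.card) * U (g - sg c.1 c.2) else 0) := by
          rw [Finset.mul_sum]
          refine Finset.sum_congr rfl fun c _ => ?_
          simp only [hN, hw, union_subset_iff]
          by_cases k1 : T.1 ⊆ c.1 <;> by_cases k2 : T.2 ⊆ c.2 <;> by_cases k3 : T'.1 ⊆ c.1 <;>
            by_cases k4 : T'.2 ⊆ c.2 <;> simp [k1, k2, k3, k4]
          rw [pow_add (p⁻¹)]
          ring
      _ = _ := by
          rw [h4, e2, pow_add (p⁻¹), ← mul_assoc, mul_assoc (p⁻¹ ^ _) (p⁻¹ ^ _) (p ^ _), hpp, mul_one]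
  · refine Finset.sum_eq_zero fun c hc => ?_
    rw [mem_SS] at hc
    simp only [hN]
    by_cases k1 : T.1 ⊆ c.1 ∧ T.2 ⊆ c.2
    · by_cases k2 : T'.1 ⊆ c.1 ∧ T'.2 ⊆ c.2
      · exact absurd ⟨(hc.2.2.mono_left k1.1).mono_right k2.2,
          ((hc.2.2.mono_left k2.1).mono_right k1.2).symm⟩ hd
      · simp [k2]
    · simp [k1]

end Pool.Agent.SP
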