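import Pool.Agent.SP.Defs

/-!
Extensions of Gaussian gases and the shift lemma.
-/

set_option autoImplicit false

namespace Pool.Agent.SP

open Finset
open scoped ENNReal
open Pool.Agent.Helper36.LL (conv dlt FF gw tern)

variable {G : Type*} [AddCommGroup G]

theorem Ext.refl (E : G → ℝ≥0∞) : Ext E E := by
  refine ⟨dlt, fun g => ?_⟩
  rw [tsum_eq_single (0 : G)]
  · simp [dlt]
  · intro x hx
    simp [dlt, hx]

theorem Ext.FF [DecidableEq G] {E M : G → ℝ≥0∞} (h : Ext E M) (w : G → ℤ → ℝ≥0∞)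
    (B : Finset G) : Ext E (FF w B M) := by
  induction B using Finset.induction_on with
  | empty => simpa using h
  | insert b B hb ih =>
    obtain ⟨ν, hν⟩ := ih
    refine ⟨conv (w b) b ν, fun g => ?_⟩
    rw [Pool.Agent.Helper36.LL.FF_insert w hb]
    unfold Pool.Agent.Helper36.LL.conv
    simp only [hν, ← ENNReal.tsum_mul_left, ← ENNReal.tsum_mul_right]
    rw [ENNReal.tsum_comm (f := fun (x : G) (j : ℤ) => w b j * ν (x - j • b) * E (g - x))]
    refine tsum_congr fun j => ?_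
    rw [← (Equiv.addRight (j • b)).tsum_eq (fun x => w b j * ν (x - j • b) * E (g - x))]
    refine tsum_congr fun x => ?_
    simp only [Equiv.coe_addRight, add_sub_cancel_right]
    rw [mul_assoc, sub_sub, add_comm x (j • b)]

/-- Cauchy-Schwarz for weighted sums. -/
theorem cs_tsum {ι : Type*} (u v : ι → ℝ≥0∞) :
    ∑' i, u i * v i ≤ (∑' i, u i ^ (2 : ℝ)) ^ (1 / 2 : ℝ) * (∑' i, v i ^ (2 : ℝ)) ^ (1 / 2 : ℝ) := by
  rw [ENNReal.tsum_eq_iSup_sum]
  refine iSup_le fun s => ?_
  refine (ENNReal.inner_le_Lp_mul_Lq s u v (p := 2) (q := 2)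
    (Real.HolderConjugate.two_two)).trans ?_
  gcongr
  · exact ENNReal.sum_le_tsum s
  · exact ENNReal.sum_le_tsum s

theorem ext_gi {E M ν : G → ℝ≥0∞} (hE : GI E) (hM : ∀ g, M g = ∑' x, ν x * E (g - x)) (g f : G) :
    (M (g - f) * E f) ^ 2 ≤ M g * M (g - f - f) * E 0 ^ 2 := by
  have h1 : ∀ x, ν x * E (g - f - x) * E f ≤
      (ν x * E (g - x)) ^ (1 / 2 : ℝ) * (ν x * E (g - f - f - x)) ^ (1 / 2 : ℝ) * E 0 := by
    intro x
    have h2 := hE (g - f - x) f
    have e1 : g - f - x + f = g - x := by abel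
    have e2 : g - f - x - f = g - f - f - x := by abel
    rw [e1, e2] at h2
    have h3 : E (g - f - x) * E f ≤ (E (g - x) * E (g - f - f - x)) ^ (1 / 2 : ℝ) * E 0 := by
      have h4 := ENNReal.rpow_le_rpow h2 (show (0 : ℝ) ≤ 1 / 2 by norm_num)
      rw [ENNReal.mul_rpow_of_nonneg _ _ (show (0 : ℝ) ≤ 1 / 2 by norm_num)] at h4
      rw [← ENNReal.rpow_natCast, ← ENNReal.rpow_natCast, ← ENNReal.rpow_mul,
        ← ENNReal.rpow_mul] at h4
      norm_num at h4
      simpa using h4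
    calc ν x * E (g - f - x) * E f = ν x * (E (g - f - x) * E f) := by ring
      _ ≤ ν x * ((E (g - x) * E (g - f - f - x)) ^ (1 / 2 : ℝ) * E 0) := by gcongr
      _ = _ := by
        have h5 : ν x = ν x ^ (1 / 2 : ℝ) * ν x ^ (1 / 2 : ℝ) := by
          rw [← ENNReal.rpow_add_of_nonneg _ _ (by norm_num) (by norm_num)]
          norm_num
        rw [ENNReal.mul_rpow_of_nonneg _ _ (show (0 : ℝ) ≤ 1 / 2 by norm_num),
          ENNReal.mul_rpow_of_nonneg _ _ (show (0 : ℝ) ≤ 1 / 2 by norm_num),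
          ENNReal.mul_rpow_of_nonneg _ _ (show (0 : ℝ) ≤ 1 / 2 by norm_num)]
        conv_lhs => rw [h5]
        ring
  have h6 : M (g - f) * E f ≤ (M g) ^ (1 / 2 : ℝ) * (M (g - f - f)) ^ (1 / 2 : ℝ) * E 0 := by
    rw [hM (g - f), ← ENNReal.tsum_mul_right]
    refine (ENNReal.tsum_le_tsum h1).trans ?_
    rw [ENNReal.tsum_mul_right]
    gcongr
    refine (cs_tsum _ _).trans ?_
    rw [hM g, hM (g - f - f)]
    simp only [← ENNReal.rpow_mul]
    norm_num
  have h7 : ∀ a : ℝ≥0∞, (a ^ (1 / 2 : ℝ)) ^ 2 = a := by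
    intro a
    rw [← ENNReal.rpow_natCast, ← ENNReal.rpow_mul]
    norm_num
  calc (M (g - f) * E f) ^ 2 ≤ ((M g) ^ (1 / 2 : ℝ) * (M (g - f - f)) ^ (1 / 2 : ℝ) * E 0) ^ 2 := by
        gcongr
    _ = _ := by rw [mul_pow, mul_pow, h7, h7]

/-- The second difference bound. -/
theorem second_diff (l : ℕ → ℝ) (s : ℝ) (h : ∀ j, l (j + 2) - 2 * l (j + 1) + l j ≤ 2 * s) (n : ℕ) :
    l n ≤ l 0 + n * (l 1 - l 0) + s * n * (n - 1) := by
  have hd : ∀ j : ℕ, l (j + 1) - l j ≤ l 1 - l 0 + 2 * s * j := by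
    intro j
    induction j with
    | zero => simp
    | succ j ih =>
      have := h j
      push_cast
      linarith
  induction n with
  | zero => simp
  | succ n ih =>
    have := hd n
    push_cast
    nlinarith

theorem shift_real {a : ℕ → ℝ} {A : ℝ} (hA : 0 < A) (h0 : ∀ j, 0 ≤ a j) (hle : ∀ j, a j ≤ A)
    {s : ℝ} (hs : 0 < s) (h : ∀ j, a (j + 1) ^ 2 * Real.exp (-(2 * s)) ≤ a j * a (j + 2))
    {t : ℝ} (ht : 8 * s ≤ t) :
    a 1 ≤ Real.exp t * a 0 ∨ a 1 ≤ Real.exp (-(t ^ 2 / (8 * s))) * A := by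
  rcases (h0 1).eq_or_lt with h1 | h1
  · left
    rw [← h1]
    exact mul_nonneg (Real.exp_pos t).le (h0 0)
  have hpos0 : ∀ j, 0 < a (j + 1) → 0 < a j ∧ 0 < a (j + 2) := by
    intro j hj
    have h2 : 0 < a j * a (j + 2) :=
      lt_of_lt_of_le (mul_pos (pow_pos hj 2) (Real.exp_pos _)) (h j)
    constructor
    · exact pos_of_mul_pos_left h2 (h0 (j + 2)) 
    · exact pos_of_mul_pos_right h2 (h0 j)
  have hpos1 : ∀ j, 0 < a (j + 1) := by
    intro j
    induction j with
    | zero => exact h1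
    | succ j ih => exact (hpos0 j ih).2
  have hpos : ∀ j, 0 < a j := by
    intro j
    cases j with
    | zero => exact (hpos0 0 h1).1
    | succ j => exact hpos1 j
  set l : ℕ → ℝ := fun j => Real.log A - Real.log (a j) with hl
  have hl0 : ∀ j, 0 ≤ l j := fun j => by
    simp only [hl, sub_nonneg]
    exact Real.log_le_log (hpos j) (hle j)
  have hsd : ∀ j, l (j + 2) - 2 * l (j + 1) + l j ≤ 2 * s := by
    intro j
    have h3 := Real.log_le_log (mul_pos (pow_pos (hpos (j + 1)) 2) (Real.exp_pos _)) (h j)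
    rw [Real.log_mul (pow_pos (hpos (j + 1)) 2).ne' (Real.exp_pos _).ne', Real.log_exp,
      Real.log_pow, Real.log_mul (hpos j).ne' (hpos (j + 2)).ne'] at h3
    push_cast at h3
    simp only [hl]
    linarith
  have hkey := second_diff l s hsd
  have ht0 : 0 < t := by linarith
  have hal : ∀ j, a j = Real.exp (- l j) * A := by
    intro j
    simp only [hl, neg_sub, Real.exp_sub, Real.exp_log hA, Real.exp_log (hpos j)]
    field_simp
  rcases le_or_gt (4 * s * l 0) (t ^ 2) with hc | hc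
  · left
    have hn := Nat.le_ceil (t / (2 * s))
    have hn' := (Nat.ceil_lt_add_one (show 0 ≤ t / (2 * s) by positivity)).le
    set n := ⌈t / (2 * s)⌉₊
    have h4 := hkey n
    have h5 := hl0 n
    have h6 : t / 2 ≤ s * n := by
      rw [div_le_iff₀ (by positivity)] at hn
      linarith
    have h7 : s * (n - 1) ≤ t / 2 := by
      have : (n : ℝ) - 1 ≤ t / (2 * s) := by linarith
      rw [le_div_iff₀ (by positivity)] at this
      linarith
    have hn0 : 0 < (n : ℝ) := by
      by_contra hneg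
      push Not at hneg
      nlinarith
    have h8 : l 0 ≤ n * (t / 2) := by
      have : 4 * s * l 0 ≤ 4 * s * (n * (t / 2)) := by
        nlinarith
      exact le_of_mul_le_mul_left this (by positivity)
    have h9 : l 0 - t ≤ l 1 := by
      have : n * (l 0 - t) ≤ n * l 1 := by
        nlinarith
      exact le_of_mul_le_mul_left this hn0
    rw [hal 1, hal 0, ← mul_assoc, ← Real.exp_add]
    gcongr
    linarith
  · right
    have h4 := hkey 4
    have h5 := hl0 4
    have h6 : 2 * t < l 0 := by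
      have h7 : 4 * s * (2 * t) < 4 * s * l 0 := by nlinarith
      exact lt_of_mul_lt_mul_left h7 (by positivity)
    push_cast at h4
    have h8 : l 0 / 2 ≤ l 1 := by nlinarith
    have h9 : t ^ 2 / (8 * s) ≤ l 1 := by
      rw [div_le_iff₀ (by positivity)]
      nlinarith
    rw [hal 1]
    gcongr

theorem shift {E M : G → ℝ≥0∞} (hE : GI E) (hE0 : Fin0 E) (hM : Ext E M) (hM0 : Fin0 M)
    (hle : ∀ g, M g ≤ M 0) {s : ℝ} (hs : 0 < s) {f : G}
    (hf : Real.exp (-s) * (E 0).toReal ≤ (E f).toReal) (h : G) {t : ℝ} (ht : 8 * s ≤ t) :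
    (M (h - f)).toReal ≤ Real.exp t * (M h).toReal ∨
      (M (h - f)).toReal ≤ Real.exp (-(t ^ 2 / (8 * s))) * (M 0).toReal := by
  obtain ⟨ν, hν⟩ := hM
  have hEp : 0 < (E 0).toReal := ENNReal.toReal_pos hE0.1 hE0.2
  have hfp : 0 < (E f).toReal := lt_of_lt_of_le (mul_pos (Real.exp_pos _) hEp) hf
  have hft : E f ≠ ⊤ := fun h => by simp [h] at hfp
  have hMt : ∀ g, M g ≠ ⊤ := fun g => ne_top_of_le_ne_top hM0.2 (hle g)
  have key : ∀ g, (M (g - f)).toReal ^ 2 * Real.exp (-(2 * s)) ≤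
      (M g).toReal * (M (g - f - f)).toReal := by
    intro g
    have h1 := ENNReal.toReal_mono
      (ENNReal.mul_ne_top (ENNReal.mul_ne_top (hMt g) (hMt _)) (ENNReal.pow_ne_top hE0.2))
      (ext_gi hE hν g f)
    simp only [ENNReal.toReal_mul, ENNReal.toReal_pow] at h1
    have h2 : Real.exp (-(2 * s)) = Real.exp (-s) ^ 2 := by
      rw [← Real.exp_nat_mul]; push_cast; ring_nf
    rw [h2]
    have h3 : (Real.exp (-s) * (E 0).toReal) ^ 2 ≤ (E f).toReal ^ 2 := by
      have := mul_pos (Real.exp_pos (-s)) hEp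
      gcongr
    have h4 : (M (g - f)).toReal ^ 2 * Real.exp (-s) ^ 2 * (E 0).toReal ^ 2 ≤
        (M g).toReal * (M (g - f - f)).toReal * (E 0).toReal ^ 2 := by
      refine le_trans ?_ h1
      have h5 : 0 ≤ (M (g - f)).toReal ^ 2 := by positivity
      have h6 := mul_le_mul_of_nonneg_left h3 h5
      nlinarith
    exact le_of_mul_le_mul_right h4 (by positivity)
  have e : ∀ j : ℕ, h - (j + 1 : ℕ) • f = h - j • f - f := by
    intro j
    rw [succ_nsmul]
    abel
  have := shift_real (a := fun j => (M (h - j • f)).toReal) (A := (M 0).toReal)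
    (ENNReal.toReal_pos hM0.1 hM0.2) (fun j => ENNReal.toReal_nonneg)
    (fun j => ENNReal.toReal_mono hM0.2 (hle _)) hs
    (fun j => by
      have := key (h - j • f)
      rw [← e, ← e] at this
      exact this) ht
  simpa using this

end Pool.Agent.SP
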