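import Pool.Agent.SP.Pd
import Pool.Agent.SP.Virt
import Pool.Agent.SP.Cvx

/-!
Sizes from the invariants of the closure process.
-/

set_option autoImplicit false

namespace Pool.Agent.SP

open Finset
open scoped ENNReal
open Pool.Agent.Helper36.LL (conv dlt FF gw tern)

variable {G : Type*} [AddCommGroup G] [DecidableEq G]

namespace Sz

theorem inv64_le : (64⁻¹ : ℝ≥0∞) ≤ 2⁻¹ := ENNReal.inv_le_inv.2 (by norm_num)

theorem inv8_le : (8⁻¹ : ℝ≥0∞) ≤ 2⁻¹ := ENNReal.inv_le_inv.2 (by norm_num)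

theorem inv4_le : (4⁻¹ : ℝ≥0∞) ≤ 2⁻¹ := ENNReal.inv_le_inv.2 (by norm_num)

omit [DecidableEq G] in
theorem toReal_pos {M : G → ℝ≥0∞} (h : Fin0 M) : 0 < (M 0).toReal :=
  ENNReal.toReal_pos h.1 h.2

/-- The main inequality. -/
theorem key {k : ℕ} (hk : 1 ≤ k) {V : Finset G} (hV : Press k V) {S : St G}
    (h : Inv k V S) (i : ℕ) :
    60 * (k : ℝ) * ((S.W (i + 1)).card / 2 ^ (20 * k)) +
      (S.l i).length * (1 / (2400 * (k : ℝ)) - 60 * k * (600 / (2 ^ 28 * (k : ℝ) ^ 2))) ≤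
    (60 * (k : ℝ) + 1) * ((S.W i).card / 2 ^ (60 * k) + 15 * k * (S.W (i + 2)).card) := by
  have hk0 : (0 : ℝ) ≤ k := Nat.cast_nonneg k
  have hPV : PD (VV (yb k) (S.l i)) := PD.VV (yb_lt hk) _
  have hFV : Fin0 (VV (yb k) (S.l i)) := Fin0.VV (yb_lt hk) _
  have hPE : PD (S.E k i) := PD.FF_gw hPV (xs_lt k) _
  have hFE : Fin0 (S.E k i) := Fin0.FF_gw hPV hFV (xs_lt k) _
  have hPU : PD (S.U k i) := PD.FF_tern hPE inv8_le _
  have hFU : Fin0 (S.U k i) := Fin0.FF_tern hPE hFE inv8_le _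
  have hFM : Fin0 (S.M k i) := Fin0.FF_tern hPU hFU inv64_le _
  have hdis : Disjoint (S.P i) (S.P (i + 1)) := by
    rw [Finset.disjoint_left]
    intro x hx hx'
    exact (Finset.mem_sdiff.1 hx).2 (Finset.mem_sdiff.1 hx').1
  have hYi : S.P i ∪ S.P (i + 1) ⊆ S.W i := by
    apply Finset.union_subset Finset.sdiff_subset
    exact Finset.sdiff_subset.trans (h.anti (Nat.le_succ i))
  have hYV : S.P i ∪ S.P (i + 1) ⊆ V := by
    rw [← h.w0]
    exact hYi.trans (h.anti (Nat.zero_le i))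
  have hFT : Fin0 (FF (fun _ => tern 4⁻¹) (S.P i ∪ S.P (i + 1)) (S.E k i)) :=
    Fin0.FF_tern hPE hFE inv4_le _
  have hcY : (((S.P i ∪ S.P (i + 1)).card : ℕ) : ℝ) ≤ (S.W i).card := by
    exact_mod_cast Finset.card_le_card hYi
  have hH := holder_scale hPE hFE (S.P i) (S.P (i + 1)) hdis (60 * k)
  have hD := press_dom hk hV (S.W (i + 2)) (S.l i) hYV
  have hX := h.invX i
  have hB := h.invB i
  have hlx := log_thg_xs hk
  have hMeq : FF (fun _ => tern 64⁻¹) (S.P i) (FF (fun _ => tern 8⁻¹) (S.P (i + 1)) (S.E k i)) =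
      S.M k i := rfl
  have hEeq : FF (fun _ => gw (xs k)) (S.W (i + 2)) (VV (yb k) (S.l i)) = S.E k i := rfl
  rw [hMeq] at hH
  rw [hEeq] at hD
  have hM0 := toReal_pos hFM
  have hE0 := toReal_pos hFE
  have hT0 := toReal_pos hFT
  set m := (S.M k i 0).toReal with hm
  set e := (S.E k i 0).toReal with he
  set T := (FF (fun _ => tern 4⁻¹) (S.P i ∪ S.P (i + 1)) (S.E k i) 0).toReal with hT
  set Y := (((S.P i ∪ S.P (i + 1)).card : ℕ) : ℝ) with hYdef
  set r := (((S.l i).length : ℕ) : ℝ) with hr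
  set x1 := (((S.W (i + 1)).card : ℕ) : ℝ) with hx1
  set x2 := (((S.W (i + 2)).card : ℕ) : ℝ) with hx2
  have hY0 : 0 ≤ Y := Nat.cast_nonneg _
  have hx20 : 0 ≤ x2 := Nat.cast_nonneg _
  have hr0 : 0 ≤ r := Nat.cast_nonneg _
  have hthx : 0 < (thg (xs k)).toReal :=
    ENNReal.toReal_pos (ne_of_gt (lt_of_lt_of_le one_pos (one_le_thg _))) (thg_ne_top (xs_lt k))
  have hthy : 0 < (thg (yb k)).toReal :=
    ENNReal.toReal_pos (ne_of_gt (lt_of_lt_of_le one_pos (one_le_thg _))) (thg_ne_top (yb_lt hk))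
  -- logarithms
  have hlH : ((60 * k : ℕ) + 1 : ℝ) * Real.log m ≤
      (60 * k : ℕ) * Real.log T + (Real.log e + Y / 2 ^ (60 * k + 2)) := by
    have h1 := Real.log_le_log (pow_pos hM0 _) hH
    rw [Real.log_pow, Real.log_mul (pow_pos hT0 _).ne' (mul_pos hE0 (Real.exp_pos _)).ne',
      Real.log_pow, Real.log_mul hE0.ne' (Real.exp_pos _).ne', Real.log_exp] at h1
    push_cast at h1 ⊢
    linarith
  have hlD : Real.log T ≤ Y / 2 ^ (60 * k) + x2 * (15 * k) + r * Real.log (thg (yb k)).toReal := by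
    have h1 := Real.log_le_log hT0 hD
    rw [Real.log_mul (mul_pos (Real.exp_pos _) (pow_pos hthx _)).ne' (pow_pos hthy _).ne',
      Real.log_mul (Real.exp_pos _).ne' (pow_pos hthx _).ne', Real.log_pow, Real.log_pow,
      Real.log_exp] at h1
    have h2 : x2 * Real.log (thg (xs k)).toReal ≤ x2 * (15 * k) :=
      mul_le_mul_of_nonneg_left hlx hx20
    linarith
  have hq : (2 : ℝ) ^ (60 * k + 2) = 4 * 2 ^ (60 * k) := by rw [pow_add]; ring
  rw [hq] at hlH
  have hτ : 0 < (2 : ℝ) ^ (60 * k) := by positivity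
  have hY4 : Y / (4 * 2 ^ (60 * k)) = Y / 2 ^ (60 * k) / 4 := by
    field_simp
  rw [hY4] at hlH
  have hYx : Y / 2 ^ (60 * k) ≤ ((S.W i).card : ℝ) / 2 ^ (60 * k) :=
    div_le_div_of_nonneg_right hcY hτ.le
  have hYn : 0 ≤ Y / 2 ^ (60 * k) := by positivity
  push_cast at hlH
  have hlD' := mul_le_mul_of_nonneg_left hlD (by positivity : (0 : ℝ) ≤ 60 * k)
  have hX' := mul_le_mul_of_nonneg_left hX (by positivity : (0 : ℝ) ≤ 60 * k)
  have hYx' := mul_le_mul_of_nonneg_left hYx (by positivity : (0 : ℝ) ≤ 60 * k + 1)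
  generalize Real.log m = X at *
  generalize Real.log e = Z at *
  generalize Real.log T = L at *
  generalize Real.log (thg (yb k)).toReal = a at *
  generalize Y / 2 ^ (60 * k) = y at *
  generalize ((S.W i).card : ℝ) / 2 ^ (60 * k) = y' at *
  generalize x1 / 2 ^ (20 * k) = u at *
  generalize (600 : ℝ) / (2 ^ 28 * (k : ℝ) ^ 2) = ε at *
  generalize 1 / (2400 * (k : ℝ)) = δ at *
  nlinarith

theorem two_pow_ge (k : ℕ) : 240 * (k : ℝ) ≤ 2 ^ (20 * k) := by
  have h1 : k < 2 ^ k := Nat.lt_two_pow_self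
  have h1' : (k : ℝ) ≤ 2 ^ k := by exact_mod_cast h1.le
  rcases Nat.eq_zero_or_pos k with h0 | h0
  · subst h0
    norm_num
  have h2 : (2 : ℝ) ^ (20 * k) = 2 ^ (19 * k) * 2 ^ k := by rw [← pow_add]; congr 1; ring
  have h3 : (240 : ℝ) ≤ 2 ^ (19 * k) := by
    calc (240 : ℝ) ≤ 2 ^ 19 := by norm_num
      _ ≤ 2 ^ (19 * k) := pow_le_pow_right₀ (by norm_num) (by omega)
  rw [h2]
  exact mul_le_mul h3 h1' (Nat.cast_nonneg _) (by positivity)

/-- The coefficient of the number of virtual digits. -/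
theorem coef {k : ℕ} (hk : 1 ≤ k) :
    2 / 10 ^ 4 / (k : ℝ) ≤
      1 / (2400 * (k : ℝ)) - 60 * k * (600 / (2 ^ 28 * (k : ℝ) ^ 2)) := by
  have hk0 : (0 : ℝ) < k := by exact_mod_cast hk
  have h1 : 1 / (2400 * (k : ℝ)) - 60 * k * (600 / (2 ^ 28 * (k : ℝ) ^ 2)) =
      (1 / 2400 - 36000 / 2 ^ 28) / k := by
    field_simp
    ring
  rw [h1]
  apply div_le_div_of_nonneg_right _ hk0.le
  norm_num

theorem step {k : ℕ} (hk : 1 ≤ k) {V : Finset G} (hV : Press k V) {S : St G}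
    (h : Inv k V S) (m : ℕ) (hm : S.W m = ∅) : ∀ n i : ℕ, m ≤ i + n →
    2 ^ (40 * k) * ((S.W (i + 1)).card : ℝ) ≤ 4 * (S.W i).card := by
  intro n
  induction n with
  | zero =>
    intro i hi
    have h1 : S.W (i + 1) = ∅ := by
      apply Finset.subset_empty.1
      rw [← hm]
      exact h.anti (by omega)
    rw [h1, Finset.card_empty]
    push_cast
    have : (0 : ℝ) ≤ ((S.W i).card : ℝ) := Nat.cast_nonneg _
    linarith
  | succ n ih =>
    intro i hi
    have h2 := ih (i + 1) (by omega)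
    have h3 := key hk hV h i
    have hk0 : (1 : ℝ) ≤ k := by exact_mod_cast hk
    have h4 := coef hk
    have h5 : 0 ≤ ((S.l i).length : ℝ) *
        (1 / (2400 * (k : ℝ)) - 60 * k * (600 / (2 ^ 28 * (k : ℝ) ^ 2))) := by
      apply mul_nonneg (Nat.cast_nonneg _)
      exact le_trans (by positivity) h4
    have e1 : (2 : ℝ) ^ (60 * k) = 2 ^ (20 * k) * (2 ^ (20 * k) * 2 ^ (20 * k)) := by
      rw [← pow_add, ← pow_add]; congr 1; ring
    have e2 : (2 : ℝ) ^ (40 * k) = 2 ^ (20 * k) * 2 ^ (20 * k) := by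
      rw [← pow_add]; congr 1; ring
    have hp := two_pow_ge k
    have hp0 : (0 : ℝ) < 2 ^ (20 * k) := by positivity
    have a0 : (0 : ℝ) ≤ ((S.W i).card : ℝ) := Nat.cast_nonneg _
    have a1 : (0 : ℝ) ≤ ((S.W (i + 1)).card : ℝ) := Nat.cast_nonneg _
    have a2 : (0 : ℝ) ≤ ((S.W (i + 2)).card : ℝ) := Nat.cast_nonneg _
    rw [e1] at h3
    rw [e2] at h2 ⊢
    have h6 : i + 1 + 1 = i + 2 := rfl
    rw [h6] at h2
    generalize (2 : ℝ) ^ (20 * k) = p at *
    generalize ((S.W i).card : ℝ) = x0 at *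
    generalize ((S.W (i + 1)).card : ℝ) = x1 at *
    generalize ((S.W (i + 2)).card : ℝ) = x2 at *
    -- 60 k (x1 / p) ≤ (60 k + 1) (x0 / p ^ 3 + 15 k x2)
    have h7 : 60 * (k : ℝ) * (x1 / p) ≤ (60 * k + 1) * (x0 / (p * (p * p)) + 15 * k * x2) := by
      linarith
    have hn : 0 ≤ x0 / (p * (p * p)) + 15 * k * x2 := by positivity
    have h8 : x1 / p ≤ 2 * (x0 / (p * (p * p)) + 15 * k * x2) := by
      have : 60 * (k : ℝ) * (x1 / p) ≤ 60 * k * (2 * (x0 / (p * (p * p)) + 15 * k * x2)) := by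
        nlinarith
      exact le_of_mul_le_mul_left this (by positivity)
    have h9 : x1 * (p * p) ≤ 2 * x0 + 30 * k * (p * p * x2) * p := by
      have := mul_le_mul_of_nonneg_right h8 (by positivity : 0 ≤ p * (p * p))
      have e3 : x1 / p * (p * (p * p)) = x1 * (p * p) := by field_simp
      have e4 : 2 * (x0 / (p * (p * p)) + 15 * k * x2) * (p * (p * p)) =
          2 * x0 + 30 * k * (p * p * x2) * p := by field_simp; ring
      rw [e3, e4] at this
      exact this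
    have h10 : 30 * k * (p * p * x2) * p ≤ 30 * k * (4 * x1) * p := by
      apply mul_le_mul_of_nonneg_right _ hp0.le
      apply mul_le_mul_of_nonneg_left h2 (by positivity)
    have h11 : 30 * k * (4 * x1) * p ≤ x1 * (p * p) / 2 := by
      have := mul_le_mul_of_nonneg_right hp (by positivity : 0 ≤ x1 * p / 2)
      nlinarith
    nlinarith

end Sz

theorem inv_half {k : ℕ} (hk : 100 ≤ k) {V : Finset G} (hV : Press k V) {S : St G}
    (h : Inv k V S) (i : ℕ) : 2 * (S.W (i + 1)).card ≤ (S.W i).card := by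
  obtain ⟨m, hm⟩ := h.fin
  have h1 := Sz.step (by omega : 1 ≤ k) hV h m hm m i (by omega)
  have h2 : (8 : ℝ) ≤ 2 ^ (40 * k) := by
    calc (8 : ℝ) ≤ 2 ^ 3 := by norm_num
      _ ≤ 2 ^ (40 * k) := pow_le_pow_right₀ (by norm_num) (by omega)
  have a1 : (0 : ℝ) ≤ ((S.W (i + 1)).card : ℝ) := Nat.cast_nonneg _
  have h3 : 8 * ((S.W (i + 1)).card : ℝ) ≤ 4 * (S.W i).card :=
    (mul_le_mul_of_nonneg_right h2 a1).trans h1
  have h4 : 8 * (S.W (i + 1)).card ≤ 4 * (S.W i).card := by exact_mod_cast h3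
  omega

theorem inv_len {k : ℕ} (hk : 100 ≤ k) {V : Finset G} (hV : Press k V) {S : St G}
    (h : Inv k V S) (i : ℕ) : (S.l i).length ≤ 10 ^ 8 * k ^ 3 * (S.W i).card := by
  have hk1 : 1 ≤ k := by omega
  have hk0 : (1 : ℝ) ≤ k := by exact_mod_cast hk1
  have h3 := Sz.key hk1 hV h i
  have h4 := Sz.coef hk1
  have hc : ((S.W (i + 2)).card : ℝ) ≤ (S.W i).card := by
    exact_mod_cast Finset.card_le_card (h.anti (by omega : i ≤ i + 2))
  have a0 : (0 : ℝ) ≤ ((S.W i).card : ℝ) := Nat.cast_nonneg _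
  have h5 : ((S.l i).length : ℝ) * (2 / 10 ^ 4 / (k : ℝ)) ≤
      ((S.l i).length : ℝ) *
        (1 / (2400 * (k : ℝ)) - 60 * k * (600 / (2 ^ 28 * (k : ℝ) ^ 2))) :=
    mul_le_mul_of_nonneg_left h4 (Nat.cast_nonneg _)
  have h6 : 0 ≤ 60 * (k : ℝ) * (((S.W (i + 1)).card : ℝ) / 2 ^ (20 * k)) := by positivity
  have h7 : ((S.W i).card : ℝ) / 2 ^ (60 * k) ≤ (S.W i).card :=
    div_le_self a0 (one_le_pow₀ (by norm_num))
  have h8 : ((S.W i).card : ℝ) / 2 ^ (60 * k) + 15 * k * (S.W (i + 2)).card ≤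
      16 * k * (S.W i).card := by
    have : 15 * (k : ℝ) * (S.W (i + 2)).card ≤ 15 * k * (S.W i).card :=
      mul_le_mul_of_nonneg_left hc (by positivity)
    nlinarith
  have h9 : ((S.l i).length : ℝ) * (2 / 10 ^ 4 / (k : ℝ)) ≤
      61 * k * (16 * k * (S.W i).card) := by
    have h10 : (60 * (k : ℝ) + 1) *
        (((S.W i).card : ℝ) / 2 ^ (60 * k) + 15 * k * (S.W (i + 2)).card) ≤
        61 * k * (16 * k * (S.W i).card) :=
      mul_le_mul (by linarith) h8 (by positivity) (by positivity)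
    linarith
  have h11 : ((S.l i).length : ℝ) ≤ 61 * k * (16 * k * (S.W i).card) * (5000 * k) := by
    have := mul_le_mul_of_nonneg_right h9 (by positivity : 0 ≤ 5000 * (k : ℝ))
    have e : ((S.l i).length : ℝ) * (2 / 10 ^ 4 / (k : ℝ)) * (5000 * k) = (S.l i).length := by
      have : (k : ℝ) ≠ 0 := by positivity
      field_simp
      ring
    rw [e] at this
    exact this
  have h12 : ((S.l i).length : ℝ) ≤ 10 ^ 8 * k ^ 3 * (S.W i).card := by
    have : 0 ≤ (k : ℝ) ^ 3 * (S.W i).card := by positivity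
    nlinarith
  exact_mod_cast h12

end Pool.Agent.SP
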