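import Pool.Agent.Helper36.LL.Kern

/-!
Definitions for the theorem on short relations (mixed Gaussian and ternary gases).
-/

set_option autoImplicit false

namespace Pool.Agent.SP

open Finset
open scoped ENNReal
open Pool.Agent.Helper36.LL (conv dlt FF gw tern)

variable {G : Type*} [AddCommGroup G]

/-- Virtual Gaussian digits with base `y` at the elements of the list `l`. -/
noncomputable def VV (y : ℝ≥0∞) (l : List G) : G → ℝ≥0∞ :=
  l.foldr (fun a M => conv (gw y) a M) dlt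

/-- The sum of a signed set, given by its positive part `A` and its negative part `B`. -/
def sg (A B : Finset G) : G := ∑ x ∈ A, x - ∑ x ∈ B, x

/-- The defect `1 - M x / M 0`. -/
noncomputable def kap (M : G → ℝ≥0∞) (x : G) : ℝ := 1 - (M x).toReal / (M 0).toReal

/-- Autocorrelations. -/
def PD (M : G → ℝ≥0∞) : Prop :=
  ∃ (C : Type) (F : C → G → ℝ≥0∞), ∀ g, M g = ∑' c, ∑' h, F c h * F c (h + g)

/-- The multiplicative inequality of Gaussian gases. -/
def GI (E : G → ℝ≥0∞) : Prop :=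
  ∀ x y : G, (E x * E y) ^ 2 ≤ E (x + y) * E (x - y) * E 0 ^ 2

/-- `M` is the convolution of `E` with a nonnegative function. -/
def Ext (E M : G → ℝ≥0∞) : Prop := ∃ ν : G → ℝ≥0∞, ∀ g, M g = ∑' x, ν x * E (g - x)

/-- Finite and nonzero at zero. -/
def Fin0 (M : G → ℝ≥0∞) : Prop := M 0 ≠ 0 ∧ M 0 ≠ ⊤

/-- The sum over the integers of the Gaussian weights. -/
noncomputable def thg (y : ℝ≥0∞) : ℝ≥0∞ := ∑' j : ℤ, gw y j

section dec

variable [DecidableEq G]

/-- The gas with palette `P` (weight `1/64`) over `U`. -/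
noncomputable def MP (P : Finset G) (U : G → ℝ≥0∞) : G → ℝ≥0∞ := FF (fun _ => tern 64⁻¹) P U

/-- The hypotheses on one level: palette `P`, Gaussian part `E`, everything else `U`. -/
structure Lev (k : ℕ) (P : Finset G) (E U : G → ℝ≥0∞) : Prop where
  gi : GI E
  e0 : Fin0 E
  ext : Ext E U
  pd : PD U
  u0 : Fin0 U
  light : ∀ F ⊆ P, F.Nonempty → F.card ≤ 2 ^ k →
    FF (fun _ => tern 8⁻¹) F (MP (P \ F) U) 0 ≤
      ENNReal.ofReal (Real.exp (F.card / 2 ^ (20 * k))) * MP P U 0
  shut : ∀ a, kap (MP P U) a ≤ 1 / (2 ^ 28 * (k : ℝ) ^ 3) →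
    Real.exp (-(1 / (100 * (k : ℝ)))) * (E 0).toReal ≤ (E a).toReal

/-- No nonempty part of the signed set `T` has defect at most `s`. -/
def Free (M : G → ℝ≥0∞) (s : ℝ) (T : Finset G × Finset G) : Prop :=
  ∀ A ⊆ T.1, ∀ B ⊆ T.2, (A ∪ B).Nonempty → s < kap M (sg A B)

open Classical in
/-- The signed sets `T` in `P`, nonempty, with at most `n` elements, `16 s`-free, with `g - ST`
of defect at most `s`. -/
noncomputable def Fam (M : G → ℝ≥0∞) (P : Finset G) (n : ℕ) (s : ℝ) (g : G) :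
    Finset (Finset G × Finset G) :=
  (P.powerset ×ˢ P.powerset).filter (fun T => Disjoint T.1 T.2 ∧ (T.1 ∪ T.2).Nonempty ∧
    (T.1 ∪ T.2).card ≤ n ∧ Free M (16 * s) T ∧ kap M (g - sg T.1 T.2) ≤ s)

/-- The signed sets in `P`. -/
noncomputable def SS (P : Finset G) : Finset (Finset G × Finset G) :=
  (P.powerset ×ˢ P.powerset).filter (fun T => Disjoint T.1 T.2)

end dec

/-- The base of the strong Gaussian digits. -/
noncomputable def xs (k : ℕ) : ℝ≥0∞ := ENNReal.ofReal (1 - 1 / 2 ^ (20 * k))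

/-- The base of the virtual Gaussian digits. -/
noncomputable def yb (k : ℕ) : ℝ≥0∞ := ENNReal.ofReal (Real.exp (-(1 / (100 * (k : ℝ)))))

/-- A state of the closure process. -/
structure St (G : Type*) where
  W : ℕ → Finset G
  l : ℕ → List G

variable [DecidableEq G]

/-- The palette of a level. -/
def St.P (S : St G) (i : ℕ) : Finset G := S.W i \ S.W (i + 1)

/-- The Gaussian part of a level. -/
noncomputable def St.E (k : ℕ) (S : St G) (i : ℕ) : G → ℝ≥0∞ :=
  FF (fun _ => gw (xs k)) (S.W (i + 2)) (VV (yb k) (S.l i))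

/-- Everything except the palette. -/
noncomputable def St.U (k : ℕ) (S : St G) (i : ℕ) : G → ℝ≥0∞ :=
  FF (fun _ => tern 8⁻¹) (S.P (i + 1)) (S.E k i)

/-- The gas of a level. -/
noncomputable def St.M (k : ℕ) (S : St G) (i : ℕ) : G → ℝ≥0∞ := MP (S.P i) (S.U k i)

/-- Ternary pressure. -/
def Press (k : ℕ) (V : Finset G) : Prop := ∀ Y ⊆ V,
  FF (fun _ => tern 4⁻¹) Y dlt 0 ≤ ENNReal.ofReal (Real.exp (Y.card / 2 ^ (60 * k)))

/-- The invariants of the closure process. -/
structure Inv (k : ℕ) (V : Finset G) (S : St G) : Prop where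
  w0 : S.W 0 = V
  anti : Antitone S.W
  fin : ∃ m, S.W m = ∅
  invX : ∀ i, (S.l i).length * (Real.log (thg (yb k)).toReal - 600 / (2 ^ 28 * (k : ℝ) ^ 2)) +
    (S.W (i + 1)).card / 2 ^ (20 * k) ≤ Real.log (S.M k i 0).toReal
  invB : ∀ i, (S.l i).length * (1 / (2400 * (k : ℝ))) - 15 * k * (S.W (i + 2)).card ≤
    Real.log (S.M k i 0).toReal - Real.log (S.E k i 0).toReal

end Pool.Agent.SP
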