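import Mathlib
import Pool.Agent.SP.Defs

/-!
Row SH1: the Gaussian inequality `(E x * E y) ^ 2 ≤ E (x + y) * E (x - y) * E 0 ^ 2` in every
abelian group, by Cauchy-Schwarz over parity classes.
-/

set_option autoImplicit false

namespace Pool.Agent.SP

open Finset
open scoped ENNReal
open Pool.Agent.Helper36.LL (conv dlt FF gw tern)

/-- `2 Z ≤ P + Q` if `Z ^ 2 ≤ P Q`. -/
theorem gau_two_mul_le {Z P Q : ℝ≥0∞} (h : Z ^ 2 ≤ P * Q) : 2 * Z ≤ P + Q := by
  have h4 : (2 * Z) ^ 2 ≤ (P + Q) ^ 2 := by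
    calc (2 * Z) ^ 2 = 4 * Z ^ 2 := by ring
      _ ≤ 4 * (P * Q) := by gcongr
      _ = 2 * (2 * (P * Q)) := by ring
      _ = 2 * (P * Q) + 2 * (P * Q) := by ring
      _ ≤ 2 * (P * Q) + (P * P + Q * Q) := by
        gcongr
        exact Pool.Agent.Helper36.LL.two_mul_le P Q
      _ = (P + Q) ^ 2 := by ring
  exact (ENNReal.pow_le_pow_left_iff two_ne_zero).1 h4

/-- Cauchy-Schwarz for weighted sums, in square form. -/
theorem gau_sq_tsum_le {ι : Type*} (w X A B : ι → ℝ≥0∞) (h : ∀ i, X i ^ 2 ≤ A i * B i) :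
    (∑' i, w i * X i) ^ 2 ≤ (∑' i, w i * A i) * ∑' i, w i * B i := by
  have key : 2 * (∑' i, w i * X i) ^ 2 ≤ 2 * ((∑' i, w i * A i) * ∑' i, w i * B i) := by
    have e1 : (∑' i, w i * X i) ^ 2 = ∑' i, ∑' j, (w i * w j) * (X i * X j) := by
      rw [sq, ← ENNReal.tsum_mul_right]
      refine tsum_congr fun i => ?_
      rw [← ENNReal.tsum_mul_left]
      refine tsum_congr fun j => ?_
      ring
    have e2 : (∑' i, w i * A i) * (∑' i, w i * B i) = ∑' i, ∑' j, (w i * w j) * (A i * B j) := by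
      rw [← ENNReal.tsum_mul_right]
      refine tsum_congr fun i => ?_
      rw [← ENNReal.tsum_mul_left]
      refine tsum_congr fun j => ?_
      ring
    have e3 : (∑' i, w i * A i) * (∑' i, w i * B i) = ∑' i, ∑' j, (w i * w j) * (A j * B i) := by
      rw [e2, ENNReal.tsum_comm]
      refine tsum_congr fun i => tsum_congr fun j => ?_
      ring
    calc 2 * (∑' i, w i * X i) ^ 2 = ∑' i, ∑' j, (w i * w j) * (2 * (X i * X j)) := by
          rw [e1, ← ENNReal.tsum_mul_left]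
          refine tsum_congr fun i => ?_
          rw [← ENNReal.tsum_mul_left]
          refine tsum_congr fun j => ?_
          ring
      _ ≤ ∑' i, ∑' j, ((w i * w j) * (A i * B j) + (w i * w j) * (A j * B i)) := by
          refine ENNReal.tsum_le_tsum fun i => ENNReal.tsum_le_tsum fun j => ?_
          rw [← mul_add]
          gcongr
          refine gau_two_mul_le ?_
          calc (X i * X j) ^ 2 = X i ^ 2 * X j ^ 2 := by ring
            _ ≤ (A i * B i) * (A j * B j) := mul_le_mul' (h i) (h j)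
            _ = A i * B j * (A j * B i) := by ring
      _ = ∑' i, ∑' j, (w i * w j) * (A i * B j) + ∑' i, ∑' j, (w i * w j) * (A j * B i) := by
          rw [← ENNReal.tsum_add]
          refine tsum_congr fun i => ?_
          rw [← ENNReal.tsum_add]
      _ = 2 * ((∑' i, w i * A i) * ∑' i, w i * B i) := by
          rw [← e2, ← e3]; ring
  exact (ENNReal.mul_le_mul_iff_right (by norm_num) (by norm_num)).1 key

variable {G : Type*} [AddCommGroup G]

/-- The indicator of equality. -/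
noncomputable def gind (u v : G) : ℝ≥0∞ := by
  classical exact if u = v then 1 else 0

omit [AddCommGroup G] in
theorem gind_congr {u v u' v' : G} (h : u = v ↔ u' = v') : gind u v = gind u' v' := by
  unfold gind
  by_cases h1 : u = v
  · rw [if_pos h1, if_pos (h.1 h1)]
  · rw [if_neg h1, if_neg (fun e => h1 (h.2 e))]

/-- The parity class representation. -/
def RG (E : G → ℝ≥0∞) : Prop :=
  ∃ (ι : Type) (t : ι → G) (U : ι → G → ℝ≥0∞), ∀ x y, E x * E y =
    ∑' i : ι, ∑' s : G, gind (s + s + t i) (x - y) * (U i (s + y) * U i s)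

theorem RG.gi {E : G → ℝ≥0∞} (h : RG E) : GI E := by
  classical
  obtain ⟨ι, t, U, hU⟩ := h
  intro x y
  have e0 : ∀ d : G, E d * E 0 = ∑' p : ι × G,
      gind (p.2 + p.2 + t p.1) (d) * (U p.1 p.2) ^ 2 := by
    intro d
    rw [hU d 0, ← ENNReal.tsum_prod]
    refine tsum_congr fun p => ?_
    rw [sub_zero, add_zero, sq]
  have e1 : E x * E y = ∑' p : ι × G,
      gind (p.2 + p.2 + t p.1) (x - y) * (U p.1 (p.2 + y) * U p.1 p.2) := by
    rw [hU x y, ← ENNReal.tsum_prod]
  have e2 : E (x + y) * E 0 = ∑' p : ι × G,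
      gind (p.2 + p.2 + t p.1) (x - y) * (U p.1 (p.2 + y)) ^ 2 := by
    rw [hU (x + y) 0, ENNReal.tsum_prod (f := fun (i : ι) (s : G) =>
      gind (s + s + t i) (x - y) * (U i (s + y)) ^ 2)]
    refine tsum_congr fun i => ?_
    rw [← (Equiv.addRight y).tsum_eq]
    refine tsum_congr fun s => ?_
    simp only [Equiv.coe_addRight, add_zero, sub_zero]
    have hc : (s + y + (s + y) + t i = x + y) ↔ (s + s + t i = x - y) := by
      constructor
      · intro h1
        have : s + s + t i = (s + y + (s + y) + t i) - y - y := by abel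
        rw [this, h1]; abel
      · intro h1
        have : s + y + (s + y) + t i = (s + s + t i) + y + y := by abel
        rw [this, h1]; abel
    rw [gind_congr hc, sq]
  have key := gau_sq_tsum_le (fun p : ι × G => gind (p.2 + p.2 + t p.1) (x - y))
    (fun p => U p.1 (p.2 + y) * U p.1 p.2) (fun p => (U p.1 (p.2 + y)) ^ 2)
    (fun p => (U p.1 p.2) ^ 2) (fun p => le_of_eq (by ring))
  rw [← e1, ← e2, ← e0 (x - y)] at key
  refine key.trans (le_of_eq ?_)
  ring

theorem RG.dlt : RG (dlt : G → ℝ≥0∞) := by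
  classical
  refine ⟨Unit, fun _ => 0, fun _ => Helper36.LL.dlt, fun x y => ?_⟩
  rw [tsum_eq_single () (fun i hi => absurd (Subsingleton.elim i ()) hi)]
  rw [tsum_eq_single (0 : G)]
  · by_cases hy : y = 0
    · subst hy
      by_cases hx : x = 0
      · simp [Helper36.LL.dlt, hx, gind]
      · have : ¬ (0 : G) = x := fun e => hx e.symm
        simp [Helper36.LL.dlt, hx, this, gind]
    · simp [Helper36.LL.dlt, hy]
  · intro s hs
    simp [Helper36.LL.dlt, hs]

/-- The change of variables of the parity classes. -/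
def gauEquiv : (Fin 2 × ℤ) × ℤ ≃ ℤ × ℤ where
  toFun p := ((p.1.1 : ℕ) + p.1.2 + p.2, p.1.2 - p.2)
  invFun q := ((⟨((q.1 + q.2) % 2).toNat, by omega⟩, (q.1 + q.2) / 2), (q.1 - q.2) / 2)
  left_inv := by
    rintro ⟨⟨κ, n⟩, m⟩
    have hκ := κ.2
    simp only [Prod.mk.injEq, Fin.ext_iff]
    omega
  right_inv := by
    rintro ⟨j, l⟩
    simp only [Prod.mk.injEq]
    omega

theorem RG.conv {E : G → ℝ≥0∞} (h : RG E) (x : ℝ≥0∞) (a : G) : RG (conv (gw x) a E) := by
  classical
  obtain ⟨ι, t, U, hU⟩ := h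
  obtain ⟨z, rfl⟩ : ∃ z : ℝ≥0∞, x = z ^ 2 :=
    ⟨x ^ (1 / 2 : ℝ), by
      rw [← ENNReal.rpow_natCast, ← ENNReal.rpow_mul]; norm_num⟩
  refine ⟨ι × Fin 2, fun i => t i.1 + (i.2 : ℕ) • a,
    fun i s => ∑' n : ℤ, z ^ (((i.2 : ℕ) + 2 * n).natAbs ^ 2) * U i.1 (s - n • a), ?_⟩
  intro X Y
  set Φ : ι → Fin 2 → ℤ → ℤ → G → ℝ≥0∞ := fun i κ n m s =>
    z ^ (((κ : ℕ) + 2 * n).natAbs ^ 2) * z ^ (((κ : ℕ) + 2 * m).natAbs ^ 2) *
      (gind (s + s + (2 * m + (κ : ℕ)) • a + t i) (X - Y) *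
        (U i (s + Y - (n - m) • a) * U i s)) with hΦ
  -- the right hand side
  have hR : (∑' i : ι × Fin 2, ∑' s : G,
      gind (s + s + (t i.1 + (i.2 : ℕ) • a)) (X - Y) *
        ((∑' n : ℤ, z ^ (((i.2 : ℕ) + 2 * n).natAbs ^ 2) * U i.1 (s + Y - n • a)) *
          ∑' n : ℤ, z ^ (((i.2 : ℕ) + 2 * n).natAbs ^ 2) * U i.1 (s - n • a)))
      = ∑' i : ι, ∑' p : (Fin 2 × ℤ) × ℤ, ∑' s : G, Φ i p.1.1 p.1.2 p.2 s := by
    rw [ENNReal.tsum_prod (f := fun (i : ι) (κ : Fin 2) => ∑' s : G,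
      gind (s + s + (t i + (κ : ℕ) • a)) (X - Y) *
        ((∑' n : ℤ, z ^ (((κ : ℕ) + 2 * n).natAbs ^ 2) * U i (s + Y - n • a)) *
          ∑' n : ℤ, z ^ (((κ : ℕ) + 2 * n).natAbs ^ 2) * U i (s - n • a)))]
    refine tsum_congr fun i => ?_
    rw [ENNReal.tsum_prod (f := fun (q : Fin 2 × ℤ) (m : ℤ) => ∑' s : G, Φ i q.1 q.2 m s)]
    rw [ENNReal.tsum_prod (f := fun (κ : Fin 2) (n : ℤ) => ∑' m : ℤ, ∑' s : G, Φ i κ n m s)]
    refine tsum_congr fun κ => ?_
    calc ∑' s : G, gind (s + s + (t i + (κ : ℕ) • a)) (X - Y) *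
        ((∑' n : ℤ, z ^ (((κ : ℕ) + 2 * n).natAbs ^ 2) * U i (s + Y - n • a)) *
          ∑' n : ℤ, z ^ (((κ : ℕ) + 2 * n).natAbs ^ 2) * U i (s - n • a))
        = ∑' s : G, ∑' n : ℤ, ∑' m : ℤ,
            gind (s + s + (t i + (κ : ℕ) • a)) (X - Y) *
            ((z ^ (((κ : ℕ) + 2 * n).natAbs ^ 2) * U i (s + Y - n • a)) *
            (z ^ (((κ : ℕ) + 2 * m).natAbs ^ 2) * U i (s - m • a))) := by
          refine tsum_congr fun s => ?_
          rw [← ENNReal.tsum_mul_right, ← ENNReal.tsum_mul_left]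
          refine tsum_congr fun n => ?_
          rw [← ENNReal.tsum_mul_left, ← ENNReal.tsum_mul_left]
      _ = ∑' n : ℤ, ∑' s : G, ∑' m : ℤ,
            gind (s + s + (t i + (κ : ℕ) • a)) (X - Y) *
            ((z ^ (((κ : ℕ) + 2 * n).natAbs ^ 2) * U i (s + Y - n • a)) *
            (z ^ (((κ : ℕ) + 2 * m).natAbs ^ 2) * U i (s - m • a))) := ENNReal.tsum_comm
      _ = ∑' n : ℤ, ∑' m : ℤ, ∑' s : G,
            gind (s + s + (t i + (κ : ℕ) • a)) (X - Y) *
            ((z ^ (((κ : ℕ) + 2 * n).natAbs ^ 2) * U i (s + Y - n • a)) *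
            (z ^ (((κ : ℕ) + 2 * m).natAbs ^ 2) * U i (s - m • a))) :=
          tsum_congr fun n => ENNReal.tsum_comm
      _ = ∑' n : ℤ, ∑' m : ℤ, ∑' s : G, Φ i κ n m s := by
          refine tsum_congr fun n => tsum_congr fun m => ?_
          rw [← (Equiv.addRight (m • a)).tsum_eq]
          refine tsum_congr fun s => ?_
          simp only [Equiv.coe_addRight, hΦ]
          have hc : (s + m • a + (s + m • a) + (t i + (κ : ℕ) • a) = X - Y) ↔
              (s + s + (2 * m + (κ : ℕ)) • a + t i = X - Y) := by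
            have : s + m • a + (s + m • a) + (t i + (κ : ℕ) • a)
                = s + s + (2 * m + (κ : ℕ)) • a + t i := by
              rw [add_smul, mul_smul, two_smul, natCast_zsmul]; abel
            rw [this]
          have e1 : s + m • a + Y - n • a = s + Y - (n - m) • a := by
            rw [sub_smul]; abel
          have e2 : s + m • a - m • a = s := by abel
          rw [gind_congr hc, e1, e2]
          ring
  -- the left hand side
  have hL : Helper36.LL.conv (gw (z ^ 2)) a E X * Helper36.LL.conv (gw (z ^ 2)) a E Y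
      = ∑' i : ι, ∑' q : ℤ × ℤ, ∑' s : G, gw (z ^ 2) q.1 * gw (z ^ 2) q.2 *
        (gind (s + s + t i) ((X - q.1 • a) - (Y - q.2 • a)) *
          (U i (s + (Y - q.2 • a)) * U i s)) := by
    rw [ENNReal.tsum_comm, ENNReal.tsum_prod (f := fun (j l : ℤ) => ∑' i : ι, ∑' s : G,
      gw (z ^ 2) j * gw (z ^ 2) l *
        (gind (s + s + t i) ((X - j • a) - (Y - l • a)) *
          (U i (s + (Y - l • a)) * U i s)))]
    unfold Helper36.LL.conv
    rw [← ENNReal.tsum_mul_right]
    refine tsum_congr fun j => ?_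
    rw [← ENNReal.tsum_mul_left]
    refine tsum_congr fun l => ?_
    have e1 : gw (z ^ 2) j * E (X - j • a) * (gw (z ^ 2) l * E (Y - l • a))
        = gw (z ^ 2) j * gw (z ^ 2) l * (E (X - j • a) * E (Y - l • a)) := by ring
    rw [e1, hU, ← ENNReal.tsum_mul_left]
    refine tsum_congr fun i => ?_
    rw [← ENNReal.tsum_mul_left]
  rw [hL]
  refine Eq.trans ?_ hR.symm
  refine tsum_congr fun i => ?_
  rw [← gauEquiv.tsum_eq]
  refine tsum_congr fun p => ?_
  obtain ⟨⟨κ, n⟩, m⟩ := p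
  refine tsum_congr fun s => ?_
  simp only [hΦ, gauEquiv, Equiv.coe_fn_mk]
  have e1 : gw (z ^ 2) (((κ : ℕ) : ℤ) + n + m) * gw (z ^ 2) (n - m)
      = z ^ ((((κ : ℕ) : ℤ) + 2 * n).natAbs ^ 2) * z ^ ((((κ : ℕ) : ℤ) + 2 * m).natAbs ^ 2) := by
    unfold gw
    rw [← pow_mul, ← pow_mul, ← pow_add, ← pow_add]
    congr 1
    zify
    simp only [sq_abs]
    ring
  have hc : (s + s + t i = (X - (((κ : ℕ) : ℤ) + n + m) • a) - (Y - (n - m) • a)) ↔
      (s + s + (2 * m + ((κ : ℕ) : ℤ)) • a + t i = X - Y) := by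
    have e2 : (X - (((κ : ℕ) : ℤ) + n + m) • a) - (Y - (n - m) • a)
        = X - Y - (2 * m + ((κ : ℕ) : ℤ)) • a := by
      simp only [add_smul, sub_smul, mul_smul, two_smul]; abel
    rw [e2]
    constructor
    · intro h1
      have : s + s + (2 * m + ((κ : ℕ) : ℤ)) • a + t i
          = (s + s + t i) + (2 * m + ((κ : ℕ) : ℤ)) • a := by abel
      rw [this, h1]; abel
    · intro h1
      have : s + s + t i
          = (s + s + (2 * m + ((κ : ℕ) : ℤ)) • a + t i) - (2 * m + ((κ : ℕ) : ℤ)) • a := by abel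
      rw [this, h1]
  have e3 : s + (Y - (n - m) • a) = s + Y - (n - m) • a := by abel
  rw [e1, gind_congr hc, e3]

theorem RG.FF [DecidableEq G] {E : G → ℝ≥0∞} (h : RG E) (x : ℝ≥0∞) (S : Finset G) :
    RG (FF (fun _ => gw x) S E) := by
  induction S using Finset.induction_on with
  | empty => simpa using h
  | insert c S hc ih =>
    rw [Helper36.LL.FF_insert _ hc]
    exact ih.conv x c

theorem RG.VV (y : ℝ≥0∞) (l : List G) : RG (VV y l) := by
  induction l with
  | nil => exact RG.dlt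
  | cons a l ih => exact ih.conv y a

theorem gi_gauss [DecidableEq G] {x y : ℝ≥0∞} (_hx : x < 1) (_hy : y < 1) (S : Finset G)
    (l : List G) : GI (FF (fun _ => gw x) S (VV y l)) :=
  ((RG.VV y l).FF x S).gi

end Pool.Agent.SP
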