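import Mathlib
import Pool.Agent.SP.Defs

/-!
Two combinatorial steps of the second moment claim (row MU): a maximal `g` exists, and the sets
of the family which contain a given part of a member.
-/

set_option autoImplicit false

namespace Pool.Agent.SP

open Finset

variable {G : Type*} [AddCommGroup G] [DecidableEq G]

theorem mem_Fam {M : G → ENNReal} {P : Finset G} {n : ℕ} {s : ℝ} {g : G}
    {T : Finset G × Finset G} : T ∈ Fam M P n s g ↔
      (T.1 ⊆ P ∧ T.2 ⊆ P) ∧ Disjoint T.1 T.2 ∧ (T.1 ∪ T.2).Nonempty ∧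
        (T.1 ∪ T.2).card ≤ n ∧ Free M (16 * s) T ∧ kap M (g - sg T.1 T.2) ≤ s := by
  classical
  unfold Fam
  rw [Finset.mem_filter, Finset.mem_product, Finset.mem_powerset, Finset.mem_powerset]

/-- The sum over the family takes its maximal value. -/
theorem fam_sup (M : G → ENNReal) (P : Finset G) (n : ℕ) (s : ℝ)
    (φ : Finset (Finset G × Finset G) → ℝ) :
    ∃ g₀ : G, ∀ g : G, φ (Fam M P n s g) ≤ φ (Fam M P n s g₀) := by
  classical
  have hfin : (Set.range (Fam M P n s)).Finite := by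
    refine Set.Finite.subset
      (Finset.finite_toSet ((P.powerset ×ˢ P.powerset).powerset)) ?_
    rintro _ ⟨g, rfl⟩
    simp only [Finset.coe_powerset, Set.mem_preimage, Set.mem_powerset_iff, Finset.coe_subset]
    unfold Fam
    convert Finset.filter_subset _ _
  obtain ⟨_, ⟨g₀, rfl⟩, h⟩ := Set.exists_max_image (Set.range (Fam M P n s)) φ hfin
    ⟨_, Set.mem_range_self (0 : G)⟩
  exact ⟨g₀, fun g => h _ (Set.mem_range_self g)⟩

theorem sg_sdiff {A B I J : Finset G} (hI : I ⊆ A) (hJ : J ⊆ B) :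
    sg (A \ I) (B \ J) = sg A B - sg I J := by
  unfold sg
  have h1 := Finset.sum_sdiff (f := fun x : G => x) hI
  have h2 := Finset.sum_sdiff (f := fun x : G => x) hJ
  rw [← h1, ← h2]
  abel

omit [AddCommGroup G] in
theorem card_union_sdiff {A B I J : Finset G} (hAB : Disjoint A B) (hI : I ⊆ A) (hJ : J ⊆ B) :
    (A ∪ B).card = (I ∪ J).card + ((A \ I) ∪ (B \ J)).card := by
  have d1 : Disjoint I J := Finset.disjoint_of_subset_left hI (Finset.disjoint_of_subset_right hJ hAB)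
  have d2 : Disjoint (A \ I) (B \ J) := Finset.disjoint_of_subset_left Finset.sdiff_subset
    (Finset.disjoint_of_subset_right Finset.sdiff_subset hAB)
  rw [Finset.card_union_of_disjoint hAB, Finset.card_union_of_disjoint d1,
    Finset.card_union_of_disjoint d2, Finset.card_sdiff_of_subset hI,
    Finset.card_sdiff_of_subset hJ]
  have := Finset.card_le_card hI
  have := Finset.card_le_card hJ
  omega

open Classical in
/-- The members of the family containing a part `I` of the member `T`. -/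
theorem fam_step {M : G → ENNReal} {P : Finset G} {n : ℕ} {s : ℝ} {g : G}
    (hsub : ∀ x y : G, ∀ a b : ℝ, 0 ≤ a → 0 ≤ b → kap M x ≤ a ^ 2 → kap M y ≤ b ^ 2 →
      kap M (x - y) ≤ (a + b) ^ 2) (hnn : ∀ x : G, 0 ≤ kap M x)
    {T : Finset G × Finset G} (hT : T ∈ Fam M P n s g) {I : Finset G × Finset G}
    (hI1 : I.1 ⊆ T.1) (hI2 : I.2 ⊆ T.2) {q : ℝ} (hq : 0 ≤ q) :
    ∑ T' ∈ (Fam M P n s g).filter (fun T' => I.1 ⊆ T'.1 ∧ I.2 ⊆ T'.2),
        q ^ (T'.1 ∪ T'.2).card ≤
      q ^ (I.1 ∪ I.2).card *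
        (∑ T' ∈ Fam M P n s (g - sg I.1 I.2), q ^ (T'.1 ∪ T'.2).card +
          if I = T then 1 else 0) := by
  set 𝒮 := (Fam M P n s g).filter (fun T' => I.1 ⊆ T'.1 ∧ I.2 ⊆ T'.2) with h𝒮
  have hmem : ∀ T' ∈ 𝒮, (T' ∈ Fam M P n s g) ∧ I.1 ⊆ T'.1 ∧ I.2 ⊆ T'.2 := by
    intro T' hT'
    rw [h𝒮, Finset.mem_filter] at hT'
    exact ⟨hT'.1, hT'.2.1, hT'.2.2⟩
  obtain ⟨_, hTd, _, _, hTf, hTk⟩ := mem_Fam.1 hT
  have hs0 : 0 ≤ s := (hnn _).trans hTk
  -- the set `I` itself
  have hself : I ∈ 𝒮 → I = T := by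
    intro hI
    by_contra hne
    have hIF := (hmem I hI).1
    obtain ⟨_, _, _, _, _, hIk⟩ := mem_Fam.1 hIF
    have hnonempty : ((T.1 \ I.1) ∪ (T.2 \ I.2)).Nonempty := by
      rw [Finset.nonempty_iff_ne_empty]
      intro he
      rw [Finset.union_eq_empty, Finset.sdiff_eq_empty_iff_subset,
        Finset.sdiff_eq_empty_iff_subset] at he
      exact hne (Prod.ext (hI1.antisymm he.1) (hI2.antisymm he.2))
    have h1 := hTf (T.1 \ I.1) Finset.sdiff_subset (T.2 \ I.2) Finset.sdiff_subset hnonempty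
    rw [sg_sdiff hI1 hI2] at h1
    have h2 := hsub (g - sg I.1 I.2) (g - sg T.1 T.2) (Real.sqrt s) (Real.sqrt s)
      (Real.sqrt_nonneg _) (Real.sqrt_nonneg _) (by rwa [Real.sq_sqrt hs0])
      (by rwa [Real.sq_sqrt hs0])
    have e1 : g - sg I.1 I.2 - (g - sg T.1 T.2) = sg T.1 T.2 - sg I.1 I.2 := by abel
    rw [e1] at h2
    have e2 : (Real.sqrt s + Real.sqrt s) ^ 2 = 4 * s := by
      have := Real.sq_sqrt hs0
      nlinarith
    rw [e2] at h2
    linarith
  -- splitting off `I`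
  have hsplit : ∑ T' ∈ 𝒮, q ^ (T'.1 ∪ T'.2).card ≤
      ∑ T' ∈ 𝒮.erase I, q ^ (T'.1 ∪ T'.2).card +
        q ^ (I.1 ∪ I.2).card * (if I = T then 1 else 0) := by
    by_cases hI : I ∈ 𝒮
    · rw [← Finset.sum_erase_add _ _ hI, if_pos (hself hI), mul_one]
    · rw [Finset.erase_eq_of_notMem hI]
      have : 0 ≤ q ^ (I.1 ∪ I.2).card * (if I = T then (1 : ℝ) else 0) := by positivity
      linarith
  refine hsplit.trans ?_
  rw [mul_add]
  gcongr
  rw [Finset.mul_sum]
  -- the injection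
  have hcard : ∀ T' ∈ 𝒮, (T'.1 ∪ T'.2).card =
      (I.1 ∪ I.2).card + ((T'.1 \ I.1) ∪ (T'.2 \ I.2)).card := by
    intro T' hT'
    obtain ⟨h1, h2, h3⟩ := hmem T' hT'
    exact card_union_sdiff (mem_Fam.1 h1).2.1 h2 h3
  have himg : ∑ T' ∈ 𝒮.erase I, q ^ (T'.1 ∪ T'.2).card =
      ∑ T'' ∈ (𝒮.erase I).image (fun T' => (T'.1 \ I.1, T'.2 \ I.2)),
        q ^ (I.1 ∪ I.2).card * q ^ (T''.1 ∪ T''.2).card := by
    rw [Finset.sum_image]
    · refine Finset.sum_congr rfl fun T' hT' => ?_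
      rw [hcard T' (Finset.mem_of_mem_erase hT'), pow_add]
    · intro T1 hT1 T2 hT2 he
      obtain ⟨_, h12, h13⟩ := hmem T1 (Finset.mem_of_mem_erase hT1)
      obtain ⟨_, h22, h23⟩ := hmem T2 (Finset.mem_of_mem_erase hT2)
      simp only [Prod.mk.injEq] at he
      refine Prod.ext ?_ ?_
      · rw [← Finset.sdiff_union_of_subset h12, he.1, Finset.sdiff_union_of_subset h22]
      · rw [← Finset.sdiff_union_of_subset h13, he.2, Finset.sdiff_union_of_subset h23]
  rw [himg]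
  refine Finset.sum_le_sum_of_subset_of_nonneg ?_ (fun T' _ _ => by positivity)
  intro T'' hT''
  obtain ⟨T', hT', rfl⟩ := Finset.mem_image.1 hT''
  have hne := Finset.ne_of_mem_erase hT'
  obtain ⟨h1, h2, h3⟩ := hmem T' (Finset.mem_of_mem_erase hT')
  obtain ⟨⟨hP1, hP2⟩, hd, _, hn, hf, hk⟩ := mem_Fam.1 h1
  rw [mem_Fam]
  refine ⟨⟨Finset.sdiff_subset.trans hP1, Finset.sdiff_subset.trans hP2⟩, ?_, ?_, ?_, ?_, ?_⟩
  · exact Finset.disjoint_of_subset_left Finset.sdiff_subset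
      (Finset.disjoint_of_subset_right Finset.sdiff_subset hd)
  · rw [Finset.nonempty_iff_ne_empty]
    intro he
    rw [Finset.union_eq_empty, Finset.sdiff_eq_empty_iff_subset,
      Finset.sdiff_eq_empty_iff_subset] at he
    exact hne (Prod.ext (he.1.antisymm h2) (he.2.antisymm h3))
  · have := hcard T' (Finset.mem_of_mem_erase hT')
    simp only
    omega
  · intro A hA B hB hne'
    exact hf A (hA.trans Finset.sdiff_subset) B (hB.trans Finset.sdiff_subset) hne'
  · rw [sg_sdiff h2 h3]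
    have : g - sg I.1 I.2 - (sg T'.1 T'.2 - sg I.1 I.2) = g - sg T'.1 T'.2 := by abel
    rw [this]
    exact hk

end Pool.Agent.SP
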