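import Mathlib
import Pool.Agent.SP.Defs

/-!
The sum over the terms in the second alternative of the shift inequality (for row MU).
-/

set_option autoImplicit false

namespace Pool.Agent.SP

open Finset

theorem two_pow_le_exp (k : ℕ) : (2 : ℝ) ^ (18 * k) ≤ Real.exp (25 / 2 * k) := by
  have h1 : (2 : ℝ) ^ (18 * k) = Real.exp ((18 * k : ℕ) * Real.log 2) := by
    rw [Real.exp_nat_mul, Real.exp_log (by norm_num)]
  rw [h1]
  apply Real.exp_le_exp.2
  have h2 := Real.log_two_lt_d9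
  have hk : (0 : ℝ) ≤ k := Nat.cast_nonneg k
  push_cast
  nlinarith

theorem sum_pairs_pow {G : Type*} [DecidableEq G] (A B : Finset G) (r : ℝ) :
    ∑ I ∈ (A.powerset ×ˢ B.powerset).erase (∅, ∅), r ^ (I.1.card + I.2.card) =
      (1 + r) ^ (A.card + B.card) - 1 := by
  have h1 : ∀ S : Finset G, ∑ I ∈ S.powerset, r ^ I.card = (1 + r) ^ S.card := by
    intro S
    have := Finset.sum_pow_mul_eq_add_pow r 1 S
    simp only [one_pow, mul_one] at this
    rw [this, add_comm]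
  have h2 : ∑ I ∈ A.powerset ×ˢ B.powerset, r ^ (I.1.card + I.2.card) =
      (1 + r) ^ (A.card + B.card) := by
    rw [Finset.sum_product, pow_add, ← h1 A, ← h1 B, Finset.sum_mul_sum]
    refine Finset.sum_congr rfl fun I _ => Finset.sum_congr rfl fun J _ => ?_
    rw [pow_add]
  have hmem : ((∅, ∅) : Finset G × Finset G) ∈ A.powerset ×ˢ B.powerset := by simp
  have h3 := Finset.add_sum_erase (A.powerset ×ˢ B.powerset)
    (fun I : Finset G × Finset G => r ^ (I.1.card + I.2.card)) hmem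
  simp only [Finset.card_empty, add_zero, pow_zero] at h3
  rw [h2] at h3
  linarith

/-- The terms with a small correlation: their sum is negligible. -/
theorem second_case_sum {G : Type*} [DecidableEq G] {k : ℕ} (hk : 100 ≤ k) (A B : Finset G)
    (hAB : Disjoint A B) (hc : (A ∪ B).card ≤ 2 ^ k) :
    ∑ I ∈ (A.powerset ×ˢ B.powerset).erase (∅, ∅),
        (1 / 2 ^ 9 : ℝ) ^ (I.1.card + I.2.card) *
          Real.exp (-(((I.1.card + I.2.card : ℕ) : ℝ) ^ 2 / (8 * (1 / (100 * (k : ℝ)))))) ≤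
      2 / 2 ^ (17 * k) := by
  have hk0 : (0 : ℝ) < k := by
    have : (100 : ℝ) ≤ k := by exact_mod_cast hk
    linarith
  set r : ℝ := 1 / 2 ^ 9 * Real.exp (-(25 / 2 * k)) with hr
  have hr0 : 0 ≤ r := by positivity
  have hrle : r ≤ 1 / 2 ^ 9 * (1 / 2 ^ (18 * k)) := by
    rw [hr, Real.exp_neg, ← one_div]
    apply mul_le_mul_of_nonneg_left _ (by positivity)
    exact one_div_le_one_div_of_le (by positivity) (two_pow_le_exp k)
  have hterm : ∀ n : ℕ, 1 ≤ n → (1 / 2 ^ 9 : ℝ) ^ n *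
      Real.exp (-(((n : ℕ) : ℝ) ^ 2 / (8 * (1 / (100 * (k : ℝ)))))) ≤ r ^ n := by
    intro n hn
    have hn' : (1 : ℝ) ≤ n := by exact_mod_cast hn
    rw [hr, mul_pow]
    apply mul_le_mul_of_nonneg_left _ (by positivity)
    rw [← Real.exp_nat_mul]
    apply Real.exp_le_exp.2
    have e1 : ((n : ℕ) : ℝ) ^ 2 / (8 * (1 / (100 * (k : ℝ)))) = 25 / 2 * k * (n : ℝ) ^ 2 := by
      field_simp
      ring
    rw [e1]
    nlinarith [mul_nonneg hk0.le (mul_nonneg (by linarith : (0 : ℝ) ≤ n) (by linarith : (0 : ℝ) ≤ n - 1))]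
  have h1 : ∑ I ∈ (A.powerset ×ˢ B.powerset).erase (∅, ∅),
        (1 / 2 ^ 9 : ℝ) ^ (I.1.card + I.2.card) *
          Real.exp (-(((I.1.card + I.2.card : ℕ) : ℝ) ^ 2 / (8 * (1 / (100 * (k : ℝ)))))) ≤
      ∑ I ∈ (A.powerset ×ˢ B.powerset).erase (∅, ∅), r ^ (I.1.card + I.2.card) := by
    refine Finset.sum_le_sum fun I hI => hterm _ ?_
    have hne : I ≠ (∅, ∅) := Finset.ne_of_mem_erase hI
    by_contra hcon
    apply hne
    have h0 : I.1.card = 0 ∧ I.2.card = 0 := by omega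
    exact Prod.ext (Finset.card_eq_zero.1 h0.1) (Finset.card_eq_zero.1 h0.2)
  refine h1.trans ?_
  rw [sum_pairs_pow, ← Finset.card_union_of_disjoint hAB]
  set n := (A ∪ B).card with hn
  have hnr : (n : ℝ) * r ≤ 1 / 2 ^ 9 * (1 / 2 ^ (17 * k)) := by
    have hc' : (n : ℝ) ≤ 2 ^ k := by exact_mod_cast hc
    calc (n : ℝ) * r ≤ 2 ^ k * (1 / 2 ^ 9 * (1 / 2 ^ (18 * k))) :=
          mul_le_mul hc' hrle hr0 (by positivity)
      _ = 1 / 2 ^ 9 * (1 / 2 ^ (17 * k)) := by
          have : (2 : ℝ) ^ (18 * k) = 2 ^ k * 2 ^ (17 * k) := by rw [← pow_add]; congr 1; ring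
          rw [this]
          field_simp
  have hsmall : (n : ℝ) * r ≤ 1 := by
    refine hnr.trans ?_
    have : (1 : ℝ) ≤ 2 ^ (17 * k) := one_le_pow₀ (by norm_num)
    have h2 : (1 : ℝ) / 2 ^ (17 * k) ≤ 1 := by
      rw [div_le_one (by positivity)]
      exact this
    nlinarith
  have hexp : (1 + r) ^ n ≤ 1 + 2 * (n * r) := by
    have h2 : (1 + r) ^ n ≤ Real.exp (n * r) := by
      rw [Real.exp_nat_mul]
      apply pow_le_pow_left₀ (by positivity)
      have := Real.add_one_le_exp r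
      linarith
    have h3 : Real.exp ((n : ℝ) * r) ≤ 1 + 2 * (n * r) := by
      have hx0 : 0 ≤ (n : ℝ) * r := by positivity
      have := Real.abs_exp_sub_one_le (x := (n : ℝ) * r) (by rw [abs_of_nonneg hx0]; exact hsmall)
      rw [abs_of_nonneg hx0] at this
      have h4 := le_abs_self (Real.exp ((n : ℝ) * r) - 1)
      linarith
    exact h2.trans h3
  have hfin : (2 : ℝ) * (1 / 2 ^ 9 * (1 / 2 ^ (17 * k))) ≤ 2 / 2 ^ (17 * k) := by
    rw [div_eq_mul_one_div (2 : ℝ) (2 ^ (17 * k))]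
    apply mul_le_mul_of_nonneg_left _ (by norm_num)
    have : (0 : ℝ) ≤ 1 / 2 ^ (17 * k) := by positivity
    nlinarith
  linarith

end Pool.Agent.SP
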