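import Pool.Agent.SP.Own
import Pool.Agent.SP.Shift
import Pool.Agent.SP.MuFam
import Pool.Agent.SP.MuSum

/-!
The second moment claim.
-/

set_option autoImplicit false

namespace Pool.Agent.SP

open Finset
open scoped ENNReal
open Pool.Agent.Helper36.LL (conv dlt FF gw tern FF_insert FF_empty tern_zero)

variable {G : Type*} [AddCommGroup G] [DecidableEq G]

/-- The kernel of the second moment. -/
noncomputable def KR (P : Finset G) (U : G → ℝ≥0∞) (g : G) (T T' : Finset G × Finset G) : ℝ :=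
  if Disjoint T.1 T'.2 ∧ Disjoint T.2 T'.1 then
    64 ^ ((T.1 ∩ T'.1).card + (T.2 ∩ T'.2).card) *
      (MP (P \ (T.1 ∪ T.2 ∪ (T'.1 ∪ T'.2))) U (g - sg (T.1 ∪ T'.1) (T.2 ∪ T'.2))).toReal else 0

theorem second_real (P : Finset G) {U : G → ℝ≥0∞} (hU : PD U) (hU0 : Fin0 U)
    (ℱ : Finset (Finset G × Finset G)) (hℱ : ℱ ⊆ SS P) (n : Finset G × Finset G → ℝ)
    (hn : ∀ T, 0 ≤ n T) (g : G) :
    (∑ T ∈ ℱ, n T * (MP (P \ (T.1 ∪ T.2)) U (g - sg T.1 T.2)).toReal) ^ 2 ≤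
      (MP P U g).toReal * ∑ T ∈ ℱ, ∑ T' ∈ ℱ, n T * n T' * KR P U g T T' := by
  classical
  have h64 : (64⁻¹ : ℝ≥0∞) ≤ 2⁻¹ := ENNReal.inv_le_inv.2 (by norm_num)
  have hfin : ∀ (Q : Finset G) (x : G), MP Q U x ≠ ⊤ := fun Q x =>
    ne_top_of_le_ne_top (Fin0.FF_tern hU hU0 h64 Q).2 ((PD.FF_tern hU h64 Q).le_zero x)
  have key := second_moment P U (p := 64⁻¹) (by simp) (by simp)
    (fun T => if T ∈ ℱ then ENNReal.ofReal (n T) else 0) g
  have h1 : ∑ T ∈ SS P, (if T ∈ ℱ then ENNReal.ofReal (n T) else 0) *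
      FF (fun _ => tern 64⁻¹) (P \ (T.1 ∪ T.2)) U (g - sg T.1 T.2) =
      ∑ T ∈ ℱ, ENNReal.ofReal (n T) * MP (P \ (T.1 ∪ T.2)) U (g - sg T.1 T.2) := by
    rw [← Finset.sum_subset hℱ]
    · refine Finset.sum_congr rfl fun T hT => ?_
      rw [if_pos hT]
      rfl
    · intro T _ hT
      rw [if_neg hT, zero_mul]
  have h2 : ∑ T ∈ SS P, ∑ T' ∈ SS P, (if T ∈ ℱ then ENNReal.ofReal (n T) else 0) *
      (if T' ∈ ℱ then ENNReal.ofReal (n T') else 0) *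
        (if Disjoint T.1 T'.2 ∧ Disjoint T.2 T'.1 then
          (64⁻¹ : ℝ≥0∞)⁻¹ ^ ((T.1 ∩ T'.1).card + (T.2 ∩ T'.2).card) *
            FF (fun _ => tern 64⁻¹) (P \ (T.1 ∪ T.2 ∪ (T'.1 ∪ T'.2))) U
              (g - sg (T.1 ∪ T'.1) (T.2 ∪ T'.2)) else 0) =
      ∑ T ∈ ℱ, ∑ T' ∈ ℱ, ENNReal.ofReal (n T * n T' * KR P U g T T') := by
    rw [← Finset.sum_subset hℱ]
    · refine Finset.sum_congr rfl fun T hT => ?_
      rw [← Finset.sum_subset hℱ]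
      · refine Finset.sum_congr rfl fun T' hT' => ?_
        rw [if_pos hT, if_pos hT', ENNReal.ofReal_mul (mul_nonneg (hn T) (hn T')),
          ENNReal.ofReal_mul (hn T)]
        congr 1
        unfold KR
        split_ifs
        · rw [ENNReal.ofReal_mul (by positivity), ENNReal.ofReal_toReal (hfin _ _), inv_inv,
            ENNReal.ofReal_pow (by norm_num)]
          norm_num
          rfl
        · simp
      · intro T' _ hT'
        rw [if_neg hT', mul_zero, zero_mul]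
    · intro T _ hT
      refine Finset.sum_eq_zero fun T' _ => ?_
      rw [if_neg hT, zero_mul, zero_mul]
  rw [h1, h2] at key
  have hK : ∀ T T', 0 ≤ n T * n T' * KR P U g T T' := by
    intro T T'
    unfold KR
    split_ifs
    · have := hn T
      have := hn T'
      have := (ENNReal.toReal_nonneg :
        0 ≤ (MP (P \ (T.1 ∪ T.2 ∪ (T'.1 ∪ T'.2))) U (g - sg (T.1 ∪ T'.1) (T.2 ∪ T'.2))).toReal)
      positivity
    · simp
  have h3 : ∑ T ∈ ℱ, ∑ T' ∈ ℱ, ENNReal.ofReal (n T * n T' * KR P U g T T') =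
      ENNReal.ofReal (∑ T ∈ ℱ, ∑ T' ∈ ℱ, n T * n T' * KR P U g T T') := by
    rw [ENNReal.ofReal_sum_of_nonneg fun T _ => Finset.sum_nonneg fun T' _ => hK T T']
    refine Finset.sum_congr rfl fun T _ => ?_
    rw [ENNReal.ofReal_sum_of_nonneg fun T' _ => hK T T']
  rw [h3] at key
  have h4 := ENNReal.toReal_mono (ENNReal.mul_ne_top (hfin P g) ENNReal.ofReal_ne_top) key
  rw [ENNReal.toReal_mul, ENNReal.toReal_ofReal (Finset.sum_nonneg fun T _ =>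
    Finset.sum_nonneg fun T' _ => hK T T'), ENNReal.toReal_pow, ENNReal.toReal_sum (fun T _ =>
      ENNReal.mul_ne_top ENNReal.ofReal_ne_top (hfin _ _))] at h4
  refine le_trans (le_of_eq ?_) h4
  congr 1
  refine Finset.sum_congr rfl fun T _ => ?_
  rw [ENNReal.toReal_mul, ENNReal.toReal_ofReal (hn T)]

/-- Sets of a family as signed sets. -/
theorem Fam_sub_SS {M : G → ℝ≥0∞} {P : Finset G} {n : ℕ} {s : ℝ} {g : G} :
    Fam M P n s g ⊆ SS P := by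
  intro T hT
  rw [mem_Fam] at hT
  rw [mem_SS]
  exact ⟨hT.1.1, hT.1.2, hT.2.1⟩

/-- The bound for the terms with intersection `I`. -/
noncomputable def BB (k : ℕ) (P : Finset G) (U : G → ℝ≥0∞) (g : G) (T I : Finset G × Finset G) : ℝ :=
  Real.exp ((I.1.card + I.2.card : ℕ) : ℝ) * (MP (P \ (T.1 ∪ T.2)) U (g - sg I.1 I.2)).toReal +
    Real.exp (-(((I.1.card + I.2.card : ℕ) : ℝ) ^ 2 / (8 * (1 / (100 * (k : ℝ)))))) *
      (MP (P \ (T.1 ∪ T.2)) U 0).toReal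

theorem MP_anti {U : G → ℝ≥0∞} {Q R : Finset G} (h : Q ⊆ R) (x : G) : MP Q U x ≤ MP R U x := by
  have h1 := MP_split U (P := R) (F := R \ Q) sdiff_subset
  rw [Finset.sdiff_sdiff_eq_self h] at h1
  rw [h1]
  exact Pool.Agent.Helper36.LL.FF_zero_le (fun _ _ => tern_zero _) _ _

theorem sg_inter_union {T T' : Finset G × Finset G} :
    sg (T.1 ∪ T'.1) (T.2 ∪ T'.2) =
      sg T.1 T.2 + sg T'.1 T'.2 - sg (T.1 ∩ T'.1) (T.2 ∩ T'.2) := by
  unfold sg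
  have h1 := Finset.sum_union_inter (s₁ := T.1) (s₂ := T'.1) (f := fun x : G => x)
  have h2 := Finset.sum_union_inter (s₁ := T.2) (s₂ := T'.2) (f := fun x : G => x)
  have e1 : ∑ x ∈ T.1 ∪ T'.1, x = ∑ x ∈ T.1, x + ∑ x ∈ T'.1, x - ∑ x ∈ T.1 ∩ T'.1, x := by
    rw [← h1]; abel
  have e2 : ∑ x ∈ T.2 ∪ T'.2, x = ∑ x ∈ T.2, x + ∑ x ∈ T'.2, x - ∑ x ∈ T.2 ∩ T'.2, x := by
    rw [← h2]; abel
  rw [e1, e2]
  abel

theorem fin_MP {U : G → ℝ≥0∞} (hU : PD U) (hU0 : Fin0 U) (Q : Finset G) :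
    PD (MP Q U) ∧ Fin0 (MP Q U) ∧ ∀ x, MP Q U x ≠ ⊤ := by
  have h64 : (64⁻¹ : ℝ≥0∞) ≤ 2⁻¹ := ENNReal.inv_le_inv.2 (by norm_num)
  have h1 : PD (MP Q U) := PD.FF_tern hU h64 Q
  have h2 : Fin0 (MP Q U) := Fin0.FF_tern hU hU0 h64 Q
  exact ⟨h1, h2, fun x => ne_top_of_le_ne_top h2.2 (h1.le_zero x)⟩

theorem MP_real_le {U : G → ℝ≥0∞} (hU : PD U) (hU0 : Fin0 U) {Q R : Finset G} (h : Q ⊆ R) (x : G) :
    (MP Q U x).toReal ≤ (MP R U x).toReal :=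
  ENNReal.toReal_mono ((fin_MP hU hU0 R).2.2 x) (MP_anti h x)

theorem MP_real_zero {U : G → ℝ≥0∞} (hU : PD U) (hU0 : Fin0 U) (Q : Finset G) (x : G) :
    (MP Q U x).toReal ≤ (MP Q U 0).toReal :=
  ENNReal.toReal_mono ((fin_MP hU hU0 Q).2.2 0) ((fin_MP hU hU0 Q).1.le_zero x)

/-- The trivial bound for the kernel. -/
theorem KR_le_zero (P : Finset G) {U : G → ℝ≥0∞} (hU : PD U) (hU0 : Fin0 U) (g : G)
    (T T' : Finset G × Finset G) :
    KR P U g T T' ≤ 64 ^ ((T.1 ∩ T'.1).card + (T.2 ∩ T'.2).card) * (MP P U 0).toReal := by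
  unfold KR
  split_ifs
  · refine mul_le_mul_of_nonneg_left ?_ (by positivity)
    exact (MP_real_zero hU hU0 _ _).trans (MP_real_le hU hU0 sdiff_subset 0)
  · have : 0 ≤ (MP P U 0).toReal := ENNReal.toReal_nonneg
    positivity

theorem KR_nonneg (P : Finset G) (U : G → ℝ≥0∞) (g : G)
    (T T' : Finset G × Finset G) : 0 ≤ KR P U g T T' := by
  unfold KR
  split_ifs
  · exact mul_nonneg (by positivity) ENNReal.toReal_nonneg
  · exact le_rfl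

theorem BB_nonneg (k : ℕ) (P : Finset G) (U : G → ℝ≥0∞) (g : G) (T I : Finset G × Finset G) :
    0 ≤ BB k P U g T I := by
  unfold BB
  have h1 : 0 ≤ (MP (P \ (T.1 ∪ T.2)) U (g - sg I.1 I.2)).toReal := ENNReal.toReal_nonneg
  have h2 : 0 ≤ (MP (P \ (T.1 ∪ T.2)) U 0).toReal := ENNReal.toReal_nonneg
  have := Real.exp_pos ((I.1.card + I.2.card : ℕ) : ℝ)
  have := Real.exp_pos (-(((I.1.card + I.2.card : ℕ) : ℝ) ^ 2 / (8 * (1 / (100 * (k : ℝ))))))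
  positivity

/-- The bound for the kernel from the shift inequality. -/
theorem KR_le {k : ℕ} (hk : 100 ≤ k) {P : Finset G} {E U : G → ℝ≥0∞} (h : Lev k P E U)
    {s : ℝ} (hs0 : 0 ≤ s) (hs' : 4 * s ≤ 1 / (2 ^ 28 * (k : ℝ) ^ 3)) {g : G}
    {T T' : Finset G × Finset G} (hT : T ∈ Fam (MP P U) P (2 ^ k) s g)
    (hT' : T' ∈ Fam (MP P U) P (2 ^ k) s g)
    (hne : 1 ≤ (T.1 ∩ T'.1).card + (T.2 ∩ T'.2).card) :
    KR P U g T T' ≤ 64 ^ ((T.1 ∩ T'.1).card + (T.2 ∩ T'.2).card) *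
      BB k P U g T (T.1 ∩ T'.1, T.2 ∩ T'.2) := by
  have hB := BB_nonneg k P U g T (T.1 ∩ T'.1, T.2 ∩ T'.2)
  obtain ⟨a1, a2, a3⟩ := fin_MP h.pd h.u0 (P \ (T.1 ∪ T.2))
  obtain ⟨b1, b2, b3⟩ := fin_MP h.pd h.u0 P
  unfold KR
  split_ifs
  swap
  · positivity
  refine mul_le_mul_of_nonneg_left ?_ (by positivity)
  refine (MP_real_le h.pd h.u0 (R := P \ (T.1 ∪ T.2))
    (sdiff_subset_sdiff (Finset.Subset.refl _) subset_union_left) _).trans ?_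
  set I : Finset G × Finset G := (T.1 ∩ T'.1, T.2 ∩ T'.2) with hI
  set f : G := (g - sg T.1 T.2) + (g - sg T'.1 T'.2) with hf
  have e1 : g - sg (T.1 ∪ T'.1) (T.2 ∪ T'.2) = -((g - sg I.1 I.2) - f) := by
    rw [sg_inter_union, hf, hI]
    abel
  rw [e1, a1.neg]
  have hkf : kap (MP P U) f ≤ 1 / (2 ^ 28 * (k : ℝ) ^ 3) := by
    have h1 := (mem_Fam.1 hT).2.2.2.2.2
    have h2 := (mem_Fam.1 hT').2.2.2.2.2
    have h3 := b1.kap_add b2 (Real.sqrt_nonneg s) (Real.sqrt_nonneg s)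
      (by rw [Real.sq_sqrt hs0]; exact h1) (by rw [Real.sq_sqrt hs0]; exact h2)
    have h4 : (Real.sqrt s + Real.sqrt s) ^ 2 = 4 * s := by
      have := Real.sq_sqrt hs0
      nlinarith
    rw [h4] at h3
    exact h3.trans hs'
  have hk0 : (0 : ℝ) < k := by
    have : (100 : ℝ) ≤ k := by exact_mod_cast hk
    linarith
  have hne' : (1 : ℝ) ≤ ((I.1.card + I.2.card : ℕ) : ℝ) := by exact_mod_cast hne
  have hsh := shift h.gi h.e0 (h.ext.FF (fun _ => tern 64⁻¹) (P \ (T.1 ∪ T.2))) a2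
    (fun x => a1.le_zero x) (s := 1 / (100 * (k : ℝ))) (by positivity) (f := f)
    (h.shut f hkf) (g - sg I.1 I.2) (t := ((I.1.card + I.2.card : ℕ) : ℝ)) (by
      have h100 : (100 : ℝ) ≤ k := by exact_mod_cast hk
      have : 8 * (1 / (100 * (k : ℝ))) ≤ 1 := by
        rw [mul_one_div, div_le_one (by positivity)]
        linarith
      linarith)
  unfold BB
  have g1 : 0 ≤ (MP (P \ (T.1 ∪ T.2)) U (g - sg I.1 I.2)).toReal := ENNReal.toReal_nonneg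
  have g2 : 0 ≤ (MP (P \ (T.1 ∪ T.2)) U 0).toReal := ENNReal.toReal_nonneg
  have g3 := mul_nonneg (Real.exp_pos ((I.1.card + I.2.card : ℕ) : ℝ)).le g1
  have g4 := mul_nonneg (Real.exp_pos (-(((I.1.card + I.2.card : ℕ) : ℝ) ^ 2 /
    (8 * (1 / (100 * (k : ℝ))))))).le g2
  rcases hsh with h1 | h1
  · exact h1.trans (le_add_of_nonneg_right g4)
  · exact h1.trans (le_add_of_nonneg_left g3)

/-- The weight of the members other than `T` which contain a part of `T`. -/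
theorem fam_inner {P : Finset G} {U : G → ℝ≥0∞} (hU : PD U) (hU0 : Fin0 U) {n : ℕ}
    {s : ℝ} {g : G} {T : Finset G × Finset G} (hT : T ∈ Fam (MP P U) P n s g) {q : ℝ} (hq : 0 ≤ q)
    {N : ℝ} (hN : ∀ g', ∑ T' ∈ Fam (MP P U) P n s g', q ^ (T'.1 ∪ T'.2).card ≤ N)
    {I : Finset G × Finset G} (hI1 : I.1 ⊆ T.1) (hI2 : I.2 ⊆ T.2) :
    ∑ T' ∈ ((Fam (MP P U) P n s g).erase T).filter (fun T' => I.1 ⊆ T'.1 ∧ I.2 ⊆ T'.2),
        q ^ (T'.1 ∪ T'.2).card ≤ q ^ (I.1 ∪ I.2).card * N := by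
  classical
  obtain ⟨b1, b2, b3⟩ := fin_MP hU hU0 P
  have hstep := fam_step (M := MP P U) (fun x y a b ha hb hx hy => b1.kap_sub b2 ha hb hx hy)
    (fun x => b1.kap_nonneg b2 x) hT hI1 hI2 hq
  have hqI : 0 ≤ q ^ (I.1 ∪ I.2).card := by positivity
  rw [Finset.filter_erase]
  by_cases hIT : I = T
  · subst hIT
    rw [if_pos rfl] at hstep
    have hmem : I ∈ (Fam (MP P U) P n s g).filter (fun T' => I.1 ⊆ T'.1 ∧ I.2 ⊆ T'.2) :=
      Finset.mem_filter.2 ⟨hT, Finset.Subset.refl _, Finset.Subset.refl _⟩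
    have h1 := Finset.sum_erase_add _ (fun T' : Finset G × Finset G =>
      q ^ (T'.1 ∪ T'.2).card) hmem
    have h2 := mul_le_mul_of_nonneg_left (hN (g - sg I.1 I.2)) hqI
    linarith
  · rw [if_neg hIT, add_zero] at hstep
    refine le_trans ?_ (hstep.trans (mul_le_mul_of_nonneg_left (hN _) hqI))
    exact Finset.sum_le_sum_of_subset_of_nonneg (Finset.erase_subset _ _)
      (fun T' _ _ => by positivity)

/-- One row of the second moment. -/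
theorem row_sum {k : ℕ} (hk : 100 ≤ k) {P : Finset G} {E U : G → ℝ≥0∞} (h : Lev k P E U)
    {s : ℝ} (hs0 : 0 ≤ s) (hs' : 4 * s ≤ 1 / (2 ^ 28 * (k : ℝ) ^ 3)) {g : G}
    {T : Finset G × Finset G} (hT : T ∈ Fam (MP P U) P (2 ^ k) s g)
    {N : ℝ} (hN0 : 0 ≤ N) (hN : ∀ g', ∑ T' ∈ Fam (MP P U) P (2 ^ k) s g',
      (1 / 2 ^ 15 : ℝ) ^ (T'.1 ∪ T'.2).card ≤ N) :
    ∑ T' ∈ Fam (MP P U) P (2 ^ k) s g, (1 / 2 ^ 15 : ℝ) ^ (T'.1 ∪ T'.2).card * KR P U g T T' ≤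
      (MP P U 0).toReal * (N * (1 + 1 / 23 * (8 / 7 * kap (MP P U) g + 4 / 2 ^ (19 * k)) +
        2 / 2 ^ (17 * k)) + 1 / 2 ^ 9) := by
  classical
  obtain ⟨b1, b2, b3⟩ := fin_MP h.pd h.u0 P
  have hm0 : 0 < (MP P U 0).toReal := ENNReal.toReal_pos b2.1 b2.2
  obtain ⟨⟨hT1, hT2⟩, hTd, hTne, hTc, hTf, hTk⟩ := mem_Fam.1 hT
  obtain ⟨a1, a2, a3⟩ := fin_MP h.pd h.u0 (P \ (T.1 ∪ T.2))
  have hmT : 0 < (MP (P \ (T.1 ∪ T.2)) U 0).toReal := ENNReal.toReal_pos a2.1 a2.2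
  have hmTle : (MP (P \ (T.1 ∪ T.2)) U 0).toReal ≤ (MP P U 0).toReal :=
    MP_real_le h.pd h.u0 sdiff_subset 0
  set ℱ := Fam (MP P U) P (2 ^ k) s g with hℱ
  set q : ℝ := 1 / 2 ^ 15 with hq
  have hq0 : 0 < q := by rw [hq]; positivity
  have hcardI : ∀ I : Finset G × Finset G, I.1 ⊆ T.1 → I.2 ⊆ T.2 →
      (I.1 ∪ I.2).card = I.1.card + I.2.card := fun I h1 h2 =>
    card_union_of_disjoint (disjoint_of_subset_left h1 (disjoint_of_subset_right h2 hTd))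
  -- the diagonal term
  have hdiag : q ^ (T.1 ∪ T.2).card * KR P U g T T ≤ 1 / 2 ^ 9 * (MP P U 0).toReal := by
    have h1 := KR_le_zero P h.pd h.u0 g T T
    rw [inter_self, inter_self] at h1
    have h2 := mul_le_mul_of_nonneg_left h1 (show 0 ≤ q ^ (T.1 ∪ T.2).card by positivity)
    refine h2.trans ?_
    rw [hcardI T (Finset.Subset.refl _) (Finset.Subset.refl _), ← mul_assoc, ← mul_pow]
    refine mul_le_mul_of_nonneg_right ?_ hm0.le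
    have e1 : q * 64 = 1 / 2 ^ 9 := by rw [hq]; norm_num
    rw [e1]
    have h3 : 1 ≤ T.1.card + T.2.card := by
      rw [← hcardI T (Finset.Subset.refl _) (Finset.Subset.refl _)]
      exact card_pos.2 hTne
    calc (1 / 2 ^ 9 : ℝ) ^ (T.1.card + T.2.card) ≤ (1 / 2 ^ 9 : ℝ) ^ 1 :=
          pow_le_pow_of_le_one (by norm_num) (by norm_num) h3
      _ = _ := by norm_num
  -- the other terms
  set 𝒥 := (T.1.powerset ×ˢ T.2.powerset).erase (∅, ∅) with h𝒥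
  have hBnn : ∀ I, 0 ≤ BB k P U g T I := fun I => BB_nonneg k P U g T I
  have hterm : ∀ T' ∈ ℱ.erase T, q ^ (T'.1 ∪ T'.2).card * KR P U g T T' ≤
      q ^ (T'.1 ∪ T'.2).card * (MP P U 0).toReal +
      ∑ I ∈ 𝒥, (if I.1 ⊆ T'.1 ∧ I.2 ⊆ T'.2 then
        q ^ (T'.1 ∪ T'.2).card * (64 ^ (I.1.card + I.2.card) * BB k P U g T I) else 0) := by
    intro T' hT'
    have hT'ℱ : T' ∈ ℱ := Finset.mem_of_mem_erase hT'
    have hnn : ∀ I ∈ 𝒥, 0 ≤ (if I.1 ⊆ T'.1 ∧ I.2 ⊆ T'.2 then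
        q ^ (T'.1 ∪ T'.2).card * (64 ^ (I.1.card + I.2.card) * BB k P U g T I) else 0) := by
      intro I _
      split_ifs
      · have := hBnn I
        positivity
      · exact le_rfl
    by_cases h0 : (T.1 ∩ T'.1).card + (T.2 ∩ T'.2).card = 0
    · have h1 := KR_le_zero P h.pd h.u0 g T T'
      rw [h0, pow_zero, one_mul] at h1
      have h2 := mul_le_mul_of_nonneg_left h1 (show 0 ≤ q ^ (T'.1 ∪ T'.2).card by positivity)
      exact h2.trans (le_add_of_nonneg_right (Finset.sum_nonneg hnn))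
    · have h1 := KR_le hk h hs0 hs' hT hT'ℱ (Nat.one_le_iff_ne_zero.2 h0)
      have h2 := mul_le_mul_of_nonneg_left h1 (show 0 ≤ q ^ (T'.1 ∪ T'.2).card by positivity)
      have hmem : (T.1 ∩ T'.1, T.2 ∩ T'.2) ∈ 𝒥 := by
        rw [h𝒥, mem_erase, mem_product, mem_powerset, mem_powerset]
        refine ⟨fun he => h0 ?_, inter_subset_left, inter_subset_left⟩
        rw [Prod.mk.injEq] at he
        rw [he.1, he.2]
        simp
      have h3 := Finset.single_le_sum hnn hmem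
      rw [if_pos ⟨inter_subset_right, inter_subset_right⟩] at h3
      have h4 : 0 ≤ q ^ (T'.1 ∪ T'.2).card * (MP P U 0).toReal := by positivity
      exact (h2.trans h3).trans (le_add_of_nonneg_left h4)
  have hsum1 : ∑ T' ∈ ℱ.erase T, q ^ (T'.1 ∪ T'.2).card ≤ N :=
    (Finset.sum_le_sum_of_subset_of_nonneg (Finset.erase_subset _ _)
      (fun T' _ _ => by positivity)).trans (hN g)
  have hsum2 : ∑ T' ∈ ℱ.erase T, ∑ I ∈ 𝒥, (if I.1 ⊆ T'.1 ∧ I.2 ⊆ T'.2 then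
        q ^ (T'.1 ∪ T'.2).card * (64 ^ (I.1.card + I.2.card) * BB k P U g T I) else 0) ≤
      N * ∑ I ∈ 𝒥, (1 / 2 ^ 9 : ℝ) ^ (I.1.card + I.2.card) * BB k P U g T I := by
    rw [Finset.sum_comm, Finset.mul_sum]
    refine Finset.sum_le_sum fun I hI => ?_
    rw [h𝒥, mem_erase, mem_product, mem_powerset, mem_powerset] at hI
    have h1 := fam_inner h.pd h.u0 hT hq0.le hN hI.2.1 hI.2.2
    rw [← Finset.sum_filter, ← Finset.sum_mul]
    have h2 := mul_le_mul_of_nonneg_right h1 (show 0 ≤ 64 ^ (I.1.card + I.2.card) *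
      BB k P U g T I from mul_nonneg (by positivity) (hBnn I))
    refine h2.trans (le_of_eq ?_)
    rw [hcardI I hI.2.1 hI.2.2]
    have e1 : (1 / 2 ^ 9 : ℝ) = q * 64 := by rw [hq]; norm_num
    rw [e1, mul_pow]
    ring
  -- the sum over the patterns
  have hpat : ∑ I ∈ 𝒥, (1 / 2 ^ 9 : ℝ) ^ (I.1.card + I.2.card) * BB k P U g T I ≤
      (1 / 23 * (kap (MP (P \ (T.1 ∪ T.2)) U) g + 3 / 2 ^ (19 * k)) + 2 / 2 ^ (17 * k)) *
        (MP (P \ (T.1 ∪ T.2)) U 0).toReal := by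
    have hw : Real.exp 1 / 2 ^ 9 ≤ 1 / 8 := by
      have := Real.exp_one_lt_d9
      norm_num
      linarith
    have h1 := Lev.patterns hk h hT1 hT2 hTd hTc (w := Real.exp 1 / 2 ^ 9) (by positivity) hw g
    have h2 := second_case_sum hk T.1 T.2 hTd hTc
    have h3 : ∑ I ∈ 𝒥, (1 / 2 ^ 9 : ℝ) ^ (I.1.card + I.2.card) * BB k P U g T I =
        ∑ I ∈ 𝒥, (Real.exp 1 / 2 ^ 9) ^ (I.1.card + I.2.card) *
          (MP (P \ (T.1 ∪ T.2)) U (g - sg I.1 I.2)).toReal +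
        (∑ I ∈ 𝒥, (1 / 2 ^ 9 : ℝ) ^ (I.1.card + I.2.card) *
          Real.exp (-(((I.1.card + I.2.card : ℕ) : ℝ) ^ 2 / (8 * (1 / (100 * (k : ℝ))))))) *
          (MP (P \ (T.1 ∪ T.2)) U 0).toReal := by
      rw [Finset.sum_mul, ← Finset.sum_add_distrib]
      refine Finset.sum_congr rfl fun I _ => ?_
      unfold BB
      have e1 : Real.exp ((I.1.card + I.2.card : ℕ) : ℝ) =
          Real.exp 1 ^ (I.1.card + I.2.card) := by
        rw [← Real.exp_nat_mul, mul_one]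
      rw [e1, div_pow, div_pow]
      ring
    rw [h3, add_mul]
    have hkT : 0 ≤ kap (MP (P \ (T.1 ∪ T.2)) U) g := a1.kap_nonneg a2 g
    refine add_le_add (h1.trans ?_) (mul_le_mul_of_nonneg_right h2 hmT.le)
    refine mul_le_mul_of_nonneg_right ?_ hmT.le
    refine mul_le_mul_of_nonneg_right ?_ (by positivity)
    have := Real.exp_one_lt_d9
    norm_num
    linarith
  have hown := Lev.own hk h (union_subset hT1 hT2) hTc g
  have hkT : 0 ≤ kap (MP (P \ (T.1 ∪ T.2)) U) g := a1.kap_nonneg a2 g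
  have hpat2 : ∑ I ∈ 𝒥, (1 / 2 ^ 9 : ℝ) ^ (I.1.card + I.2.card) * BB k P U g T I ≤
      (1 / 23 * (8 / 7 * kap (MP P U) g + 4 / 2 ^ (19 * k)) + 2 / 2 ^ (17 * k)) *
        (MP P U 0).toReal := by
    refine hpat.trans ?_
    have e4 : (4 : ℝ) / 2 ^ (19 * k) = 1 / 2 ^ (19 * k) + 3 / 2 ^ (19 * k) := by ring
    refine mul_le_mul ?_ hmTle hmT.le ?_
    · rw [e4]
      linarith
    · have := b1.kap_nonneg b2 g
      positivity
  rw [← Finset.sum_erase_add _ _ hT]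
  have hA : ∑ T' ∈ ℱ.erase T, q ^ (T'.1 ∪ T'.2).card * KR P U g T T' ≤
      N * (MP P U 0).toReal + N * ((1 / 23 * (8 / 7 * kap (MP P U) g + 4 / 2 ^ (19 * k)) +
        2 / 2 ^ (17 * k)) * (MP P U 0).toReal) := by
    refine (Finset.sum_le_sum hterm).trans ?_
    rw [Finset.sum_add_distrib, ← Finset.sum_mul]
    exact add_le_add (mul_le_mul_of_nonneg_right hsum1 hm0.le)
      (hsum2.trans (mul_le_mul_of_nonneg_left hpat2 hN0))
  linarith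

/-- The numerical part. -/
theorem mu_num {N s κ d z m mg : ℝ} (hN : 640 / 2 ^ 15 / s < N) (hs : 0 < s) (hs1 : s ≤ 1 / 1000)
    (hκ0 : 0 ≤ κ) (hκ1 : κ ≤ 1) (hd0 : 0 ≤ d) (hd : d ≤ s / 1000) (hz0 : 0 ≤ z) (hz : z ≤ s / 1000)
    (hm : 0 < m) (hmg : mg = (1 - κ) * m)
    (hmain : (N * ((1 - 8 / 7 * s - 2 * d) * m)) ^ 2 ≤
      mg * (N * (m * (N * (1 + 1 / 23 * (8 / 7 * κ + 4 * d) + z) + 1 / 2 ^ 9)))) : κ ≤ 3 * s := by
  have hN0 : 0 < N := lt_trans (by positivity) hN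
  have h9 : (1 : ℝ) / 2 ^ 9 ≤ N * (s / 10) := by
    rw [div_lt_iff₀ hs] at hN
    norm_num at hN ⊢
    linarith
  set r : ℝ := 1 + 1 / 23 * (8 / 7 * κ + 4 * d) + z with hr
  have hr0 : 0 ≤ r := by rw [hr]; positivity
  have hmg0 : 0 ≤ mg := by rw [hmg]; exact mul_nonneg (by linarith) hm.le
  have h1 : (N * ((1 - 8 / 7 * s - 2 * d) * m)) ^ 2 ≤
      (1 - κ) * m * (N * (m * (N * (r + s / 10)))) := by
    refine hmain.trans ?_
    rw [hmg]
    have : N * r + 1 / 2 ^ 9 ≤ N * (r + s / 10) := by nlinarith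
    refine mul_le_mul_of_nonneg_left ?_ (by rw [← hmg]; exact hmg0)
    refine mul_le_mul_of_nonneg_left ?_ hN0.le
    exact mul_le_mul_of_nonneg_left this hm.le
  have h2 : (1 - 8 / 7 * s - 2 * d) ^ 2 ≤ (1 - κ) * (r + s / 10) := by
    have e1 : (N * ((1 - 8 / 7 * s - 2 * d) * m)) ^ 2 =
        (1 - 8 / 7 * s - 2 * d) ^ 2 * (N ^ 2 * m ^ 2) := by ring
    have e2 : (1 - κ) * m * (N * (m * (N * (r + s / 10)))) =
        (1 - κ) * (r + s / 10) * (N ^ 2 * m ^ 2) := by ring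
    rw [e1, e2] at h1
    exact le_of_mul_le_mul_right h1 (by positivity)
  have h3 : 1 - 16 / 7 * s - 4 * d ≤ (1 - 8 / 7 * s - 2 * d) ^ 2 := by nlinarith [sq_nonneg (8 / 7 * s + 2 * d)]
  have h4 : (1 - κ) * (r + s / 10) ≤ 1 - 153 / 161 * κ + (4 / 23 * d + z + s / 10) := by
    rw [hr]
    nlinarith [mul_nonneg hκ0 hκ0, mul_nonneg hκ0 hd0, mul_nonneg hκ0 hz0, mul_nonneg hκ0 hs.le]
  linarith

theorem mu_claim {k : ℕ} (hk : 100 ≤ k) {P : Finset G} {E U : G → ℝ≥0∞} (h : Lev k P E U)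
    {s : ℝ} (hs : 1 / 2 ^ (9 * k) ≤ s) (hs' : 4 * s ≤ 1 / (2 ^ 28 * (k : ℝ) ^ 3)) (g : G) :
    ∑ T ∈ Fam (MP P U) P (2 ^ k) s g, (1 / 2 ^ 15 : ℝ) ^ (T.1 ∪ T.2).card ≤
      640 / 2 ^ 15 / s := by
  obtain ⟨g₀, hg₀⟩ := fam_sup (MP P U) P (2 ^ k) s
    (fun 𝒮 => ∑ T ∈ 𝒮, (1 / 2 ^ 15 : ℝ) ^ (T.1 ∪ T.2).card)
  refine (hg₀ g).trans ?_
  clear g
  by_contra hcon
  push Not at hcon
  have hs0 : 0 < s := lt_of_lt_of_le (by positivity) hs
  obtain ⟨b1, b2, b3⟩ := fin_MP h.pd h.u0 P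
  have hm0 : 0 < (MP P U 0).toReal := ENNReal.toReal_pos b2.1 b2.2
  set N := ∑ T ∈ Fam (MP P U) P (2 ^ k) s g₀, (1 / 2 ^ 15 : ℝ) ^ (T.1 ∪ T.2).card with hN
  have hN0 : 0 < N := lt_trans (by positivity) hcon
  have hd0 : (0 : ℝ) ≤ 1 / 2 ^ (19 * k) := by positivity
  have hk1 : (1 : ℝ) ≤ k := by exact_mod_cast (by omega : 1 ≤ k)
  have hs1 : s ≤ 1 / 1000 := by
    have h1 : (1 : ℝ) / (2 ^ 28 * (k : ℝ) ^ 3) ≤ 1 / 2 ^ 28 := by
      apply one_div_le_one_div_of_le (by positivity)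
      have : (1 : ℝ) ≤ (k : ℝ) ^ 3 := one_le_pow₀ hk1
      nlinarith
    have h2 : (1 : ℝ) / 2 ^ 28 ≤ 1 / 1000 := by norm_num
    linarith
  have hbig : ∀ j : ℕ, 10 * k ≤ j → (1 : ℝ) / 2 ^ j ≤ 1 / 1000 / 2 * s := by
    intro j hj
    have e1 : (2 : ℝ) ^ 11 * 2 ^ (9 * k) ≤ 2 ^ j := by
      rw [← pow_add]
      exact pow_le_pow_right₀ (by norm_num) (by omega)
    have e2 : (1 : ℝ) / 2 ^ j ≤ 1 / (2 ^ 11 * 2 ^ (9 * k)) :=
      one_div_le_one_div_of_le (by positivity) e1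
    have e3 : (1 : ℝ) / (2 ^ 11 * 2 ^ (9 * k)) = 1 / 2 ^ 11 * (1 / 2 ^ (9 * k)) := by
      rw [one_div_mul_one_div]
    rw [e3] at e2
    have e4 : (1 : ℝ) / 2 ^ 11 * (1 / 2 ^ (9 * k)) ≤ 1 / 2 ^ 11 * s :=
      mul_le_mul_of_nonneg_left hs (by positivity)
    have e5 : (1 : ℝ) / 2 ^ 11 * s ≤ 1 / 1000 / 2 * s :=
      mul_le_mul_of_nonneg_right (by norm_num) hs0.le
    linarith
  have hd : (1 : ℝ) / 2 ^ (19 * k) ≤ s / 1000 := by
    have := hbig (19 * k) (by omega)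
    linarith
  have hz : (2 : ℝ) / 2 ^ (17 * k) ≤ s / 1000 := by
    have := hbig (17 * k) (by omega)
    have e : (2 : ℝ) / 2 ^ (17 * k) = 2 * (1 / 2 ^ (17 * k)) := by ring
    rw [e]
    linarith
  -- the first moment
  have hfirst : N * ((1 - 8 / 7 * s - 2 * (1 / 2 ^ (19 * k))) * (MP P U 0).toReal) ≤
      ∑ T ∈ Fam (MP P U) P (2 ^ k) s g₀, (1 / 2 ^ 15 : ℝ) ^ (T.1 ∪ T.2).card *
        (MP (P \ (T.1 ∪ T.2)) U (g₀ - sg T.1 T.2)).toReal := by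
    rw [hN, Finset.sum_mul]
    refine Finset.sum_le_sum fun T hT => ?_
    refine mul_le_mul_of_nonneg_left ?_ (by positivity)
    obtain ⟨⟨hT1, hT2⟩, hTd, hTne, hTc, hTf, hTk⟩ := mem_Fam.1 hT
    obtain ⟨a1, a2, a3⟩ := fin_MP h.pd h.u0 (P \ (T.1 ∪ T.2))
    have hmT : 0 < (MP (P \ (T.1 ∪ T.2)) U 0).toReal := ENNReal.toReal_pos a2.1 a2.2
    have hown := Lev.own hk h (union_subset hT1 hT2) hTc (g₀ - sg T.1 T.2)
    have hmass := Lev.mass hk h (union_subset hT1 hT2) hTc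
    set mT := (MP (P \ (T.1 ∪ T.2)) U 0).toReal with hmTdef
    have h1 : (1 - 8 / 7 * s - 1 / 2 ^ (19 * k)) * mT ≤
        (MP (P \ (T.1 ∪ T.2)) U (g₀ - sg T.1 T.2)).toReal := by
      have h2 : kap (MP (P \ (T.1 ∪ T.2)) U) (g₀ - sg T.1 T.2) ≤
          8 / 7 * s + 1 / 2 ^ (19 * k) := by linarith
      unfold kap at h2
      have h3 : 1 - 8 / 7 * s - 1 / 2 ^ (19 * k) ≤
          (MP (P \ (T.1 ∪ T.2)) U (g₀ - sg T.1 T.2)).toReal / mT := by linarith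
      rwa [le_div_iff₀ hmT] at h3
    have h4 : (1 - 1 / 2 ^ (19 * k)) * (MP P U 0).toReal ≤ mT := by
      have h5 := mul_le_mul_of_nonneg_left hmass (Real.exp_pos (-(1 / 2 ^ (19 * k)))).le
      rw [← mul_assoc, ← Real.exp_add, neg_add_cancel, Real.exp_zero, one_mul] at h5
      have h6 := Real.add_one_le_exp (-(1 / 2 ^ (19 * k) : ℝ))
      have h7 : (1 - 1 / 2 ^ (19 * k)) * (MP P U 0).toReal ≤
          Real.exp (-(1 / 2 ^ (19 * k))) * (MP P U 0).toReal :=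
        mul_le_mul_of_nonneg_right (by linarith) hm0.le
      exact h7.trans h5
    have h8 : 0 ≤ 1 - 8 / 7 * s - 1 / 2 ^ (19 * k) := by linarith
    have h9 := mul_le_mul_of_nonneg_left h4 h8
    set d : ℝ := 1 / 2 ^ (19 * k)
    set m0 := (MP P U 0).toReal
    have h10 : (1 - 8 / 7 * s - 2 * d) * m0 ≤ (1 - 8 / 7 * s - d) * ((1 - d) * m0) := by
      have : (1 - 8 / 7 * s - d) * ((1 - d) * m0) - (1 - 8 / 7 * s - 2 * d) * m0 =
          (8 / 7 * s * d + d * d) * m0 := by ring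
      have h11 : 0 ≤ (8 / 7 * s * d + d * d) * m0 := by positivity
      linarith
    linarith
  have hsecond := second_real P h.pd h.u0 (Fam (MP P U) P (2 ^ k) s g₀) Fam_sub_SS
    (fun T => (1 / 2 ^ 15 : ℝ) ^ (T.1 ∪ T.2).card) (fun T => by positivity) g₀
  have hrows : ∑ T ∈ Fam (MP P U) P (2 ^ k) s g₀, ∑ T' ∈ Fam (MP P U) P (2 ^ k) s g₀,
      (1 / 2 ^ 15 : ℝ) ^ (T.1 ∪ T.2).card * (1 / 2 ^ 15 : ℝ) ^ (T'.1 ∪ T'.2).card *
        KR P U g₀ T T' ≤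
      N * ((MP P U 0).toReal * (N * (1 + 1 / 23 * (8 / 7 * kap (MP P U) g₀ +
        4 * (1 / 2 ^ (19 * k))) + 2 / 2 ^ (17 * k)) + 1 / 2 ^ 9)) := by
    conv_rhs => rw [hN, Finset.sum_mul]
    refine Finset.sum_le_sum fun T hT => ?_
    have h1 := row_sum hk h hs0.le hs' hT hN0.le hg₀
    have e1 : (4 : ℝ) / 2 ^ (19 * k) = 4 * (1 / 2 ^ (19 * k)) := by ring
    rw [e1] at h1
    simp only [mul_assoc]
    rw [← Finset.mul_sum]
    exact mul_le_mul_of_nonneg_left h1 (by positivity)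
  have hkap0 := b1.kap_nonneg b2 g₀
  have hkap1 : kap (MP P U) g₀ ≤ 1 := by
    unfold kap
    have : 0 ≤ (MP P U g₀).toReal / (MP P U 0).toReal :=
      div_nonneg ENNReal.toReal_nonneg ENNReal.toReal_nonneg
    linarith
  have hmg : (MP P U g₀).toReal = (1 - kap (MP P U) g₀) * (MP P U 0).toReal := by
    unfold kap
    field_simp
    ring
  have hpos : 0 ≤ 1 - 8 / 7 * s - 2 * (1 / 2 ^ (19 * k)) := by linarith
  have hmain : (N * ((1 - 8 / 7 * s - 2 * (1 / 2 ^ (19 * k))) * (MP P U 0).toReal)) ^ 2 ≤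
      (MP P U g₀).toReal * (N * ((MP P U 0).toReal * (N * (1 + 1 / 23 * (8 / 7 * kap (MP P U) g₀ +
        4 * (1 / 2 ^ (19 * k))) + 2 / 2 ^ (17 * k)) + 1 / 2 ^ 9))) := by
    refine le_trans (pow_le_pow_left₀ (mul_nonneg hN0.le (mul_nonneg hpos hm0.le)) hfirst 2) ?_
    exact hsecond.trans (mul_le_mul_of_nonneg_left hrows ENNReal.toReal_nonneg)
  have hκ := mu_num hcon hs0 hs1 hkap0 hkap1 hd0 hd (by positivity) hz hm0 hmg hmain
  -- a member of the family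
  have hne : (Fam (MP P U) P (2 ^ k) s g₀).Nonempty := by
    rw [Finset.nonempty_iff_ne_empty]
    intro he
    rw [hN, he, Finset.sum_empty] at hN0
    exact lt_irrefl _ hN0
  obtain ⟨T, hT⟩ := hne
  obtain ⟨⟨hT1, hT2⟩, hTd, hTne, hTc, hTf, hTk⟩ := mem_Fam.1 hT
  have h1 := hTf T.1 (Finset.Subset.refl _) T.2 (Finset.Subset.refl _) hTne
  have h2 := b1.kap_sub b2 (x := g₀) (y := g₀ - sg T.1 T.2) (Real.sqrt_nonneg (3 * s))
    (Real.sqrt_nonneg s) (by rw [Real.sq_sqrt (by positivity)]; exact hκ)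
    (by rw [Real.sq_sqrt hs0.le]; exact hTk)
  rw [sub_sub_cancel] at h2
  have h3 : (Real.sqrt (3 * s) + Real.sqrt s) ^ 2 ≤ 16 * s := by
    have e1 := Real.sq_sqrt (show 0 ≤ 3 * s by positivity)
    have e2 := Real.sq_sqrt hs0.le
    nlinarith [sq_nonneg (Real.sqrt (3 * s) - Real.sqrt s)]
  linarith

end Pool.Agent.SP
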