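import Pool.Agent.SP.Pd
import Pool.Agent.SP.Second

/-!
Own sites.
-/

set_option autoImplicit false

namespace Pool.Agent.SP

open Finset
open scoped ENNReal
open Pool.Agent.Helper36.LL (conv dlt FF gw tern FF_insert FF_empty tern_zero)

variable {G : Type*} [AddCommGroup G] [DecidableEq G]

theorem FF_union_own (w : G → ℤ → ℝ≥0∞) {A B : Finset G} (h : Disjoint A B) (p : G → ℝ≥0∞) :
    FF w (A ∪ B) p = FF w A (FF w B p) := by
  induction A using Finset.induction_on with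
  | empty => simp
  | insert c A hc ih =>
    rw [Finset.disjoint_insert_left] at h
    rw [Finset.insert_union, FF_insert w hc, FF_insert w (by
      rw [Finset.mem_union, not_or]; exact ⟨hc, h.1⟩), ih h.2]

theorem MP_split (U : G → ℝ≥0∞) {P F : Finset G} (hF : F ⊆ P) :
    MP P U = FF (fun _ => tern 64⁻¹) F (MP (P \ F) U) := by
  unfold MP
  rw [← FF_union_own _ disjoint_sdiff, union_sdiff_of_subset hF]

/-- Scaling of the weights. -/
theorem scale_own (M : G → ℝ≥0∞) (F : Finset G) (g : G) :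
    8 * FF (fun _ => tern 64⁻¹) F M g ≤ FF (fun _ => tern 8⁻¹) F M g + 7 * M g := by
  have h0 : (∅, ∅) ∈ SS F := by
    rw [mem_SS]
    exact ⟨empty_subset _, empty_subset _, disjoint_empty_left _⟩
  rw [FF_tern_sum, FF_tern_sum, Finset.mul_sum, ← Finset.add_sum_erase _ _ h0,
    ← Finset.add_sum_erase _ _ h0]
  have e0 : g - sg (∅ : Finset G) ∅ = g := by simp [sg]
  simp only [card_empty, add_zero, pow_zero, one_mul, e0]
  have h1 : ∑ x ∈ (SS F).erase (∅, ∅), 8 * ((64⁻¹ : ℝ≥0∞) ^ (x.1.card + x.2.card) *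
      M (g - sg x.1 x.2)) ≤
      ∑ x ∈ (SS F).erase (∅, ∅), (8⁻¹ : ℝ≥0∞) ^ (x.1.card + x.2.card) * M (g - sg x.1 x.2) := by
    refine Finset.sum_le_sum fun x hx => ?_
    rw [← mul_assoc]
    gcongr
    obtain ⟨n, hn⟩ : ∃ n, x.1.card + x.2.card = n + 1 := by
      refine Nat.exists_eq_succ_of_ne_zero fun h => ?_
      rw [mem_erase] at hx
      apply hx.1
      have h1 : x.1 = ∅ := card_eq_zero.1 (by omega)
      have h2 : x.2 = ∅ := card_eq_zero.1 (by omega)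
      exact Prod.ext h1 h2
    rw [hn, pow_succ, pow_succ]
    have e1 : (8 : ℝ≥0∞) * 64⁻¹ = 8⁻¹ := by
      have : (64 : ℝ≥0∞) = 8 * 8 := by norm_num
      rw [this, ENNReal.mul_inv (Or.inl (by norm_num)) (Or.inl (by norm_num)), ← mul_assoc,
        ENNReal.mul_inv_cancel (by norm_num) (by norm_num), one_mul]
    calc (8 : ℝ≥0∞) * ((64⁻¹ : ℝ≥0∞) ^ n * 64⁻¹) = (64⁻¹ : ℝ≥0∞) ^ n * (8 * 64⁻¹) := by ring
      _ ≤ (8⁻¹ : ℝ≥0∞) ^ n * 8⁻¹ := by
          rw [e1]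
          gcongr
          norm_num
  calc 8 * M g + ∑ x ∈ (SS F).erase (∅, ∅), 8 * ((64⁻¹ : ℝ≥0∞) ^ (x.1.card + x.2.card) *
        M (g - sg x.1 x.2))
      ≤ 8 * M g + ∑ x ∈ (SS F).erase (∅, ∅), (8⁻¹ : ℝ≥0∞) ^ (x.1.card + x.2.card) *
          M (g - sg x.1 x.2) := by gcongr
    _ = _ := by
        have : (8 : ℝ≥0∞) * M g = M g + 7 * M g := by
          rw [show (8 : ℝ≥0∞) = 1 + 7 by norm_num, add_mul, one_mul]
        rw [this]
        ring

section numbers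

theorem d_le (k : ℕ) (hk : 100 ≤ k) : (1 : ℝ) / 2 ^ (19 * k) ≤ 1 / 1000 := by
  have h1 : (1000 : ℝ) ≤ 2 ^ (19 * k) := by
    calc (1000 : ℝ) ≤ 2 ^ 10 := by norm_num
      _ ≤ 2 ^ (19 * k) := pow_le_pow_right₀ (by norm_num) (by omega)
  exact one_div_le_one_div_of_le (by norm_num) h1

theorem exp_card_le {k : ℕ} {n : ℕ} (hn : n ≤ 2 ^ k) :
    Real.exp ((n : ℝ) / 2 ^ (20 * k)) ≤ Real.exp (1 / 2 ^ (19 * k)) := by
  apply Real.exp_le_exp.2
  have h1 : (n : ℝ) ≤ 2 ^ k := by exact_mod_cast hn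
  have h2 : (2 : ℝ) ^ (20 * k) = 2 ^ k * 2 ^ (19 * k) := by
    rw [← pow_add]; congr 1; ring
  rw [h2, div_le_div_iff₀ (by positivity) (by positivity)]
  have : (0 : ℝ) < 2 ^ (19 * k) := by positivity
  nlinarith

theorem exp_le_own {d : ℝ} (hd : 0 ≤ d) (hd1 : d ≤ 1 / 1000) :
    1 ≤ Real.exp d ∧ Real.exp d ≤ 1 + 101 / 100 * d := by
  refine ⟨Real.one_le_exp hd, ?_⟩
  have h := Real.exp_bound' hd (by linarith) (n := 2) (by norm_num)
  norm_num [Finset.sum_range_succ] at h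
  nlinarith

end numbers

/-- The real form of the basic data. -/
theorem own_core {k : ℕ} (hk : 100 ≤ k) {P : Finset G} {E U : G → ℝ≥0∞} (h : Lev k P E U)
    {F : Finset G} (hF : F ⊆ P) (hc : F.card ≤ 2 ^ k) :
    PD (MP (P \ F) U) ∧ Fin0 (MP (P \ F) U) ∧ PD (MP P U) ∧ Fin0 (MP P U) ∧
    (MP (P \ F) U 0).toReal ≤ (MP P U 0).toReal ∧
    (∀ g, (FF (fun _ => tern 8⁻¹) F (MP (P \ F) U) g) ≠ ⊤) ∧
    (∀ g, (FF (fun _ => tern 8⁻¹) F (MP (P \ F) U) g).toReal ≤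
      Real.exp (1 / 2 ^ (19 * k)) * (MP P U 0).toReal) ∧
    (∀ g, 8 * (MP P U g).toReal ≤ (FF (fun _ => tern 8⁻¹) F (MP (P \ F) U) g).toReal +
      7 * (MP (P \ F) U g).toReal) := by
  have h64 : (64⁻¹ : ℝ≥0∞) ≤ 2⁻¹ := ENNReal.inv_le_inv.2 (by norm_num)
  have h8 : (8⁻¹ : ℝ≥0∞) ≤ 2⁻¹ := ENNReal.inv_le_inv.2 (by norm_num)
  have a1 : PD (MP (P \ F) U) := PD.FF_tern h.pd h64 _
  have a2 : Fin0 (MP (P \ F) U) := Fin0.FF_tern h.pd h.u0 h64 _
  have a3 : PD (MP P U) := PD.FF_tern h.pd h64 _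
  have a4 : Fin0 (MP P U) := Fin0.FF_tern h.pd h.u0 h64 _
  have b1 : PD (FF (fun _ => tern 8⁻¹) F (MP (P \ F) U)) := PD.FF_tern a1 h8 _
  have b2 : Fin0 (FF (fun _ => tern 8⁻¹) F (MP (P \ F) U)) := Fin0.FF_tern a1 a2 h8 _
  have hfin : ∀ g, FF (fun _ => tern 8⁻¹) F (MP (P \ F) U) g ≠ ⊤ := fun g =>
    ne_top_of_le_ne_top b2.2 (b1.le_zero g)
  have hfin0 : ∀ g, MP (P \ F) U g ≠ ⊤ := fun g => ne_top_of_le_ne_top a2.2 (a1.le_zero g)
  refine ⟨a1, a2, a3, a4, ?_, hfin, ?_, ?_⟩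
  · refine ENNReal.toReal_mono a4.2 ?_
    rw [MP_split U hF]
    exact Pool.Agent.Helper36.LL.FF_zero_le (fun _ _ => tern_zero _) _ _
  · intro g
    have h1 : FF (fun _ => tern 8⁻¹) F (MP (P \ F) U) 0 ≤
        ENNReal.ofReal (Real.exp (F.card / 2 ^ (20 * k))) * MP P U 0 := by
      rcases F.eq_empty_or_nonempty with rfl | hne
      · simp
      · exact h.light F hF hne hc
    have h2 := ENNReal.toReal_mono (ENNReal.mul_ne_top ENNReal.ofReal_ne_top a4.2)
      ((b1.le_zero g).trans h1)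
    rw [ENNReal.toReal_mul, ENNReal.toReal_ofReal (Real.exp_pos _).le] at h2
    exact h2.trans (mul_le_mul_of_nonneg_right (exp_card_le hc) ENNReal.toReal_nonneg)
  · intro g
    have h1 := scale_own (MP (P \ F) U) F g
    rw [← MP_split U hF] at h1
    have h2 := ENNReal.toReal_mono (ENNReal.add_ne_top.2 ⟨hfin g, ENNReal.mul_ne_top (by norm_num)
      (hfin0 g)⟩) h1
    rw [ENNReal.toReal_mul, ENNReal.toReal_add (hfin g) (ENNReal.mul_ne_top (by norm_num)
      (hfin0 g)), ENNReal.toReal_mul] at h2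
    simpa using h2

theorem Lev.mass {k : ℕ} (hk : 100 ≤ k) {P : Finset G} {E U : G → ℝ≥0∞} (h : Lev k P E U)
    {F : Finset G} (hF : F ⊆ P) (hc : F.card ≤ 2 ^ k) :
    (MP P U 0).toReal ≤ Real.exp (1 / 2 ^ (19 * k)) * (MP (P \ F) U 0).toReal := by
  obtain ⟨a1, a2, a3, a4, h1, hfin, h2, h3⟩ := own_core hk h hF hc
  have hd0 : (0 : ℝ) ≤ 1 / 2 ^ (19 * k) := by positivity
  obtain ⟨e1, e2⟩ := exp_le_own hd0 (d_le k hk)
  have hd1 := d_le k hk
  have h4 := h2 0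
  have h5 := h3 0
  have ha : 0 < (MP P U 0).toReal := ENNReal.toReal_pos a4.1 a4.2
  set a := (MP P U 0).toReal
  set b := (MP (P \ F) U 0).toReal
  set e := Real.exp (1 / 2 ^ (19 * k))
  have h6 : (8 - e) * a ≤ 7 * b := by linarith
  have h7 : 0 ≤ (e - 1) * (7 - e) := mul_nonneg (by linarith) (by linarith)
  have h8 : e * ((8 - e) * a) ≤ e * (7 * b) := mul_le_mul_of_nonneg_left h6 (by linarith)
  nlinarith [mul_nonneg h7 ha.le]

theorem Lev.own {k : ℕ} (hk : 100 ≤ k) {P : Finset G} {E U : G → ℝ≥0∞} (h : Lev k P E U)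
    {F : Finset G} (hF : F ⊆ P) (hc : F.card ≤ 2 ^ k) (x : G) :
    kap (MP (P \ F) U) x ≤ 8 / 7 * kap (MP P U) x + 1 / 2 ^ (19 * k) := by
  obtain ⟨a1, a2, a3, a4, h1, hfin, h2, h3⟩ := own_core hk h hF hc
  have hd0 : (0 : ℝ) ≤ 1 / 2 ^ (19 * k) := by positivity
  obtain ⟨e1, e2⟩ := exp_le_own hd0 (d_le k hk)
  have h4 := h2 x
  have h5 := h3 x
  have ha : 0 < (MP P U 0).toReal := ENNReal.toReal_pos a4.1 a4.2
  have hb : 0 < (MP (P \ F) U 0).toReal := ENNReal.toReal_pos a2.1 a2.2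
  have hx0 : 0 ≤ (MP (P \ F) U x).toReal := ENNReal.toReal_nonneg
  unfold kap
  set a := (MP P U 0).toReal
  set b := (MP (P \ F) U 0).toReal
  set e := Real.exp (1 / 2 ^ (19 * k))
  set ax := (MP P U x).toReal
  set bx := (MP (P \ F) U x).toReal
  set d : ℝ := 1 / 2 ^ (19 * k)
  have h6 : 8 * (ax / a) ≤ e + 7 * (bx / a) := by
    have : 8 * (ax / a) = (8 * ax) / a := by ring
    rw [this, div_le_iff₀ ha]
    have : (e + 7 * (bx / a)) * a = e * a + 7 * bx := by field_simp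
    rw [this]
    linarith
  have h7 : bx / a ≤ bx / b := div_le_div_of_nonneg_left hx0 hb h1
  linarith

theorem Lev.patterns {k : ℕ} (hk : 100 ≤ k) {P : Finset G} {E U : G → ℝ≥0∞}
    (h : Lev k P E U) {A B : Finset G} (hA : A ⊆ P) (hB : B ⊆ P) (hAB : Disjoint A B)
    (hc : (A ∪ B).card ≤ 2 ^ k) {w : ℝ} (hw : 0 ≤ w) (hw8 : w ≤ 1 / 8) (x : G) :
    ∑ I ∈ (A.powerset ×ˢ B.powerset).erase (∅, ∅),
        w ^ (I.1.card + I.2.card) * (MP (P \ (A ∪ B)) U (x - sg I.1 I.2)).toReal ≤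
      8 * w * (kap (MP (P \ (A ∪ B)) U) x + 3 / 2 ^ (19 * k)) *
        (MP (P \ (A ∪ B)) U 0).toReal := by
  have hF : A ∪ B ⊆ P := union_subset hA hB
  obtain ⟨a1, a2, a3, a4, h1, hfin, h2, h3⟩ := own_core hk h hF hc
  have hmass := Lev.mass hk h hF hc
  have hd0 : (0 : ℝ) ≤ 1 / 2 ^ (19 * k) := by positivity
  have hd1 := d_le k hk
  obtain ⟨e1, e2⟩ := exp_le_own hd0 hd1
  set M := MP (P \ (A ∪ B)) U with hM
  have hMfin : ∀ g, M g ≠ ⊤ := fun g => ne_top_of_le_ne_top a2.2 (a1.le_zero g)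
  have hb : 0 < (M 0).toReal := ENNReal.toReal_pos a2.1 a2.2
  have h0 : (∅, ∅) ∈ SS (A ∪ B) := by
    rw [mem_SS]
    exact ⟨empty_subset _, empty_subset _, disjoint_empty_left _⟩
  have hsum : (FF (fun _ => tern 8⁻¹) (A ∪ B) M x).toReal =
      (M x).toReal + ∑ T ∈ (SS (A ∪ B)).erase (∅, ∅),
        (1 / 8 : ℝ) ^ (T.1.card + T.2.card) * (M (x - sg T.1 T.2)).toReal := by
    rw [FF_tern_sum, ENNReal.toReal_sum (fun T _ => ENNReal.mul_ne_top
      (ENNReal.pow_ne_top (by norm_num)) (hMfin _)), ← Finset.add_sum_erase _ _ h0]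
    have e0 : x - sg (∅ : Finset G) ∅ = x := by simp [sg]
    congr 1
    · simp [e0]
    · refine Finset.sum_congr rfl fun T _ => ?_
      rw [ENNReal.toReal_mul, ENNReal.toReal_pow, ENNReal.toReal_inv]
      norm_num
  have hsub : (A.powerset ×ˢ B.powerset).erase (∅, ∅) ⊆ (SS (A ∪ B)).erase (∅, ∅) := by
    apply erase_subset_erase
    intro T hT
    rw [mem_product, mem_powerset, mem_powerset] at hT
    rw [mem_SS]
    exact ⟨hT.1.trans subset_union_left, hT.2.trans subset_union_right,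
      (hAB.mono_left hT.1).mono_right hT.2⟩
  have hterm : ∀ T ∈ (A.powerset ×ˢ B.powerset).erase (∅, ∅),
      w ^ (T.1.card + T.2.card) * (M (x - sg T.1 T.2)).toReal ≤
      8 * w * ((1 / 8 : ℝ) ^ (T.1.card + T.2.card) * (M (x - sg T.1 T.2)).toReal) := by
    intro T hT
    rw [← mul_assoc]
    refine mul_le_mul_of_nonneg_right ?_ ENNReal.toReal_nonneg
    obtain ⟨n, hn⟩ : ∃ n, T.1.card + T.2.card = n + 1 := by
      refine Nat.exists_eq_succ_of_ne_zero fun h => ?_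
      rw [mem_erase] at hT
      apply hT.1
      have h1 : T.1 = ∅ := card_eq_zero.1 (by omega)
      have h2 : T.2 = ∅ := card_eq_zero.1 (by omega)
      exact Prod.ext h1 h2
    rw [hn, pow_succ, pow_succ]
    have : w ^ n ≤ (1 / 8 : ℝ) ^ n := pow_le_pow_left₀ hw hw8 n
    nlinarith
  calc ∑ I ∈ (A.powerset ×ˢ B.powerset).erase (∅, ∅),
        w ^ (I.1.card + I.2.card) * (M (x - sg I.1 I.2)).toReal
      ≤ ∑ T ∈ (A.powerset ×ˢ B.powerset).erase (∅, ∅),
          8 * w * ((1 / 8 : ℝ) ^ (T.1.card + T.2.card) * (M (x - sg T.1 T.2)).toReal) :=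
        Finset.sum_le_sum hterm
    _ ≤ ∑ T ∈ (SS (A ∪ B)).erase (∅, ∅),
          8 * w * ((1 / 8 : ℝ) ^ (T.1.card + T.2.card) * (M (x - sg T.1 T.2)).toReal) := by
        refine Finset.sum_le_sum_of_subset_of_nonneg hsub fun T _ _ => ?_
        have := (ENNReal.toReal_nonneg : 0 ≤ (M (x - sg T.1 T.2)).toReal)
        positivity
    _ = 8 * w * ((FF (fun _ => tern 8⁻¹) (A ∪ B) M x).toReal - (M x).toReal) := by
        rw [← Finset.mul_sum, hsum]; ring
    _ ≤ 8 * w * ((kap M x + 3 / 2 ^ (19 * k)) * (M 0).toReal) := by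
        refine mul_le_mul_of_nonneg_left ?_ (by positivity)
        have h4 := h2 x
        have h5 : (kap M x + 3 / 2 ^ (19 * k)) * (M 0).toReal =
            (1 + 3 * (1 / 2 ^ (19 * k))) * (M 0).toReal - (M x).toReal := by
          unfold kap
          field_simp
          ring
        rw [h5]
        have h6 : Real.exp (1 / 2 ^ (19 * k)) * (MP P U 0).toReal ≤
            Real.exp (1 / 2 ^ (19 * k)) * (Real.exp (1 / 2 ^ (19 * k)) * (M 0).toReal) :=
          mul_le_mul_of_nonneg_left hmass (by linarith)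
        have h7 : Real.exp (1 / 2 ^ (19 * k)) * Real.exp (1 / 2 ^ (19 * k)) ≤
            1 + 3 * (1 / 2 ^ (19 * k)) := by nlinarith
        have h8 := mul_le_mul_of_nonneg_right h7 hb.le
        linarith
    _ = _ := by ring

theorem sg_erase_left {A B : Finset G} {v : G} (hv : v ∈ A) : sg A B = v + sg (A.erase v) B := by
  unfold sg
  rw [← Finset.add_sum_erase _ _ hv]
  abel

/-- One pattern. -/
theorem one_pattern (w : ℝ≥0∞) (F : Finset G) (M : G → ℝ≥0∞) (x : G) {A B : Finset G} (hA : A ⊆ F)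
    (hB : B ⊆ F) (hAB : Disjoint A B) :
    w ^ (A.card + B.card) * M (x - sg A B) ≤ FF (fun _ => tern w) F M x := by
  rw [FF_tern_sum]
  exact Finset.single_le_sum (f := fun T : Finset G × Finset G =>
    w ^ (T.1.card + T.2.card) * M (x - sg T.1 T.2)) (fun _ _ => bot_le)
    (show (A, B) ∈ SS F from mem_SS.2 ⟨hA, hB, hAB⟩)

theorem kap_swap {M : G → ℝ≥0∞} (h : PD M) (A B : Finset G) :
    kap M (sg B A) = kap M (sg A B) := by
  have : sg B A = - sg A B := by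
    unfold sg
    abel
  rw [this, h.kap_neg]

theorem len_aux {k : ℕ} (hk : 100 ≤ k) {P : Finset G} {E U : G → ℝ≥0∞} (h : Lev k P E U)
    {A B : Finset G} (hA : A ⊆ P) (hB : B ⊆ P) (hAB : Disjoint A B)
    (hne : A.Nonempty) (hc : (A ∪ B).card ≤ 2 ^ k)
    (hs : kap (MP P U) (sg A B) ≤ 1 / 8) : 3 * k + 1 ≤ (A ∪ B).card := by
  obtain ⟨v, hv⟩ := hne
  have hvP : ({v} : Finset G) ⊆ P := singleton_subset_iff.2 (hA hv)
  have hF : A ∪ B ⊆ P := union_subset hA hB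
  have h2k : 1 ≤ 2 ^ k := Nat.one_le_two_pow
  obtain ⟨a1, a2, a3, a4, h1, hfin, -, -⟩ := own_core hk h hvP (by rw [card_singleton]; exact h2k)
  obtain ⟨c1, c2, -, -, g1, -, -, -⟩ := own_core hk h hF hc
  have hmass := Lev.mass hk h hF hc
  have hown := Lev.own hk h hF hc (sg A B)
  have hlight := h.light {v} hvP (singleton_nonempty v) (by rw [card_singleton]; exact h2k)
  set Mv := MP (P \ {v}) U with hMv
  set MD := MP (P \ (A ∪ B)) U with hMD
  have hd0 : (0 : ℝ) ≤ 1 / 2 ^ (19 * k) := by positivity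
  have hd1 := d_le k hk
  obtain ⟨e1, e2⟩ := exp_le_own hd0 hd1
  -- the light bound for one element
  have hMvfin : ∀ g, Mv g ≠ ⊤ := fun g => ne_top_of_le_ne_top a2.2 (a1.le_zero g)
  have hMDfin : ∀ g, MD g ≠ ⊤ := fun g => ne_top_of_le_ne_top c2.2 (c1.le_zero g)
  have hsing : ∀ w : ℝ≥0∞, FF (fun _ => tern w) {v} Mv 0 = Mv 0 + 2 * w * Mv v := by
    intro w
    have : ({v} : Finset G) = insert v ∅ := rfl
    rw [this, FF_insert _ (notMem_empty v), FF_empty, conv_tern_apply, zero_sub, zero_add,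
      a1.neg]
    ring
  have hsp : MP P U 0 = Mv 0 + 2 * 64⁻¹ * Mv v := by rw [MP_split U hvP, hsing]
  rw [hsing, hsp] at hlight
  have hl := ENNReal.toReal_mono (ENNReal.mul_ne_top ENNReal.ofReal_ne_top
    (ENNReal.add_ne_top.2 ⟨a2.2, ENNReal.mul_ne_top (ENNReal.mul_ne_top (by norm_num)
      (by norm_num)) (hMvfin v)⟩)) hlight
  rw [ENNReal.toReal_mul, ENNReal.toReal_ofReal (Real.exp_pos _).le,
    ENNReal.toReal_add a2.2 (ENNReal.mul_ne_top (ENNReal.mul_ne_top (by norm_num) (by norm_num))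
      (hMvfin v)), ENNReal.toReal_add a2.2 (ENNReal.mul_ne_top (ENNReal.mul_ne_top (by norm_num)
      (by norm_num)) (hMvfin v)), ENNReal.toReal_mul, ENNReal.toReal_mul, ENNReal.toReal_mul,
      ENNReal.toReal_mul, ENNReal.toReal_inv, ENNReal.toReal_inv, card_singleton] at hl
  have hMv0 : 0 < (Mv 0).toReal := ENNReal.toReal_pos a2.1 a2.2
  -- one pattern
  have hDv : (P \ {v}) \ (P \ (A ∪ B)) = (A ∪ B).erase v := by
    ext x
    simp only [mem_sdiff, mem_singleton, mem_union, mem_erase, not_and, not_not]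
    constructor
    · rintro ⟨⟨h1, h2⟩, h3⟩
      exact ⟨h2, by have := h3 h1; tauto⟩
    · rintro ⟨h1, h2⟩
      refine ⟨⟨?_, h1⟩, fun _ => h2⟩
      rcases h2 with h2 | h2
      · exact hA h2
      · exact hB h2
  have hsplit : Mv = FF (fun _ => tern 64⁻¹) ((A ∪ B).erase v) MD := by
    have hss : (A ∪ B).erase v ⊆ P \ {v} := by
      rw [← hDv]; exact sdiff_subset
    have := MP_split U hss
    rw [hMv, this, hMD]
    congr 1
    unfold MP
    congr 1
    ext x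
    simp only [mem_sdiff, mem_singleton, mem_union, mem_erase, not_and]
    constructor
    · rintro ⟨⟨h1, h2⟩, h3⟩
      exact ⟨h1, h3 h2⟩
    · rintro ⟨h1, h2⟩
      refine ⟨⟨h1, fun h3 => h2 (Or.inl (h3 ▸ hv))⟩, fun _ => h2⟩
  have hvB : v ∉ B := fun h => (Finset.disjoint_left.1 hAB) hv h
  have hpat := one_pattern 64⁻¹ ((A ∪ B).erase v) MD v (A := B) (B := A.erase v)
    (fun x hx => mem_erase.2 ⟨fun h => hvB (h ▸ hx), mem_union_right _ hx⟩)
    (erase_subset_erase _ subset_union_left) ((hAB.mono_left (erase_subset _ _)).symm)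
  rw [← hsplit] at hpat
  have e3 : v - sg B (A.erase v) = sg A B := by
    rw [sg_erase_left hv]
    unfold sg
    abel
  rw [e3] at hpat
  have hcard : B.card + (A.erase v).card = (A ∪ B).card - 1 := by
    rw [card_union_of_disjoint hAB, card_erase_of_mem hv]
    have : 0 < A.card := card_pos.2 ⟨v, hv⟩
    omega
  rw [hcard] at hpat
  set n := (A ∪ B).card with hn
  have hpr := ENNReal.toReal_mono (hMvfin v) hpat
  rw [ENNReal.toReal_mul, ENNReal.toReal_pow, ENNReal.toReal_inv] at hpr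
  -- the value at the sum
  have hMD0 : 0 < (MD 0).toReal := ENNReal.toReal_pos c2.1 c2.2
  have hSD : (84 / 100 : ℝ) * (MD 0).toReal ≤ (MD (sg A B)).toReal := by
    have h5 : kap MD (sg A B) ≤ 16 / 100 := by
      have : (8 / 7 : ℝ) * kap (MP P U) (sg A B) ≤ 8 / 7 * (1 / 8) := by linarith
      linarith
    unfold kap at h5
    have h6 : 84 / 100 ≤ (MD (sg A B)).toReal / (MD 0).toReal := by linarith
    rwa [le_div_iff₀ hMD0] at h6
  have hMD1 : (99 / 100 : ℝ) * (Mv 0).toReal ≤ (MD 0).toReal := by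
    have h5 : (Mv 0).toReal ≤ Real.exp (1 / 2 ^ (19 * k)) * (MD 0).toReal := h1.trans hmass
    have h6 : Real.exp (1 / 2 ^ (19 * k)) ≤ 1 + 2 / 1000 := by linarith
    nlinarith
  have hnum : ((64 : ℝ≥0∞).toReal) = 64 := by norm_num
  have hnum8 : ((8 : ℝ≥0∞).toReal) = 8 := by norm_num
  have hnum2 : ((2 : ℝ≥0∞).toReal) = 2 := by norm_num
  rw [hnum, hnum8, hnum2] at hl
  rw [hnum] at hpr
  -- numbers
  set y := (Mv v).toReal with hy
  set z := (Mv 0).toReal with hz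
  have hy0 : 0 ≤ y := ENNReal.toReal_nonneg
  have he' : Real.exp (((1 : ℕ) : ℝ) / 2 ^ (20 * k)) ≤ 1 + 101 / 100 * (1 / 2 ^ (20 * k)) := by
    have h7 : (1 : ℝ) / 2 ^ (20 * k) ≤ 1 / 2 ^ (19 * k) := by
      apply one_div_le_one_div_of_le (by positivity)
      exact pow_le_pow_right₀ (by norm_num) (by omega)
    have := (exp_le_own (d := 1 / 2 ^ (20 * k)) (by positivity) (h7.trans hd1)).2
    simpa using this
  have he1 : (1 : ℝ) / 2 ^ (20 * k) ≤ 1 / 1000 := by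
    have h7 : (1 : ℝ) / 2 ^ (20 * k) ≤ 1 / 2 ^ (19 * k) := by
      apply one_div_le_one_div_of_le (by positivity)
      exact pow_le_pow_right₀ (by norm_num) (by omega)
    exact h7.trans hd1
  set e' : ℝ := 1 / 2 ^ (20 * k) with hedef
  have he0 : 0 < e' := by rw [hedef]; positivity
  have h9 : y ≤ 6 * e' * z := by
    have h10 : z + 2 * 8⁻¹ * y ≤ (1 + 101 / 100 * e') * (z + 2 * 64⁻¹ * y) := by
      refine hl.trans (mul_le_mul_of_nonneg_right he' ?_)
      positivity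
    nlinarith [mul_nonneg he0.le hy0, mul_nonneg he0.le hMv0.le]
  have h11 : (64⁻¹ : ℝ) ^ (n - 1) * (83 / 100) * z ≤ y := by
    refine le_trans ?_ hpr
    have h12 : (83 / 100 : ℝ) * z ≤ (MD (sg A B)).toReal := by nlinarith
    have h13 : (0 : ℝ) ≤ (64⁻¹ : ℝ) ^ (n - 1) := by positivity
    nlinarith
  have h14 : (64⁻¹ : ℝ) ^ (n - 1) * (83 / 100) ≤ 6 * e' := by
    have : (64⁻¹ : ℝ) ^ (n - 1) * (83 / 100) * z ≤ 6 * e' * z := h11.trans h9
    exact le_of_mul_le_mul_right this hMv0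
  by_contra hlt
  push Not at hlt
  have hn1 : n - 1 ≤ 3 * k - 1 := by omega
  have h15 : (64⁻¹ : ℝ) ^ (3 * k - 1) ≤ (64⁻¹ : ℝ) ^ (n - 1) :=
    pow_le_pow_of_le_one (by norm_num) (by norm_num) hn1
  have h16 : (64⁻¹ : ℝ) ^ (3 * k - 1) = 64 * (1 / 2 ^ (18 * k)) := by
    have e1 : (64 : ℝ) ^ (3 * k) = 2 ^ (18 * k) := by
      rw [show (64 : ℝ) = 2 ^ 6 by norm_num, ← pow_mul]
      congr 1
      ring
    have e2 : (64 : ℝ) ^ (3 * k) = 64 ^ (3 * k - 1) * 64 := by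
      rw [← pow_succ]
      congr 1
      omega
    rw [← e1, e2, inv_pow]
    field_simp
  have h17 : e' ≤ 1 / 1000 * (1 / 2 ^ (18 * k)) := by
    rw [hedef]
    have e1 : (2 : ℝ) ^ (20 * k) = 2 ^ (2 * k) * 2 ^ (18 * k) := by
      rw [← pow_add]; congr 1; ring
    have e3 : (1000 : ℝ) ≤ 2 ^ (2 * k) := by
      calc (1000 : ℝ) ≤ 2 ^ 10 := by norm_num
        _ ≤ 2 ^ (2 * k) := pow_le_pow_right₀ (by norm_num) (by omega)
    rw [e1, one_div_mul_one_div]
    apply one_div_le_one_div_of_le (by positivity)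
    exact mul_le_mul_of_nonneg_right e3 (by positivity)
  have h18 : (0 : ℝ) < 1 / 2 ^ (18 * k) := by positivity
  nlinarith

theorem Lev.len {k : ℕ} (hk : 100 ≤ k) {P : Finset G} {E U : G → ℝ≥0∞} (h : Lev k P E U)
    {A B : Finset G} (hA : A ⊆ P) (hB : B ⊆ P) (hAB : Disjoint A B)
    (hne : (A ∪ B).Nonempty) (hc : (A ∪ B).card ≤ 2 ^ k)
    (hs : kap (MP P U) (sg A B) ≤ 1 / 8) : 3 * k + 1 ≤ (A ∪ B).card := by
  rcases A.eq_empty_or_nonempty with rfl | hA'
  · have hB' : B.Nonempty := by simpa using hne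
    rw [union_comm]
    rw [union_comm] at hc
    have hpd : PD (MP P U) := PD.FF_tern h.pd (ENNReal.inv_le_inv.2 (by norm_num)) _
    refine len_aux hk h hB hA hAB.symm hB' hc ?_
    rw [kap_swap hpd]
    exact hs
  · exact len_aux hk h hA hB hAB hA' hc hs

end Pool.Agent.SP
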