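import Pool.Agent.SP.Defs
import Pool.Agent.LL.Local
import Pool.Agent.Helper36.LL.Size

/-!
Classes of small ternary pressure.
-/

set_option autoImplicit false

namespace Pool.Agent.SP

open Finset
open scoped ENNReal
open Pool.Agent.Helper36.LL (conv dlt FF gw tern)
open Pool.Agent.LL (T tw ev phi phi_ev Dis T_zero_ge classes_iota)

section bridge

variable {ι : Type*} [Fintype ι] [DecidableEq ι] {Γ : Type*} [AddCommGroup Γ]

theorem tw_insert_ge (w : ℝ≥0∞) {C : Finset ι} {v : ι} (hv : v ∉ C) (c : ι → ℤ) :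
    tw w C c + w * tw w C (c - ev v) + w * tw w C (c + ev v) ≤ tw w (insert v C) c := by
  have hfac : ∀ (d : ι → ℤ), (∀ i, i ≠ v → d i = c i) →
      ∏ i ∈ univ.erase v, (if d i = 0 then (1 : ℝ≥0∞) else
        if i ∈ C ∧ (d i = 1 ∨ d i = -1) then w else 0) =
      ∏ i ∈ univ.erase v, (if c i = 0 then (1 : ℝ≥0∞) else
        if i ∈ insert v C ∧ (c i = 1 ∨ c i = -1) then w else 0) := by
    intro d hd
    refine Finset.prod_congr rfl fun i hi => ?_
    have hi' : i ≠ v := Finset.ne_of_mem_erase hi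
    rw [hd i hi']
    simp [Finset.mem_insert, hi']
  have hsplit : ∀ (C' : Finset ι) (d : ι → ℤ), tw w C' d =
      (if d v = 0 then (1 : ℝ≥0∞) else if v ∈ C' ∧ (d v = 1 ∨ d v = -1) then w else 0) *
      ∏ i ∈ univ.erase v, (if d i = 0 then (1 : ℝ≥0∞) else
        if i ∈ C' ∧ (d i = 1 ∨ d i = -1) then w else 0) := by
    intro C' d
    unfold tw
    rw [Finset.mul_prod_erase _ (fun i => (if d i = 0 then (1 : ℝ≥0∞) else
        if i ∈ C' ∧ (d i = 1 ∨ d i = -1) then w else 0)) (Finset.mem_univ v)]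
  rw [hsplit C c, hsplit C (c - ev v), hsplit C (c + ev v), hsplit (insert v C) c,
    hfac c (fun _ _ => rfl), hfac (c - ev v) (fun i hi => by simp [ev, hi]),
    hfac (c + ev v) (fun i hi => by simp [ev, hi])]
  set Q := ∏ i ∈ univ.erase v, (if c i = 0 then (1 : ℝ≥0∞) else
        if i ∈ insert v C ∧ (c i = 1 ∨ c i = -1) then w else 0)
  have e1 : (c - ev v) v = c v - 1 := by simp [ev]
  have e2 : (c + ev v) v = c v + 1 := by simp [ev]
  rw [e1, e2]
  have hvi : v ∈ insert v C := Finset.mem_insert_self _ _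
  by_cases h0 : c v = 0
  · simp [h0, hv]
  · by_cases h1 : c v = 1
    · simp [h1, hv]
    · by_cases h2 : c v = -1
      · simp [h2, hv]
      · have h3 : ¬ c v - 1 = 0 := by omega
        have h4 : ¬ c v + 1 = 0 := by omega
        simp [h0, h1, h2, h3, h4, hv]

open Classical in
theorem T_insert_ge (b : ι → Γ) (w : ℝ≥0∞) {C : Finset ι} {v : ι} (hv : v ∉ C) (y : Γ) :
    T b w C y + w * T b w C (y - b v) + w * T b w C (y + b v) ≤ T b w (insert v C) y := by
  have s1 : T b w C (y - b v) =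
      ∑' c : ι → ℤ, if phi b c = y then tw w C (c - ev v) else 0 := by
    unfold T
    rw [← (Equiv.subRight (ev v)).tsum_eq (fun c => if phi b c = y - b v then tw w C c else 0)]
    refine tsum_congr fun c => ?_
    simp only [Equiv.subRight_apply, map_sub, phi_ev, sub_left_inj]
  have s2 : T b w C (y + b v) =
      ∑' c : ι → ℤ, if phi b c = y then tw w C (c + ev v) else 0 := by
    unfold T
    rw [← (Equiv.addRight (ev v)).tsum_eq (fun c => if phi b c = y + b v then tw w C c else 0)]
    refine tsum_congr fun c => ?_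
    simp only [Equiv.coe_addRight, map_add, phi_ev, add_left_inj]
  rw [s1, s2, ← ENNReal.tsum_mul_left, ← ENNReal.tsum_mul_left]
  unfold T
  rw [← ENNReal.tsum_add, ← ENNReal.tsum_add]
  refine ENNReal.tsum_le_tsum fun c => ?_
  by_cases hc : phi b c = y
  · simp only [hc, if_true]
    exact tw_insert_ge w hv c
  · simp only [hc, if_false]
    simp

end bridge

variable {G : Type*} [AddCommGroup G] [DecidableEq G]

theorem FF_le_T {V : Finset G} (w : ℝ≥0∞) (C : Finset {x // x ∈ V}) : ∀ y : G,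
    FF (fun _ => tern w) (C.map (Function.Embedding.subtype _)) dlt y ≤
      T (fun x : {x // x ∈ V} => (x : G)) w C y := by
  induction C using Finset.induction_on with
  | empty =>
    intro y
    rw [Finset.map_empty, Pool.Agent.Helper36.LL.FF_empty]
    by_cases hy : y = 0
    · subst hy
      refine le_trans ?_ (T_zero_ge _ w ∅)
      simp [dlt]
    · simp [dlt, hy]
  | insert v C hv ih =>
    intro y
    have hv' : (v : G) ∉ C.map (Function.Embedding.subtype _) := by
      intro h
      obtain ⟨u, hu, huv⟩ := Finset.mem_map.1 h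
      have : u = v := Subtype.ext huv
      rw [this] at hu
      exact hv hu
    rw [Finset.map_insert]
    have e : (Function.Embedding.subtype fun x => x ∈ V) v = (v : G) := rfl
    rw [e, Pool.Agent.Helper36.LL.FF_insert _ hv', Pool.Agent.Helper36.LL.conv_tern]
    refine le_trans ?_ (T_insert_ge _ w hv y)
    rw [mul_add, ← add_assoc]
    gcongr
    · exact ih y
    · exact ih _
    · exact ih _

/-- Ternary pressure classes. -/
theorem press_classes {c : ℝ} (hc : 0 < c) (hc1 : c ≤ 1) {k : ℕ} (hk : 1 ≤ k) (V : Finset G)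
    (hP : ∀ B ⊆ V, ∃ D ⊆ B,
      (∀ X Y : Finset G, X ⊆ D → Y ⊆ D → X.sum id = Y.sum id → X = Y) ∧
      c * (B.card : ℝ) ≤ D.card) (K : ℕ)
    (hK : 2 * (3 / c * Real.log (1 + 12 / c * Real.log (2 ^ (60 * k + 2))) + 2) ≤ K) :
    ∃ f : G → Fin K, ∀ j, Press k (V.filter (fun v => f v = j)) := by
  classical
  have _ := hk
  have hKpos : 0 < K := by
    have h1 : 0 ≤ Real.log (2 ^ (60 * k + 2)) := Real.log_nonneg (one_le_pow₀ (by norm_num))
    have h2 : 0 ≤ 12 / c * Real.log (2 ^ (60 * k + 2)) := by positivity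
    have h3 : 0 ≤ Real.log (1 + 12 / c * Real.log (2 ^ (60 * k + 2))) :=
      Real.log_nonneg (by linarith)
    have h4 : 0 ≤ 3 / c * Real.log (1 + 12 / c * Real.log (2 ^ (60 * k + 2))) := by positivity
    have h5 : (0 : ℝ) < K := by linarith
    exact_mod_cast h5
  let b : {x // x ∈ V} → G := fun x => (x : G)
  have hsum : ∀ X : Finset {x // x ∈ V}, (X.map (Function.Embedding.subtype _)).sum id =
      ∑ i ∈ X, b i := by
    intro X
    rw [Finset.sum_map]
    rfl
  have hP' : ∀ B : Finset {x // x ∈ V}, ∃ D ⊆ B, Dis b D ∧ c * (B.card : ℝ) ≤ D.card := by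
    intro B
    obtain ⟨D, hD, hdis, hcard⟩ := hP (B.map (Function.Embedding.subtype _)) (by
      intro x hx
      obtain ⟨y, _, rfl⟩ := Finset.mem_map.1 hx
      exact y.2)
    have hDV : ∀ x ∈ D, x ∈ V := by
      intro x hx
      obtain ⟨y, _, rfl⟩ := Finset.mem_map.1 (hD hx)
      exact y.2
    refine ⟨D.subtype (fun x => x ∈ V), ?_, ?_, ?_⟩
    · intro x hx
      have hx' := hD (Finset.mem_subtype.1 hx)
      obtain ⟨y, hy, hyx⟩ := Finset.mem_map.1 hx'
      have : y = x := Subtype.ext hyx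
      rwa [← this]
    · intro X Y hX hY hXY
      have hX' : X.map (Function.Embedding.subtype _) ⊆ D := by
        intro x hx
        obtain ⟨y, hy, rfl⟩ := Finset.mem_map.1 hx
        exact Finset.mem_subtype.1 (hX hy)
      have hY' : Y.map (Function.Embedding.subtype _) ⊆ D := by
        intro x hx
        obtain ⟨y, hy, rfl⟩ := Finset.mem_map.1 hx
        exact Finset.mem_subtype.1 (hY hy)
      exact Finset.map_injective _ (hdis _ _ hX' hY' (by rw [hsum, hsum, hXY]))
    · rw [Finset.card_map] at hcard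
      rw [Finset.card_subtype, Finset.filter_true_of_mem hDV]
      exact hcard
  have hN : 1 ≤ 2 ^ (60 * k) := Nat.one_le_two_pow
  obtain ⟨g, hg⟩ := classes_iota b hc hc1 hP' (2 ^ (60 * k)) hN K (by
    have e : (4 : ℝ) * ((2 ^ (60 * k) : ℕ) : ℝ) = 2 ^ (60 * k + 2) := by
      push_cast
      rw [pow_add]
      ring
    rw [e]
    exact hK)
  refine ⟨fun v => if h : v ∈ V then g ⟨v, h⟩ else ⟨0, hKpos⟩, fun j Y hY => ?_⟩
  have hYV : ∀ x ∈ Y, x ∈ V := fun x hx => (Finset.mem_filter.1 (hY hx)).1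
  set C : Finset {x // x ∈ V} := Y.subtype (fun x => x ∈ V) with hC
  have eY : C.map (Function.Embedding.subtype _) = Y := by
    rw [hC, Finset.subtype_map, Finset.filter_true_of_mem hYV]
  have hcard : C.card = Y.card := by
    rw [← eY, Finset.card_map]
  have hmono : ∀ x ∈ C, ∀ y ∈ C, g x = g y := by
    have h1 : ∀ x ∈ C, g x = j := by
      intro x hx
      have h2 := (Finset.mem_filter.1 (hY (Finset.mem_subtype.1 hx))).2
      simpa [x.2] using h2
    intro x hx y hy
    rw [h1 x hx, h1 y hy]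
  have h1 := hg C hmono
  have h2 := FF_le_T (V := V) 4⁻¹ C 0
  rw [eY] at h2
  rw [one_div] at h1
  refine (h2.trans h1).trans ?_
  rw [← ENNReal.ofReal_pow (by positivity), hcard]
  apply ENNReal.ofReal_le_ofReal
  have h3 : (1 : ℝ) + 1 / (8 * ((2 ^ (60 * k) : ℕ) : ℝ)) ≤ Real.exp (1 / 2 ^ (60 * k)) := by
    have h4 := Real.add_one_le_exp (1 / 2 ^ (60 * k) : ℝ)
    refine le_trans ?_ h4
    push_cast
    rw [add_comm]
    gcongr
    have : (0 : ℝ) < 2 ^ (60 * k) := by positivity
    linarith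
  calc ((1 : ℝ) + 1 / (8 * ((2 ^ (60 * k) : ℕ) : ℝ))) ^ Y.card
      ≤ Real.exp (1 / 2 ^ (60 * k)) ^ Y.card := pow_le_pow_left₀ (by positivity) h3 _
    _ = Real.exp (Y.card / 2 ^ (60 * k)) := by
        rw [← Real.exp_nat_mul]; congr 1; ring

end Pool.Agent.SP
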