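import Pool.Agent.SP.Gauss
import Pool.Agent.SP.Shift
import Pool.Agent.SP.Moves
import Pool.Agent.SP.Sizes

/-!
The terminal state of the closure process.
-/

set_option autoImplicit false

namespace Pool.Agent.SP

open Finset
open scoped ENNReal
open Pool.Agent.Helper36.LL (conv dlt FF gw tern)

variable {G : Type*} [AddCommGroup G] [DecidableEq G]

namespace Cl

/-- The potential. -/
def Φ (n : ℕ) (S : St G) : ℕ := ∑ i ∈ range n, ((S.W i).card + (S.l i).length)

theorem card_W {k : ℕ} (hk : 100 ≤ k) {V : Finset G} (hV : Press k V) {S : St G}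
    (h : Inv k V S) (i : ℕ) : 2 ^ i * (S.W i).card ≤ V.card := by
  induction i with
  | zero => rw [h.w0]; simp
  | succ i ih =>
    have h1 := inv_half hk hV h i
    calc 2 ^ (i + 1) * (S.W (i + 1)).card = 2 ^ i * (2 * (S.W (i + 1)).card) := by ring
      _ ≤ 2 ^ i * (S.W i).card := Nat.mul_le_mul_left _ h1
      _ ≤ _ := ih

theorem W_empty {k : ℕ} (hk : 100 ≤ k) {V : Finset G} (hV : Press k V) {S : St G}
    (h : Inv k V S) {i : ℕ} (hi : V.card ≤ i) : S.W i = ∅ := by
  have h1 := card_W hk hV h i
  rw [← card_eq_zero]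
  by_contra h0
  have h2 : 2 ^ i * 1 ≤ 2 ^ i * (S.W i).card := Nat.mul_le_mul_left _ (Nat.one_le_iff_ne_zero.2 h0)
  have h3 : i < 2 ^ i := Nat.lt_two_pow_self
  omega

theorem Φ_le {k : ℕ} (hk : 100 ≤ k) {V : Finset G} (hV : Press k V) {S : St G}
    (h : Inv k V S) (n : ℕ) : Φ n S ≤ n * ((1 + 10 ^ 8 * k ^ 3) * V.card) := by
  unfold Φ
  have h1 : ∀ i ∈ range n, (S.W i).card + (S.l i).length ≤ (1 + 10 ^ 8 * k ^ 3) * V.card := by
    intro i _
    have h2 := inv_len hk hV h i
    have h3 : (S.W i).card ≤ V.card := by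
      have := card_W hk hV h i
      have h4 : 1 * (S.W i).card ≤ 2 ^ i * (S.W i).card :=
        Nat.mul_le_mul_right _ Nat.one_le_two_pow
      omega
    calc (S.W i).card + (S.l i).length ≤ (S.W i).card + 10 ^ 8 * k ^ 3 * (S.W i).card := by omega
      _ = (1 + 10 ^ 8 * k ^ 3) * (S.W i).card := by ring
      _ ≤ _ := Nat.mul_le_mul_left _ h3
  refine (Finset.sum_le_card_nsmul _ _ _ h1).trans ?_
  simp

theorem kap_dlt {a : G} (h : kap (dlt : G → ℝ≥0∞) a < 1) : a = 0 := by
  by_contra h0
  unfold kap at h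
  have : (dlt a : ℝ≥0∞) = 0 := by simp [dlt, h0]
  rw [this] at h
  simp at h

end Cl

open Cl in
theorem closure {k : ℕ} (hk : 100 ≤ k) {V : Finset G} (hV : Press k V) :
    ∃ S : St G, S.W 0 = V ∧ Antitone S.W ∧ (∃ m, S.W m = ∅) ∧
      ∀ i, Lev k (S.P i) (S.E k i) (S.U k i) := by
  classical
  set n := V.card + 2 with hn
  -- a state with maximal potential
  obtain ⟨S, hS, hmax⟩ : ∃ S : St G, Inv k V S ∧ ∀ S' : St G, Inv k V S' → Φ n S' ≤ Φ n S := by
    have hne : ∃ m, ∃ S : St G, Inv k V S ∧ Φ n S = m := ⟨_, _, inv_init V, rfl⟩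
    have hb : ∀ m, (∃ S : St G, Inv k V S ∧ Φ n S = m) → m ≤ n * ((1 + 10 ^ 8 * k ^ 3) * V.card) := by
      rintro m ⟨S, hS, rfl⟩
      exact Φ_le hk hV hS n
    obtain ⟨S, hS, hSm⟩ := Nat.findGreatest_spec (P := fun m => ∃ S : St G, Inv k V S ∧ Φ n S = m)
      (hb _ hne.choose_spec) hne.choose_spec
    refine ⟨S, hS, fun S' hS' => ?_⟩
    rw [hSm]
    exact Nat.le_findGreatest (hb _ ⟨S', hS', rfl⟩) ⟨S', hS', rfl⟩
  have hk1 : 1 ≤ k := by omega
  have hkR : (100 : ℝ) ≤ k := by exact_mod_cast hk
  refine ⟨S, hS.w0, hS.anti, hS.fin, fun i => ?_⟩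
  refine ⟨gi_gauss (xs_lt k) (yb_lt hk1) _ _, Mv.finE hk1 S i, (Ext.refl _).FF _ _, Mv.pdU hk1 S i,
    Mv.finU hk1 S i, ?_, ?_⟩
  · intro F hF hFne _
    by_contra hcon
    push Not at hcon
    have hinv := move_b hk hS i hF hcon
    have hi : i + 1 < n := by
      by_contra hlt
      have h1 : S.W i = ∅ := W_empty hk hV hS (by omega)
      obtain ⟨x, hx⟩ := hFne
      have h2 := (mem_sdiff.1 (hF hx)).1
      rw [h1] at h2
      exact absurd h2 (notMem_empty x)
    have h3 := hmax _ hinv
    have h4 : Φ n S < Φ n ⟨Function.update S.W (i + 1) (S.W (i + 1) ∪ F), S.l⟩ := by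
      unfold Φ
      have hcard : (S.W (i + 1)).card < (S.W (i + 1) ∪ F).card := by
        apply card_lt_card
        rw [ssubset_iff_of_subset subset_union_left]
        obtain ⟨x, hx⟩ := hFne
        exact ⟨x, mem_union_right _ hx, (mem_sdiff.1 (hF hx)).2⟩
      refine Finset.sum_lt_sum (fun j _ => ?_) ⟨i + 1, mem_range.2 hi, ?_⟩
      · by_cases hj : j = i + 1
        · subst hj
          simp only [Function.update_self]
          omega
        · simp only [Function.update_of_ne hj]
          exact le_rfl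
      · simp only [Function.update_self]
        omega
    exact absurd h3 (not_le.2 h4)
  · intro a ha
    by_contra hcon
    push Not at hcon
    have hinv := move_a hk hS i ha hcon
    by_cases hi : i < n
    · have h3 := hmax _ hinv
      have h4 : Φ n S < Φ n ⟨S.W, Function.update S.l i (a :: S.l i)⟩ := by
        unfold Φ
        refine Finset.sum_lt_sum (fun j _ => ?_) ⟨i, mem_range.2 hi, ?_⟩
        · by_cases hj : j = i
          · subst hj
            simp only [Function.update_self, List.length_cons]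
            omega
          · simp only [Function.update_of_ne hj]
            exact le_rfl
        · simp only [Function.update_self, List.length_cons]
          omega
      exact absurd h3 (not_le.2 h4)
    · have hW : ∀ j, V.card ≤ j → S.W j = ∅ := fun j hj => W_empty hk hV hS hj
      have hl : S.l i = [] := by
        have h1 := inv_len hk hV hS i
        rw [hW i (by omega), card_empty, mul_zero] at h1
        exact List.eq_nil_of_length_eq_zero (by omega)
      have hE : S.E k i = dlt := by
        unfold St.E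
        rw [hW (i + 2) (by omega), hl]
        simp [VV]
      have hU : S.U k i = dlt := by
        unfold St.U St.P
        rw [hW (i + 1) (by omega), hE]
        simp
      have hM : MP (S.P i) (S.U k i) = dlt := by
        unfold MP St.P
        rw [hW i (by omega), hU]
        simp
      rw [hM] at ha
      have h5 : kap (dlt : G → ℝ≥0∞) a < 1 := by
        refine lt_of_le_of_lt ha ?_
        rw [div_lt_one (by positivity)]
        have h6 : (1 : ℝ) ≤ (k : ℝ) ^ 3 := one_le_pow₀ (by linarith)
        nlinarith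
      have h7 := kap_dlt h5
      rw [h7] at hcon
      have h8 : Real.exp (-(1 / (100 * (k : ℝ)))) ≤ 1 := by
        rw [Real.exp_le_one_iff]
        have : (0 : ℝ) ≤ 1 / (100 * (k : ℝ)) := by positivity
        linarith
      have h9 := mul_le_mul_of_nonneg_right h8
        (ENNReal.toReal_nonneg : 0 ≤ (S.E k i 0).toReal)
      linarith

end Pool.Agent.SP
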