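import Pool.Agent.Helper14.Pcf.Lll

/-!
The local lemma for hypergraphs with weights: a colouring without monochromatic edges.
-/

set_option autoImplicit false

namespace Pool.Agent.SP

open Finset
open Pool.Agent.Helper14.Sq (DependsOn')
open Pool.Agent.Helper14.Pcf (lll_weights)

section

variable {V A : Type*} [Fintype V] [DecidableEq V] [Fintype A] [DecidableEq A]

/-- The colourings which are constant on `T`. -/
def mono (A : Type*) [Fintype A] [DecidableEq A] (T : Finset V) : Finset (V → A) :=
  Finset.univ.filter fun f => ∀ x ∈ T, ∀ y ∈ T, f x = f y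

theorem mono_dep (T : Finset V) : DependsOn' (mono A T) T := by
  intro a b hab
  simp only [mono, Finset.mem_filter, Finset.mem_univ, true_and]
  constructor
  · intro h x hx y hy
    rw [← hab x hx, ← hab y hy]
    exact h x hx y hy
  · intro h x hx y hy
    rw [hab x hx, hab y hy]
    exact h x hx y hy

theorem mono_card {T : Finset V} (hT : T.Nonempty) :
    (mono A T).card * Fintype.card A ^ (T.card - 1) ≤ Fintype.card (V → A) := by
  have h1 : mono A T ⊆ (Finset.univ : Finset A).biUnion fun c =>
      Fintype.piFinset fun v => if v ∈ T then {c} else Finset.univ := by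
    intro f hf
    simp only [mono, Finset.mem_filter, Finset.mem_univ, true_and] at hf
    obtain ⟨x, hx⟩ := hT
    rw [Finset.mem_biUnion]
    refine ⟨f x, Finset.mem_univ _, ?_⟩
    rw [Fintype.mem_piFinset]
    intro v
    by_cases hv : v ∈ T
    · simp [hv, hf v hv x hx]
    · simp [hv]
  have h2 : ∀ c : A, (Fintype.piFinset fun v : V => if v ∈ T then ({c} : Finset A)
      else Finset.univ).card = Fintype.card A ^ (Fintype.card V - T.card) := by
    intro c
    rw [Fintype.card_piFinset]
    have e1 : ∀ v : V, (if v ∈ T then ({c} : Finset A) else Finset.univ).card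
        = if v ∈ T then 1 else Fintype.card A := by
      intro v
      split_ifs <;> simp
    simp only [e1]
    rw [Finset.prod_ite, Finset.prod_const_one, one_mul, Finset.prod_const]
    congr 1
    have e2 : (Finset.univ.filter fun v : V => v ∉ T) = Tᶜ := by
      ext v; simp
    rw [e2, Finset.card_compl]
  have h3 : (mono A T).card ≤ Fintype.card A * Fintype.card A ^ (Fintype.card V - T.card) := by
    calc (mono A T).card ≤ _ := Finset.card_le_card h1
      _ ≤ ∑ c : A, (Fintype.piFinset fun v : V => if v ∈ T then ({c} : Finset A)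
          else Finset.univ).card := Finset.card_biUnion_le
      _ = _ := by
        rw [Finset.sum_congr rfl fun c _ => h2 c, Finset.sum_const, Finset.card_univ, smul_eq_mul]
  have h4 : T.card ≤ Fintype.card V := Finset.card_le_univ T
  have h5 : 1 ≤ T.card := Finset.card_pos.2 hT
  calc (mono A T).card * Fintype.card A ^ (T.card - 1)
      ≤ Fintype.card A * Fintype.card A ^ (Fintype.card V - T.card) *
        Fintype.card A ^ (T.card - 1) := Nat.mul_le_mul_right _ h3
    _ = Fintype.card A ^ (1 + (Fintype.card V - T.card) + (T.card - 1)) := by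
        rw [pow_add, pow_add, pow_one]
    _ = Fintype.card (V → A) := by
        rw [Fintype.card_fun]
        congr 1
        omega

end

theorem lll_hyper {G : Type*} [DecidableEq G] (𝒢 : Finset (Finset G)) (h2 : ∀ D ∈ 𝒢, 2 ≤ D.card)
    (h : ∀ v, ∑ D ∈ 𝒢.filter (fun D => v ∈ D), (1 / 2 ^ 16 : ℝ) ^ D.card ≤ 1 / 4) :
    ∃ f : G → Fin (2 ^ 34), ∀ D ∈ 𝒢, ∃ x ∈ D, ∃ y ∈ D, f x ≠ f y := by
  classical
  set X : Finset G := 𝒢.biUnion id with hX
  have hDX : ∀ D ∈ 𝒢, D ⊆ X := fun D hD x hx => Finset.mem_biUnion.2 ⟨D, hD, hx⟩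
  set T : Finset G → Finset X := fun D => Finset.univ.filter fun v => (v : G) ∈ D with hT
  have hTcard : ∀ D ∈ 𝒢, (T D).card = D.card := by
    intro D hD
    have : (T D).map ⟨Subtype.val, Subtype.val_injective⟩ = D := by
      ext x
      simp only [hT, Finset.mem_map, Finset.mem_filter, Finset.mem_univ, true_and,
        Function.Embedding.coeFn_mk]
      constructor
      · rintro ⟨v, hv, rfl⟩; exact hv
      · intro hx; exact ⟨⟨x, hDX D hD hx⟩, hx, rfl⟩
    rw [← Finset.card_map ⟨Subtype.val, Subtype.val_injective⟩, this]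
  have key := lll_weights (V := X) (A := Fin (2 ^ 34)) (fun D => mono (Fin (2 ^ 34)) (T D)) T 𝒢
    (fun D _ => mono_dep (T D)) (fun D => (1 / 2 ^ 16 : ℝ) ^ D.card)
    (fun D _ => by positivity)
    (fun D hD => by
      have h1 := h2 D hD
      calc (1 / 2 ^ 16 : ℝ) ^ D.card ≤ (1 / 2 ^ 16 : ℝ) ^ 1 :=
            pow_le_pow_of_le_one (by norm_num) (by norm_num) (by omega)
        _ ≤ 1 / 2 := by norm_num)
    (1 / 4)
    (fun v => by
      rw [← Finset.sum_filter]
      have e : (𝒢.filter fun D => v ∈ T D) = 𝒢.filter fun D => (v : G) ∈ D := by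
        ext D; simp [hT]
      rw [e]
      exact h v)
    (fun D hD => by
      have h1 := h2 D hD
      have hc := hTcard D hD
      have hne : (T D).Nonempty := by rw [← Finset.card_pos, hc]; omega
      have h3 := mono_card (A := Fin (2 ^ 34)) hne
      rw [hc] at h3
      have hexp : Real.exp (2 * (1 / 4) * ((T D).card : ℝ)) ≤ 2 ^ D.card := by
        rw [hc]
        have e1 : Real.exp (1 / 2) ≤ 2 := by
          have := Real.exp_one_lt_d9
          have h5 : Real.exp (1 / 2) ^ 2 = Real.exp 1 := by
            rw [← Real.exp_nat_mul]; norm_num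
          nlinarith [Real.exp_pos (1 / 2)]
        calc Real.exp (2 * (1 / 4) * (D.card : ℝ)) = Real.exp (1 / 2) ^ D.card := by
              rw [← Real.exp_nat_mul]; congr 1; ring
          _ ≤ 2 ^ D.card := pow_le_pow_left₀ (Real.exp_pos _).le e1 _
      have h6 : ((mono (Fin (2 ^ 34)) (T D)).card : ℝ) * (2 ^ 34) ^ (D.card - 1)
          ≤ (Fintype.card (X → Fin (2 ^ 34)) : ℝ) := by
        have h10 := (Nat.cast_le (α := ℝ)).2 h3
        rw [Fintype.card_fin, Nat.cast_mul, Nat.cast_pow, Nat.cast_pow, Nat.cast_ofNat] at h10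
        exact h10
      have h7 : (2 : ℝ) ^ D.card * 2 ^ (16 * D.card) ≤ (2 ^ 34) ^ (D.card - 1) := by
        rw [← pow_add, ← pow_mul]
        exact pow_le_pow_right₀ (by norm_num) (by omega)
      have h8 : (1 / 2 ^ 16 : ℝ) ^ D.card * 2 ^ (16 * D.card) = 1 := by
        rw [pow_mul, ← mul_pow]; norm_num
      set m : ℝ := ((mono (Fin (2 ^ 34)) (T D)).card : ℝ) with hm
      have hm0 : 0 ≤ m := Nat.cast_nonneg _
      have h9 : 0 ≤ (1 / 2 ^ 16 : ℝ) ^ D.card := by positivity
      calc m * Real.exp (2 * (1 / 4) * ((T D).card : ℝ)) ≤ m * 2 ^ D.card := by gcongr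
        _ = (1 / 2 ^ 16 : ℝ) ^ D.card * (m * (2 ^ D.card * 2 ^ (16 * D.card))) := by
            calc m * 2 ^ D.card = ((1 / 2 ^ 16 : ℝ) ^ D.card * 2 ^ (16 * D.card)) * (m * 2 ^ D.card) := by
                  rw [h8, one_mul]
              _ = _ := by ring
        _ ≤ (1 / 2 ^ 16 : ℝ) ^ D.card * (m * (2 ^ 34) ^ (D.card - 1)) := by gcongr
        _ ≤ _ := by gcongr)
  obtain ⟨a, ha⟩ := key
  refine ⟨fun x => if hx : x ∈ X then a ⟨x, hx⟩ else ⟨0, by norm_num⟩, fun D hD => ?_⟩
  by_contra hcon
  push Not at hcon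
  apply ha D hD
  simp only [mono, Finset.mem_filter, Finset.mem_univ, true_and]
  intro x hx y hy
  have hx' : (x : G) ∈ D := (Finset.mem_filter.1 hx).2
  have hy' : (y : G) ∈ D := (Finset.mem_filter.1 hy).2
  have h1 := hcon x hx' y hy'
  simpa using h1

end Pool.Agent.SP
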