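import Pool.Agent.SP.Own
import Pool.Agent.SP.Mu
import Pool.Agent.SP.Lll

/-!
Colouring of one level (row LC of the theorem on short relations).
-/

set_option autoImplicit false

namespace Pool.Agent.SP

open Finset
open scoped ENNReal
open Pool.Agent.Helper36.LL (conv dlt FF gw tern)

variable {G : Type*} [AddCommGroup G] [DecidableEq G]

/-- The grid of thresholds. -/
noncomputable def lc_sj (k j : ℕ) : ℝ := 1 / (2 ^ 30 * (k : ℝ) ^ 3) / 16 ^ j

theorem lc_sj_pos {k : ℕ} (hk : 1 ≤ k) (j : ℕ) : 0 < lc_sj k j := by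
  have : (0 : ℝ) < k := by exact_mod_cast hk
  unfold lc_sj
  positivity

theorem lc_sj_succ (k j : ℕ) : 16 * lc_sj k (j + 1) = lc_sj k j := by
  unfold lc_sj
  rw [pow_succ (16 : ℝ) j]
  field_simp

theorem lc_sj_le_zero {k : ℕ} (hk : 1 ≤ k) (j : ℕ) : lc_sj k j ≤ lc_sj k 0 := by
  induction j with
  | zero => exact le_refl _
  | succ j ih =>
    have h1 := lc_sj_succ k j
    have h2 := lc_sj_pos hk (j + 1)
    linarith

theorem lc_sj_zero_le {k : ℕ} (hk : 100 ≤ k) : 16 * lc_sj k 0 ≤ 1 / 8 := by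
  have hk' : (1 : ℝ) ≤ k := by exact_mod_cast (by omega : 1 ≤ k)
  unfold lc_sj
  rw [pow_zero, div_one, ← mul_div_assoc, div_le_div_iff₀ (by positivity) (by norm_num)]
  have : (1 : ℝ) ≤ (k : ℝ) ^ 3 := one_le_pow₀ hk'
  nlinarith

/-- LcGood signed sets. -/
def LcGood (M : G → ℝ≥0∞) (s : ℝ) (T : Finset G × Finset G) : Prop :=
  kap M (sg T.1 T.2) ≤ s ∧ ∀ A ⊆ T.1, ∀ B ⊆ T.2, (A ∪ B).Nonempty → (A, B) ≠ T →
    16 * s < kap M (sg A B)

theorem lc_sg_sdiff {A B A' B' : Finset G} (hA : A' ⊆ A) (hB : B' ⊆ B) :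
    sg (A \ A') (B \ B') = sg A B - sg A' B' := by
  unfold sg
  rw [← Finset.sum_sdiff hA, ← Finset.sum_sdiff hB]
  abel

/-- The complement of a part of small defect has small defect. -/
theorem lc_kap_compl {M : G → ℝ≥0∞} (hM : PD M) (h0 : Fin0 M) {A B A' B' : Finset G}
    (hA : A' ⊆ A) (hB : B' ⊆ B) {s : ℝ} (hs : 0 ≤ s) (h1 : kap M (sg A B) ≤ s)
    (h2 : kap M (sg A' B') ≤ 16 * s) : kap M (sg (A \ A') (B \ B')) ≤ 25 * s := by
  rw [lc_sg_sdiff hA hB]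
  have := PD.kap_sub hM h0 (x := sg A B) (y := sg A' B') (s := Real.sqrt s)
    (t := 4 * Real.sqrt s) (Real.sqrt_nonneg _) (by positivity)
    (by rwa [Real.sq_sqrt hs]) (by rw [mul_pow, Real.sq_sqrt hs]; linarith)
  have e : (Real.sqrt s + 4 * Real.sqrt s) ^ 2 = 25 * s := by
    have := Real.sq_sqrt hs
    nlinarith
  rwa [e] at this

/-- A signed set of defect at most `s_j` without good parts is long. -/
theorem lc_long_of_noGood {k : ℕ} (hk : 100 ≤ k) {P : Finset G} {E U : G → ℝ≥0∞}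
    (h : Lev k P E U) (hM : PD (MP P U)) (h0 : Fin0 (MP P U)) :
    ∀ j : ℕ, ∀ A B : Finset G, A ⊆ P → B ⊆ P → Disjoint A B → (A ∪ B).Nonempty →
      (A ∪ B).card ≤ 2 ^ k → kap (MP P U) (sg A B) ≤ lc_sj k j →
      (∀ i ≤ j, ∀ A' ⊆ A, ∀ B' ⊆ B, (A' ∪ B').Nonempty → ¬ LcGood (MP P U) (lc_sj k i) (A', B')) →
      (3 * k + 1) * Nat.fib (j + 2) ≤ (A ∪ B).card := by
  have hk1 : 1 ≤ k := by omega
  -- the base: any set of defect at most `16 s_0`
  have base : ∀ A B : Finset G, A ⊆ P → B ⊆ P → Disjoint A B → (A ∪ B).Nonempty →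
      (A ∪ B).card ≤ 2 ^ k → kap (MP P U) (sg A B) ≤ 16 * lc_sj k 0 → 3 * k + 1 ≤ (A ∪ B).card := by
    intro A B hA hB hAB hne hc hs
    exact Lev.len hk h hA hB hAB hne hc (hs.trans (lc_sj_zero_le hk))
  intro j
  induction j using Nat.strong_induction_on with
  | _ j ih =>
    intro A B hA hB hAB hne hc hs hno
    have hng := hno j (le_refl _) A (Subset.refl _) B (Subset.refl _) hne
    unfold LcGood at hng
    push Not at hng
    obtain ⟨A', hA', B', hB', hne', hneq, hs'⟩ := hng hs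
    replace hA' : A' ⊆ A := hA'
    replace hB' : B' ⊆ B := hB'
    rw [Ne, Prod.mk.injEq] at hneq
    have hdis' : Disjoint A' B' := hAB.mono hA' hB'
    have hsub' : A' ∪ B' ⊆ A ∪ B := Finset.union_subset_union hA' hB'
    have hc' : (A' ∪ B').card ≤ 2 ^ k := (Finset.card_le_card hsub').trans hc
    have hdis'' : Disjoint (A \ A') (B \ B') :=
      hAB.mono Finset.sdiff_subset Finset.sdiff_subset
    have hsub'' : (A \ A') ∪ (B \ B') ⊆ A ∪ B :=
      Finset.union_subset_union Finset.sdiff_subset Finset.sdiff_subset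
    have hc'' : ((A \ A') ∪ (B \ B')).card ≤ 2 ^ k := (Finset.card_le_card hsub'').trans hc
    have hne'' : ((A \ A') ∪ (B \ B')).Nonempty := by
      by_contra hcon
      rw [Finset.not_nonempty_iff_eq_empty, Finset.union_eq_empty, Finset.sdiff_eq_empty_iff_subset,
        Finset.sdiff_eq_empty_iff_subset] at hcon
      exact hneq ⟨hA'.antisymm hcon.1, hB'.antisymm hcon.2⟩
    have hcard : (A ∪ B).card = (A' ∪ B').card + ((A \ A') ∪ (B \ B')).card := by
      rw [Finset.card_union_of_disjoint hAB, Finset.card_union_of_disjoint hdis',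
        Finset.card_union_of_disjoint hdis'', Finset.card_sdiff_of_subset hA',
        Finset.card_sdiff_of_subset hB']
      have := Finset.card_le_card hA'
      have := Finset.card_le_card hB'
      omega
    have hcompl := lc_kap_compl hM h0 hA' hB' (lc_sj_pos hk1 j).le hs hs'
    have hno' : ∀ i ≤ j, ∀ A₁ ⊆ A', ∀ B₁ ⊆ B', (A₁ ∪ B₁).Nonempty →
        ¬ LcGood (MP P U) (lc_sj k i) (A₁, B₁) := fun i hi A₁ h1 B₁ h2 h3 =>
      hno i hi A₁ (h1.trans hA') B₁ (h2.trans hB') h3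
    have hno'' : ∀ i ≤ j, ∀ A₁ ⊆ A \ A', ∀ B₁ ⊆ B \ B', (A₁ ∪ B₁).Nonempty →
        ¬ LcGood (MP P U) (lc_sj k i) (A₁, B₁) := fun i hi A₁ h1 B₁ h2 h3 =>
      hno i hi A₁ (h1.trans Finset.sdiff_subset) B₁ (h2.trans Finset.sdiff_subset) h3
    rcases j with _ | _ | j
    · -- level 0
      have := base A B hA hB hAB hne hc (by have := lc_sj_pos hk1 0; linarith)
      simpa using this
    · -- level 1
      have h1 : kap (MP P U) (sg A' B') ≤ lc_sj k 0 := by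
        rw [← lc_sj_succ]; exact hs'
      have h2 : kap (MP P U) (sg (A \ A') (B \ B')) ≤ 16 * lc_sj k 0 := by
        have e := lc_sj_succ k 0
        have := lc_sj_pos hk1 0
        refine hcompl.trans ?_
        rw [zero_add] at e ⊢
        linarith
      have b1 := base A' B' (hA'.trans hA) (hB'.trans hB) hdis' hne' hc' (by
        have := lc_sj_pos hk1 0; linarith)
      have b2 := base _ _ (Finset.sdiff_subset.trans hA) (Finset.sdiff_subset.trans hB) hdis''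
        hne'' hc'' h2
      have e3 : Nat.fib (0 + 1 + 2) = 2 := by decide
      rw [e3, hcard]
      omega
    · have h1 : kap (MP P U) (sg A' B') ≤ lc_sj k (j + 1) := by
        rw [← lc_sj_succ]; exact hs'
      have h2 : kap (MP P U) (sg (A \ A') (B \ B')) ≤ lc_sj k j := by
        have e1 := lc_sj_succ k j
        have e2 := lc_sj_succ k (j + 1)
        have e3 := lc_sj_pos hk1 (j + 1 + 1)
        refine hcompl.trans ?_
        linarith
      have b1 := ih (j + 1) (by omega) A' B' (hA'.trans hA) (hB'.trans hB) hdis' hne' hc' h1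
        (fun i hi => hno' i (by omega))
      have b2 := ih j (by omega) _ _ (Finset.sdiff_subset.trans hA) (Finset.sdiff_subset.trans hB)
        hdis'' hne'' hc'' h2 (fun i hi => hno'' i (by omega))
      have e3 : Nat.fib (j + 1 + 1 + 2) = Nat.fib (j + 2) + Nat.fib (j + 1 + 2) :=
        Nat.fib_add_two
      rw [e3, hcard, mul_add]
      omega

/-- Minimal good signed sets, of exact level `j`. -/
def LcNG (M : G → ℝ≥0∞) (k j : ℕ) (T : Finset G × Finset G) : Prop :=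
  LcGood M (lc_sj k j) T ∧ (∀ i < j, ¬ LcGood M (lc_sj k i) T) ∧
    ∀ i ≤ j, ∀ A ⊆ T.1, ∀ B ⊆ T.2, (A ∪ B).Nonempty → (A, B) ≠ T → ¬ LcGood M (lc_sj k i) (A, B)

theorem lc_ng_len {k : ℕ} (hk : 100 ≤ k) {P : Finset G} {E U : G → ℝ≥0∞}
    (h : Lev k P E U) (hM : PD (MP P U)) (h0 : Fin0 (MP P U)) {j : ℕ} {A B : Finset G}
    (hA : A ⊆ P) (hB : B ⊆ P) (hAB : Disjoint A B) (hne : (A ∪ B).Nonempty)
    (hc : (A ∪ B).card ≤ 2 ^ k) (hT : LcNG (MP P U) k j (A, B)) :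
    (3 * k + 1) * max 1 (Nat.fib j) ≤ (A ∪ B).card := by
  have hk1 : 1 ≤ k := by omega
  obtain ⟨hg, hlow, hpart⟩ := hT
  have hbase : 3 * k + 1 ≤ (A ∪ B).card := by
    refine Lev.len hk h hA hB hAB hne hc ?_
    have h1 := lc_sj_le_zero hk1 j
    have h2 := lc_sj_zero_le hk
    have h3 := lc_sj_pos hk1 0
    have h4 : kap (MP P U) (sg A B) ≤ lc_sj k j := hg.1
    linarith
  rcases j with _ | _ | j
  · simpa using hbase
  · simpa using hbase
  · have hng := hlow (j + 1) (by omega)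
    unfold LcGood at hng
    push Not at hng
    have h4 : kap (MP P U) (sg A B) ≤ lc_sj k (j + 1 + 1) := hg.1
    have e1 := lc_sj_succ k (j + 1)
    have e2 := lc_sj_succ k j
    have e3 := lc_sj_pos hk1 (j + 1 + 1)
    obtain ⟨A', hA', B', hB', hne', hneq, hs'⟩ := hng (by
      show kap (MP P U) (sg A B) ≤ lc_sj k (j + 1)
      linarith)
    replace hA' : A' ⊆ A := hA'
    replace hB' : B' ⊆ B := hB'
    have hsub' : A' ∪ B' ⊆ A ∪ B := Finset.union_subset_union hA' hB'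
    have hcl := Finset.card_le_card hsub'
    have b1 := lc_long_of_noGood hk h hM h0 j A' B' (hA'.trans hA) (hB'.trans hB)
      (hAB.mono hA' hB') hne' (hcl.trans hc) (by rw [e2] at hs'; exact hs') (by
      intro i hi A₁ h1 B₁ h2 h3
      refine hpart i (by omega) A₁ (h1.trans hA') B₁ (h2.trans hB') h3 ?_
      intro hcon
      rw [Prod.mk.injEq] at hcon
      apply hneq
      rw [Prod.mk.injEq]
      exact ⟨hA'.antisymm (hcon.1 ▸ h1), hB'.antisymm (hcon.2 ▸ h2)⟩)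
    rcases le_total 1 (Nat.fib (j + 1 + 1)) with h5 | h5
    · rw [max_eq_right h5]
      exact b1.trans hcl
    · rw [max_eq_left h5, mul_one]
      exact hbase

theorem lc_pow_bound {k : ℕ} (hk : 100 ≤ k) : 2 ^ 30 * k ^ 3 ≤ 2 ^ k := by
  induction k, hk using Nat.le_induction with
  | base => norm_num
  | succ n hn ih =>
    have h1 : (n + 1) ^ 3 ≤ 2 * n ^ 3 := by
      have e : (n + 1) ^ 3 = n ^ 3 + (3 * n ^ 2 + 3 * n + 1) := by ring
      have e2 : 3 * n ^ 2 + 3 * n + 1 ≤ 100 * n ^ 2 := by nlinarith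
      have e3 : 100 * n ^ 2 ≤ n * n ^ 2 := Nat.mul_le_mul_right _ hn
      have e4 : n * n ^ 2 = n ^ 3 := by ring
      omega
    calc 2 ^ 30 * (n + 1) ^ 3 ≤ 2 ^ 30 * (2 * n ^ 3) := Nat.mul_le_mul_left _ h1
      _ = 2 * (2 ^ 30 * n ^ 3) := by ring
      _ ≤ 2 * 2 ^ n := Nat.mul_le_mul_left _ ih
      _ = 2 ^ (n + 1) := by ring

theorem lc_sj_ge {k : ℕ} (hk : 100 ≤ k) {j : ℕ} (hj : j ≤ 2 * k) : 1 / 2 ^ (9 * k) ≤ lc_sj k j := by
  have hk' : (0 : ℝ) < k := by exact_mod_cast (by omega : 0 < k)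
  have h1 : (2 ^ 30 * (k : ℝ) ^ 3) ≤ 2 ^ k := by exact_mod_cast lc_pow_bound hk
  have h2 : (16 : ℝ) ^ j ≤ 2 ^ (8 * k) := by
    calc (16 : ℝ) ^ j ≤ 16 ^ (2 * k) := pow_le_pow_right₀ (by norm_num) hj
      _ = 2 ^ (8 * k) := by
          rw [show (16 : ℝ) = 2 ^ 4 by norm_num, ← pow_mul]
          congr 1
          ring
  unfold lc_sj
  rw [div_div]
  refine one_div_le_one_div_of_le (by positivity) ?_
  calc 2 ^ 30 * (k : ℝ) ^ 3 * 16 ^ j ≤ 2 ^ k * 2 ^ (8 * k) := by gcongr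
    _ = 2 ^ (9 * k) := by
        rw [← pow_add]
        congr 1
        ring

section count

open Classical in
/-- The minimal good signed sets of level `j` in `P`. -/
noncomputable def LcNGs (M : G → ℝ≥0∞) (P : Finset G) (k j : ℕ) : Finset (Finset G × Finset G) :=
  (P.powerset ×ˢ P.powerset).filter (fun T => Disjoint T.1 T.2 ∧ (T.1 ∪ T.2).Nonempty ∧
    (T.1 ∪ T.2).card ≤ 2 ^ k ∧ LcNG M k j T)

theorem lc_mem_NGs {M : G → ℝ≥0∞} {P : Finset G} {k j : ℕ} {T : Finset G × Finset G} :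
    T ∈ LcNGs M P k j ↔ (T.1 ⊆ P ∧ T.2 ⊆ P) ∧ Disjoint T.1 T.2 ∧ (T.1 ∪ T.2).Nonempty ∧
      (T.1 ∪ T.2).card ≤ 2 ^ k ∧ LcNG M k j T := by
  classical
  unfold LcNGs
  rw [Finset.mem_filter, Finset.mem_product, Finset.mem_powerset, Finset.mem_powerset]

theorem lc_mem_Fam {M : G → ℝ≥0∞} {P : Finset G} {n : ℕ} {s : ℝ} {g : G}
    {T : Finset G × Finset G} : T ∈ Fam M P n s g ↔ (T.1 ⊆ P ∧ T.2 ⊆ P) ∧ Disjoint T.1 T.2 ∧
      (T.1 ∪ T.2).Nonempty ∧ (T.1 ∪ T.2).card ≤ n ∧ Free M (16 * s) T ∧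
        kap M (g - sg T.1 T.2) ≤ s := by
  classical
  unfold Fam
  rw [Finset.mem_filter, Finset.mem_product, Finset.mem_powerset, Finset.mem_powerset]

/-- Free signed sets from good ones. -/
theorem lc_free_of_good {M : G → ℝ≥0∞} {s : ℝ} {A B A' B' : Finset G} (h : LcGood M s (A, B))
    (hA : A' ⊆ A) (hB : B' ⊆ B) (hne : (A', B') ≠ (A, B)) : Free M (16 * s) (A', B') := by
  intro A₁ h1 B₁ h2 h3
  replace h1 : A₁ ⊆ A' := h1
  replace h2 : B₁ ⊆ B' := h2
  refine h.2 A₁ (h1.trans hA) B₁ (h2.trans hB) h3 ?_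
  intro hcon
  rw [Prod.mk.injEq] at hcon
  apply hne
  rw [Prod.mk.injEq]
  exact ⟨hA.antisymm (hcon.1 ▸ h1), hB.antisymm (hcon.2 ▸ h2)⟩

theorem lc_sg_erase_left {A B : Finset G} {v : G} (hv : v ∈ A) :
    -v - sg (A.erase v) B = -sg A B := by
  unfold sg
  rw [← Finset.add_sum_erase A (fun x => x) hv]
  abel

theorem lc_sg_erase_right {A B : Finset G} {v : G} (hv : v ∈ B) :
    v - sg A (B.erase v) = -sg A B := by
  unfold sg
  rw [← Finset.add_sum_erase B (fun x => x) hv]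
  abel

/-- The minimal good sets of level `j` through `v`, positive part. -/
theorem lc_count_pos {k : ℕ} {M : G → ℝ≥0∞} (hM : PD M) (P : Finset G) (j : ℕ) (v : G)
    (h2 : ∀ T ∈ LcNGs M P k j, 2 ≤ (T.1 ∪ T.2).card) (q : ℝ) (hq : 0 ≤ q) :
    ∑ T ∈ (LcNGs M P k j).filter (fun T => v ∈ T.1), q ^ ((T.1 ∪ T.2).card - 1) ≤
      ∑ T ∈ Fam M P (2 ^ k) (lc_sj k j) (-v), q ^ (T.1 ∪ T.2).card := by
  classical
  set S := (LcNGs M P k j).filter (fun T => v ∈ T.1) with hS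
  have hcard : ∀ T ∈ S, (T.1.erase v ∪ T.2) = (T.1 ∪ T.2).erase v := by
    intro T hT
    obtain ⟨hT1, hv⟩ := Finset.mem_filter.1 hT
    obtain ⟨_, hd, _⟩ := lc_mem_NGs.1 hT1
    have hv2 : v ∉ T.2 := fun h => Finset.disjoint_left.1 hd hv h
    rw [Finset.erase_union_distrib, Finset.erase_eq_of_notMem hv2]
  have hinj : Set.InjOn (fun T : Finset G × Finset G => (T.1.erase v, T.2)) S := by
    rintro ⟨A, B⟩ hT ⟨A', B'⟩ hT' h
    have hv := (Finset.mem_filter.1 (Finset.mem_coe.1 hT)).2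
    have hv' := (Finset.mem_filter.1 (Finset.mem_coe.1 hT')).2
    simp only [Prod.mk.injEq] at h hv hv'
    rw [Prod.mk.injEq]
    refine ⟨?_, h.2⟩
    rw [← Finset.insert_erase hv, ← Finset.insert_erase hv', h.1]
  have e1 : ∑ T ∈ S, q ^ ((T.1 ∪ T.2).card - 1) =
      ∑ T ∈ S.image (fun T => (T.1.erase v, T.2)), q ^ (T.1 ∪ T.2).card := by
    rw [Finset.sum_image hinj]
    refine Finset.sum_congr rfl fun T hT => ?_
    have hv := (Finset.mem_filter.1 hT).2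
    rw [hcard T hT, Finset.card_erase_of_mem (Finset.mem_union_left _ hv)]
  rw [e1]
  refine Finset.sum_le_sum_of_subset_of_nonneg ?_ (fun T _ _ => pow_nonneg hq _)
  intro T' hT'
  obtain ⟨T, hT, rfl⟩ := Finset.mem_image.1 hT'
  obtain ⟨hT1, hv⟩ := Finset.mem_filter.1 hT
  obtain ⟨⟨hA, hB⟩, hd, hne, hc, hng⟩ := lc_mem_NGs.1 hT1
  have hc2 := h2 T hT1
  have hce : ((T.1 ∪ T.2).erase v).card = (T.1 ∪ T.2).card - 1 :=
    Finset.card_erase_of_mem (Finset.mem_union_left _ hv)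
  rw [lc_mem_Fam]
  refine ⟨⟨(Finset.erase_subset _ _).trans hA, hB⟩, hd.mono_left (Finset.erase_subset _ _), ?_, ?_,
    ?_, ?_⟩
  · show (T.1.erase v ∪ T.2).Nonempty
    rw [hcard T hT, ← Finset.card_pos, hce]
    omega
  · show (T.1.erase v ∪ T.2).card ≤ 2 ^ k
    rw [hcard T hT, hce]
    omega
  · refine lc_free_of_good (A := T.1) (B := T.2) hng.1 (Finset.erase_subset _ _)
      (Finset.Subset.refl _) ?_
    intro hcon
    rw [Prod.mk.injEq] at hcon
    have h3 := Finset.notMem_erase v T.1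
    rw [hcon.1] at h3
    exact h3 hv
  · show kap M (-v - sg (T.1.erase v) T.2) ≤ lc_sj k j
    rw [lc_sg_erase_left hv, PD.kap_neg hM]
    exact hng.1.1

/-- The minimal good sets of level `j` through `v`, negative part. -/
theorem lc_count_neg {k : ℕ} {M : G → ℝ≥0∞} (hM : PD M) (P : Finset G) (j : ℕ) (v : G)
    (h2 : ∀ T ∈ LcNGs M P k j, 2 ≤ (T.1 ∪ T.2).card) (q : ℝ) (hq : 0 ≤ q) :
    ∑ T ∈ (LcNGs M P k j).filter (fun T => v ∈ T.2), q ^ ((T.1 ∪ T.2).card - 1) ≤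
      ∑ T ∈ Fam M P (2 ^ k) (lc_sj k j) v, q ^ (T.1 ∪ T.2).card := by
  classical
  set S := (LcNGs M P k j).filter (fun T => v ∈ T.2) with hS
  have hcard : ∀ T ∈ S, (T.1 ∪ T.2.erase v) = (T.1 ∪ T.2).erase v := by
    intro T hT
    obtain ⟨hT1, hv⟩ := Finset.mem_filter.1 hT
    obtain ⟨_, hd, _⟩ := lc_mem_NGs.1 hT1
    have hv2 : v ∉ T.1 := fun h => Finset.disjoint_left.1 hd h hv
    rw [Finset.erase_union_distrib, Finset.erase_eq_of_notMem hv2]
  have hinj : Set.InjOn (fun T : Finset G × Finset G => (T.1, T.2.erase v)) S := by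
    rintro ⟨A, B⟩ hT ⟨A', B'⟩ hT' h
    have hv := (Finset.mem_filter.1 (Finset.mem_coe.1 hT)).2
    have hv' := (Finset.mem_filter.1 (Finset.mem_coe.1 hT')).2
    simp only [Prod.mk.injEq] at h hv hv'
    rw [Prod.mk.injEq]
    refine ⟨h.1, ?_⟩
    rw [← Finset.insert_erase hv, ← Finset.insert_erase hv', h.2]
  have e1 : ∑ T ∈ S, q ^ ((T.1 ∪ T.2).card - 1) =
      ∑ T ∈ S.image (fun T => (T.1, T.2.erase v)), q ^ (T.1 ∪ T.2).card := by
    rw [Finset.sum_image hinj]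
    refine Finset.sum_congr rfl fun T hT => ?_
    have hv := (Finset.mem_filter.1 hT).2
    rw [hcard T hT, Finset.card_erase_of_mem (Finset.mem_union_right _ hv)]
  rw [e1]
  refine Finset.sum_le_sum_of_subset_of_nonneg ?_ (fun T _ _ => pow_nonneg hq _)
  intro T' hT'
  obtain ⟨T, hT, rfl⟩ := Finset.mem_image.1 hT'
  obtain ⟨hT1, hv⟩ := Finset.mem_filter.1 hT
  obtain ⟨⟨hA, hB⟩, hd, hne, hc, hng⟩ := lc_mem_NGs.1 hT1
  have hc2 := h2 T hT1
  have hce : ((T.1 ∪ T.2).erase v).card = (T.1 ∪ T.2).card - 1 :=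
    Finset.card_erase_of_mem (Finset.mem_union_right _ hv)
  rw [lc_mem_Fam]
  refine ⟨⟨hA, (Finset.erase_subset _ _).trans hB⟩, hd.mono_right (Finset.erase_subset _ _), ?_, ?_,
    ?_, ?_⟩
  · show (T.1 ∪ T.2.erase v).Nonempty
    rw [hcard T hT, ← Finset.card_pos, hce]
    omega
  · show (T.1 ∪ T.2.erase v).card ≤ 2 ^ k
    rw [hcard T hT, hce]
    omega
  · refine lc_free_of_good (A := T.1) (B := T.2) hng.1 (Finset.Subset.refl _)
      (Finset.erase_subset _ _) ?_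
    intro hcon
    rw [Prod.mk.injEq] at hcon
    have h3 := Finset.notMem_erase v T.2
    rw [hcon.2] at h3
    exact h3 hv
  · show kap M (v - sg T.1 (T.2.erase v)) ≤ lc_sj k j
    rw [lc_sg_erase_right hv, PD.kap_neg hM]
    exact hng.1.1

end count

/-- The weight of the minimal good sets of level `j` through `v`. -/
theorem lc_weight_level {k : ℕ} (hk : 100 ≤ k) {P : Finset G} {E U : G → ℝ≥0∞}
    (h : Lev k P E U) (hM : PD (MP P U)) (h0 : Fin0 (MP P U)) {j : ℕ} (hj : j ≤ 2 * k) (v : G) :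
    ∑ T ∈ (LcNGs (MP P U) P k j).filter (fun T => v ∈ T.1 ∪ T.2),
      (1 / 2 ^ 16 : ℝ) ^ (T.1 ∪ T.2).card ≤ 1 / (4 * (2 * k + 1)) := by
  classical
  have hk1 : 1 ≤ k := by omega
  have hk' : (0 : ℝ) < k := by exact_mod_cast hk1
  have hsp := lc_sj_pos hk1 j
  set ℓ : ℕ := (3 * k + 1) * max 1 (Nat.fib j) with hℓ
  have hlen : ∀ T ∈ LcNGs (MP P U) P k j, ℓ ≤ (T.1 ∪ T.2).card := by
    intro T hT
    obtain ⟨⟨hA, hB⟩, hd, hne, hc, hng⟩ := lc_mem_NGs.1 hT
    exact lc_ng_len hk h hM h0 hA hB hd hne hc hng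
  have hℓ1 : 3 * k + 1 ≤ ℓ := by
    rw [hℓ]
    exact Nat.le_mul_of_pos_right _ (by positivity)
  have h2 : ∀ T ∈ LcNGs (MP P U) P k j, 2 ≤ (T.1 ∪ T.2).card := fun T hT => by
    have := hlen T hT
    omega
  have hs' : 4 * lc_sj k j ≤ 1 / (2 ^ 28 * (k : ℝ) ^ 3) := by
    have h3 := lc_sj_le_zero hk1 j
    have e : 4 * lc_sj k 0 = 1 / (2 ^ 28 * (k : ℝ) ^ 3) := by
      unfold lc_sj
      rw [pow_zero]
      field_simp
      norm_num
    linarith
  have c1 := lc_count_pos hM P j v h2 (1 / 2 ^ 15) (by norm_num)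
  have c2 := lc_count_neg hM P j v h2 (1 / 2 ^ 15) (by norm_num)
  have m1 := mu_claim hk h (lc_sj_ge hk hj) hs' (-v)
  have m2 := mu_claim hk h (lc_sj_ge hk hj) hs' v
  set S := (LcNGs (MP P U) P k j).filter (fun T => v ∈ T.1 ∪ T.2) with hS
  have hsplit : ∑ T ∈ S, (1 / 2 ^ 15 : ℝ) ^ ((T.1 ∪ T.2).card - 1) ≤
      640 / 2 ^ 15 / lc_sj k j + 640 / 2 ^ 15 / lc_sj k j := by
    have hsub : S ⊆ (LcNGs (MP P U) P k j).filter (fun T => v ∈ T.1) ∪
        (LcNGs (MP P U) P k j).filter (fun T => v ∈ T.2) := by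
      intro T hT
      obtain ⟨hT1, hv⟩ := Finset.mem_filter.1 hT
      rw [Finset.mem_union, Finset.mem_filter, Finset.mem_filter]
      rcases Finset.mem_union.1 hv with hv | hv
      · exact Or.inl ⟨hT1, hv⟩
      · exact Or.inr ⟨hT1, hv⟩
    refine (Finset.sum_le_sum_of_subset_of_nonneg hsub (fun T _ _ => by positivity)).trans ?_
    have hui := Finset.sum_union_inter (f := fun T : Finset G × Finset G =>
      (1 / 2 ^ 15 : ℝ) ^ ((T.1 ∪ T.2).card - 1))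
      (s₁ := (LcNGs (MP P U) P k j).filter (fun T => v ∈ T.1))
      (s₂ := (LcNGs (MP P U) P k j).filter (fun T => v ∈ T.2))
    have hin : 0 ≤ ∑ T ∈ (LcNGs (MP P U) P k j).filter (fun T => v ∈ T.1) ∩
        (LcNGs (MP P U) P k j).filter (fun T => v ∈ T.2),
        (1 / 2 ^ 15 : ℝ) ^ ((T.1 ∪ T.2).card - 1) := Finset.sum_nonneg fun T _ => by positivity
    have := add_le_add (c1.trans m1) (c2.trans m2)
    linarith
  have hterm : ∀ T ∈ S, (1 / 2 ^ 16 : ℝ) ^ (T.1 ∪ T.2).card ≤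
      (1 / 2) ^ ℓ * (1 / 2 ^ 15) * (1 / 2 ^ 15 : ℝ) ^ ((T.1 ∪ T.2).card - 1) := by
    intro T hT
    have hT1 := (Finset.mem_filter.1 hT).1
    have h3 := hlen T hT1
    obtain ⟨m, hm⟩ : ∃ m, (T.1 ∪ T.2).card = m + 1 := ⟨(T.1 ∪ T.2).card - 1, by omega⟩
    have h4 : (1 / 2 : ℝ) ^ (T.1 ∪ T.2).card ≤ (1 / 2) ^ ℓ :=
      pow_le_pow_of_le_one (by norm_num) (by norm_num) h3
    calc (1 / 2 ^ 16 : ℝ) ^ (T.1 ∪ T.2).card
        = (1 / 2) ^ (T.1 ∪ T.2).card * (1 / 2 ^ 15) ^ (T.1 ∪ T.2).card := by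
          rw [← mul_pow]; norm_num
      _ ≤ (1 / 2) ^ ℓ * (1 / 2 ^ 15) ^ (T.1 ∪ T.2).card :=
          mul_le_mul_of_nonneg_right h4 (by positivity)
      _ = (1 / 2) ^ ℓ * (1 / 2 ^ 15) * (1 / 2 ^ 15 : ℝ) ^ ((T.1 ∪ T.2).card - 1) := by
          rw [hm, Nat.add_sub_cancel, pow_succ (1 / 2 ^ 15 : ℝ) m]
          ring
  have hsum : ∑ T ∈ S, (1 / 2 ^ 16 : ℝ) ^ (T.1 ∪ T.2).card ≤
      (1 / 2) ^ ℓ * (1 / 2 ^ 15) * (640 / 2 ^ 15 / lc_sj k j + 640 / 2 ^ 15 / lc_sj k j) := by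
    refine (Finset.sum_le_sum hterm).trans ?_
    rw [← Finset.mul_sum]
    exact mul_le_mul_of_nonneg_left hsplit (by positivity)
  refine hsum.trans ?_
  -- the numbers
  have hfib := Nat.le_fib_add_one j
  have hpow : (16 : ℝ) ^ j * (1 / 2) ^ ℓ ≤ 2 ^ 8 / 2 ^ (3 * k + 1) := by
    have h5 : 4 * j + (3 * k + 1) ≤ ℓ + 8 := by
      have h6 : Nat.fib j ≤ max 1 (Nat.fib j) := le_max_right _ _
      have h7 : 1 ≤ max 1 (Nat.fib j) := le_max_left _ _
      obtain ⟨t, ht⟩ : ∃ t, max 1 (Nat.fib j) = t + 1 := ⟨max 1 (Nat.fib j) - 1, by omega⟩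
      have h8 : j ≤ t + 2 := by omega
      have h9 : 4 * t ≤ (3 * k + 1) * t := Nat.mul_le_mul_right _ (by omega)
      rw [hℓ, ht, mul_add, mul_one]
      omega
    have h6 : (2 : ℝ) ^ (4 * j + (3 * k + 1)) ≤ 2 ^ (ℓ + 8) :=
      pow_le_pow_right₀ (by norm_num) h5
    rw [one_div, inv_pow, ← div_eq_mul_inv, div_le_div_iff₀ (by positivity) (by positivity)]
    have e16 : (16 : ℝ) = 2 ^ 4 := by norm_num
    rw [e16, ← pow_mul, ← pow_add, ← pow_add, add_comm 8 ℓ]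
    exact h6
  have e1 : (1 / 2 : ℝ) ^ ℓ * (1 / 2 ^ 15) * (640 / 2 ^ 15 / lc_sj k j + 640 / 2 ^ 15 / lc_sj k j) =
      1280 * (k : ℝ) ^ 3 * (16 ^ j * (1 / 2) ^ ℓ) := by
    unfold lc_sj
    field_simp
    norm_num
  rw [e1]
  have hpb : (2 ^ 30 * (k : ℝ) ^ 3) ≤ 2 ^ k := by exact_mod_cast lc_pow_bound hk
  have hk2 : (2 * (k : ℝ) + 1) ≤ 2 ^ k := by
    have : 2 * k + 1 ≤ 2 ^ k := by
      have h3 := lc_pow_bound hk
      have h4 : 2 * k + 1 ≤ 2 ^ 30 * k ^ 3 := by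
        have : k ≤ k ^ 3 := Nat.le_self_pow (by norm_num) k
        omega
      omega
    exact_mod_cast this
  calc 1280 * (k : ℝ) ^ 3 * ((16 : ℝ) ^ j * (1 / 2) ^ ℓ)
      ≤ 1280 * (k : ℝ) ^ 3 * ((2 : ℝ) ^ 8 / 2 ^ (3 * k + 1)) :=
        mul_le_mul_of_nonneg_left hpow (by positivity)
    _ ≤ 1 / (4 * (2 * (k : ℝ) + 1)) := by
        rw [← mul_div_assoc, div_le_div_iff₀ (by positivity) (by positivity), one_mul]
        calc 1280 * (k : ℝ) ^ 3 * 2 ^ 8 * (4 * (2 * (k : ℝ) + 1))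
            = (2 ^ 30 * (k : ℝ) ^ 3) * (2 * (k : ℝ) + 1) * (1280 * 2 ^ 10 / 2 ^ 30) := by ring
          _ ≤ 2 ^ k * 2 ^ k * 1 := by
              gcongr
              norm_num
          _ ≤ 2 ^ (3 * k + 1) := by
              rw [mul_one, ← pow_add]
              exact pow_le_pow_right₀ (by norm_num) (by omega)

/-- **Colouring of one level.** -/
theorem level_colour {k : ℕ} (hk : 100 ≤ k) {P : Finset G} {E U : G → ℝ≥0∞}
    (h : Lev k P E U) : ∃ f : G → Fin (2 ^ 34), ∀ A B : Finset G, A ⊆ P → B ⊆ P →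
      Disjoint A B → (A ∪ B).Nonempty → (A ∪ B).card ≤ 2 ^ k →
      (∀ x ∈ A ∪ B, ∀ y ∈ A ∪ B, f x = f y) →
      1 / 2 ^ (9 * k) < kap (MP P U) (sg A B) := by
  classical
  have hk1 : 1 ≤ k := by omega
  have hM : PD (MP P U) := PD.FF_tern h.pd (by
    rw [ENNReal.inv_le_inv]; norm_num) P
  have h0 : Fin0 (MP P U) := Fin0.FF_tern h.pd h.u0 (by
    rw [ENNReal.inv_le_inv]; norm_num) P
  set R := (Finset.range (2 * k + 1)).biUnion (fun j => LcNGs (MP P U) P k j) with hR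
  set 𝒢 : Finset (Finset G) := R.image (fun T => T.1 ∪ T.2) with h𝒢
  have hlen : ∀ T ∈ R, 2 ≤ (T.1 ∪ T.2).card := by
    intro T hT
    obtain ⟨j, _, hT1⟩ := Finset.mem_biUnion.1 hT
    obtain ⟨⟨hA, hB⟩, hd, hne, hc, hng⟩ := lc_mem_NGs.1 hT1
    have h1 := lc_ng_len hk h hM h0 hA hB hd hne hc hng
    have h2 : 3 * k + 1 ≤ (3 * k + 1) * max 1 (Nat.fib j) :=
      Nat.le_mul_of_pos_right _ (by positivity)
    omega
  obtain ⟨f, hf⟩ := lll_hyper 𝒢 (by
    intro D hD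
    obtain ⟨T, hT, rfl⟩ := Finset.mem_image.1 hD
    exact hlen T hT) (by
    intro v
    have s1 : ∑ D ∈ 𝒢.filter (fun D => v ∈ D), (1 / 2 ^ 16 : ℝ) ^ D.card ≤
        ∑ T ∈ R.filter (fun T => v ∈ T.1 ∪ T.2), (1 / 2 ^ 16 : ℝ) ^ (T.1 ∪ T.2).card := by
      have e : 𝒢.filter (fun D => v ∈ D) =
          (R.filter (fun T => v ∈ T.1 ∪ T.2)).image (fun T => T.1 ∪ T.2) := by
        rw [h𝒢, Finset.filter_image]
      rw [e]
      exact Finset.sum_image_le_of_nonneg (fun T _ => by positivity)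
    refine s1.trans ?_
    have e2 : R.filter (fun T => v ∈ T.1 ∪ T.2) = (Finset.range (2 * k + 1)).biUnion
        (fun j => (LcNGs (MP P U) P k j).filter (fun T => v ∈ T.1 ∪ T.2)) := by
      rw [hR, Finset.filter_biUnion]
    rw [e2]
    have s2 : ∑ T ∈ (Finset.range (2 * k + 1)).biUnion
        (fun j => (LcNGs (MP P U) P k j).filter (fun T => v ∈ T.1 ∪ T.2)),
        (1 / 2 ^ 16 : ℝ) ^ (T.1 ∪ T.2).card ≤ ∑ j ∈ Finset.range (2 * k + 1),
          ∑ T ∈ (LcNGs (MP P U) P k j).filter (fun T => v ∈ T.1 ∪ T.2),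
            (1 / 2 ^ 16 : ℝ) ^ (T.1 ∪ T.2).card := by
      refine le_of_eq (Finset.sum_biUnion ?_)
      intro i _ j _ hij
      rw [Function.onFun, Finset.disjoint_left]
      intro T hT hT'
      have g1 := (lc_mem_NGs.1 (Finset.mem_filter.1 hT).1).2.2.2.2
      have g2 := (lc_mem_NGs.1 (Finset.mem_filter.1 hT').1).2.2.2.2
      rcases lt_or_gt_of_ne hij with hlt | hlt
      · exact g2.2.1 i hlt g1.1
      · exact g1.2.1 j hlt g2.1
    refine s2.trans ?_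
    calc ∑ j ∈ Finset.range (2 * k + 1),
          ∑ T ∈ (LcNGs (MP P U) P k j).filter (fun T => v ∈ T.1 ∪ T.2),
            (1 / 2 ^ 16 : ℝ) ^ (T.1 ∪ T.2).card
        ≤ ∑ _j ∈ Finset.range (2 * k + 1), (1 / (4 * (2 * k + 1)) : ℝ) := by
          refine Finset.sum_le_sum fun j hj => ?_
          exact lc_weight_level hk h hM h0 (by have := Finset.mem_range.1 hj; omega) v
      _ = 1 / 4 := by
          rw [Finset.sum_const, Finset.card_range, nsmul_eq_mul]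
          push_cast
          field_simp)
  refine ⟨f, ?_⟩
  intro A B hA hB hAB hne hc hmono
  by_contra hcon
  rw [not_lt] at hcon
  have hle : kap (MP P U) (sg A B) ≤ lc_sj k (2 * k) := hcon.trans (lc_sj_ge hk (le_refl _))
  -- a good part exists
  have hex : ∃ n : ℕ, ∃ i ≤ 2 * k, ∃ A' ⊆ A, ∃ B' ⊆ B, (A' ∪ B').Nonempty ∧
      LcGood (MP P U) (lc_sj k i) (A', B') ∧ (A' ∪ B').card = n := by
    by_contra hno
    push Not at hno
    have h1 := lc_long_of_noGood hk h hM h0 (2 * k) A B hA hB hAB hne hc hle (by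
      intro i hi A' h1 B' h2 h3 h4
      exact hno _ i hi A' h1 B' h2 h3 h4 rfl)
    have h2 : ∀ m : ℕ, 2 ^ m ≤ Nat.fib (2 * m + 2) := by
      intro m
      induction m with
      | zero => decide
      | succ m ih =>
        have e1 : Nat.fib (2 * (m + 1) + 2) = Nat.fib (2 * m + 2) + Nat.fib (2 * m + 3) := by
          rw [show 2 * (m + 1) + 2 = (2 * m + 2) + 2 by ring, Nat.fib_add_two]
        have e2 : Nat.fib (2 * m + 2) ≤ Nat.fib (2 * m + 3) := Nat.fib_le_fib_succ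
        rw [e1, pow_succ]
        omega
    have h3 := h2 k
    have h4 : (3 * k + 1) * 2 ^ k ≤ 2 ^ k :=
      (Nat.mul_le_mul_left _ h3).trans (h1.trans hc)
    have h5 : 0 < 2 ^ k := by positivity
    nlinarith
  obtain ⟨i₀, hi₀, A', hA', B', hB', hne', hg', hcard'⟩ := Nat.find_spec hex
  have hmin := fun m => Nat.find_min hex (m := m)
  have hex2 : ∃ i, LcGood (MP P U) (lc_sj k i) (A', B') := ⟨i₀, hg'⟩
  have hi1 : Nat.find hex2 ≤ i₀ := Nat.find_min' hex2 hg'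
  have hmem : (A', B') ∈ LcNGs (MP P U) P k (Nat.find hex2) := by
    rw [lc_mem_NGs]
    refine ⟨⟨hA'.trans hA, hB'.trans hB⟩, hAB.mono hA' hB', hne', ?_, Nat.find_spec hex2,
      fun i hi => Nat.find_min hex2 hi, ?_⟩
    · exact (Finset.card_le_card (Finset.union_subset_union hA' hB')).trans hc
    · intro i hi A₁ h1 B₁ h2 h3 h4 h5
      replace h1 : A₁ ⊆ A' := h1
      replace h2 : B₁ ⊆ B' := h2
      have h6 : (A₁ ∪ B₁).card < Nat.find hex := by
        rw [← hcard']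
        have hd' : Disjoint A' B' := hAB.mono hA' hB'
        rw [Finset.card_union_of_disjoint (hd'.mono h1 h2), Finset.card_union_of_disjoint hd']
        have c1 := Finset.card_le_card h1
        have c2 := Finset.card_le_card h2
        by_contra hcon2
        have c3 : A₁ = A' := Finset.eq_of_subset_of_card_le h1 (by omega)
        have c4 : B₁ = B' := Finset.eq_of_subset_of_card_le h2 (by omega)
        exact h4 (by rw [c3, c4])
      exact hmin _ h6 ⟨i, by omega, A₁, h1.trans hA', B₁, h2.trans hB', h3, h5, rfl⟩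
  have hmem2 : A' ∪ B' ∈ 𝒢 := by
    rw [h𝒢]
    refine Finset.mem_image.2 ⟨(A', B'), ?_, rfl⟩
    exact Finset.mem_biUnion.2 ⟨Nat.find hex2, Finset.mem_range.2 (by omega), hmem⟩
  obtain ⟨x, hx, y, hy, hxy⟩ := hf _ hmem2
  have hsub := Finset.union_subset_union hA' hB'
  exact hxy (hmono x (hsub hx) y (hsub hy))

end Pool.Agent.SP
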